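import Pool.Agent.FB75.Smooth

/-!
# Classical solutions of the one-phase problem in an open set; the explicit kernel and potential
-/

open MeasureTheory Metric Set Filter Topology InnerProductSpace Laplacian
open scoped ContDiff

namespace FBQ

/-- `IsSolutionOn O u`: the function `u` is a classical solution of the one-phase free boundary
problem in the open set `O` of `ℝ³`. It is continuous and nonnegative in `O` and harmonic in the
positive phase `{x ∈ O | 0 < u x}`. The free boundary (the part in `O` of the frontier of the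
positive phase) is a smooth embedded surface: every point `y` of it has an open neighbourhood
`V ⊆ O` in which it is the zero set of a smooth function `φ` without critical points; `u` vanishes
on the side `{φ ≤ 0}`, it is positive on the side `{φ > 0}` and smooth up to the free boundary from
this side: it equals a smooth function `g` on `{φ ≥ 0}`, and `|∇g| = 1` on the free boundary. -/
structure IsSolutionOn (O : Set (EuclideanSpace ℝ (Fin 3))) (u : EuclideanSpace ℝ (Fin 3) → ℝ) :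
    Prop where
  continuousOn : ContinuousOn u O
  nonneg : ∀ x ∈ O, 0 ≤ u x
  harmonic : InnerProductSpace.HarmonicOnNhd u {x | x ∈ O ∧ 0 < u x}
  boundary : ∀ y ∈ O, y ∈ frontier {x | x ∈ O ∧ 0 < u x} →
    ∃ V : Set (EuclideanSpace ℝ (Fin 3)), IsOpen V ∧ y ∈ V ∧ V ⊆ O ∧
      ∃ φ g : EuclideanSpace ℝ (Fin 3) → ℝ, ContDiffOn ℝ ∞ φ V ∧ ContDiffOn ℝ ∞ g V ∧
        (∀ x ∈ V, fderiv ℝ φ x ≠ 0) ∧
        frontier {x | x ∈ O ∧ 0 < u x} ∩ V = {x | φ x = 0} ∩ V ∧
        (∀ x ∈ V, φ x ≤ 0 → u x = 0) ∧ (∀ x ∈ V, 0 < φ x → 0 < u x) ∧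
        (∀ x ∈ V, 0 ≤ φ x → u x = g x) ∧ ∀ x ∈ V, φ x = 0 → ‖fderiv ℝ g x‖ = 1

/-- `HasNormalCurvatureGT S y M`: near the point `y` the set `S` is the zero set of a smooth
function `φ` with nonvanishing differential, and in some tangent direction `τ` the normal
curvature `|D²φ(y)(τ, τ)| / |∇φ(y)|` of this surface is larger than `M`. -/
def HasNormalCurvatureGT (S : Set (EuclideanSpace ℝ (Fin 3))) (y : EuclideanSpace ℝ (Fin 3))
    (M : ℝ) : Prop :=
  ∃ V : Set (EuclideanSpace ℝ (Fin 3)), IsOpen V ∧ y ∈ V ∧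
    ∃ φ : EuclideanSpace ℝ (Fin 3) → ℝ, ContDiffOn ℝ ∞ φ V ∧ (∀ x ∈ V, fderiv ℝ φ x ≠ 0) ∧
      S ∩ V = {x | φ x = 0} ∩ V ∧
      ∃ τ : EuclideanSpace ℝ (Fin 3), ‖τ‖ = 1 ∧ fderiv ℝ φ y τ = 0 ∧
        M * ‖fderiv ℝ φ y‖ < |fderiv ℝ (fderiv ℝ φ) y τ τ|

abbrev E3 := EuclideanSpace ℝ (Fin 3)

/-- The kernel of the solution operator of `f'' + f'/ξ = h''`. -/
noncomputable def kap (ξ s : ℝ) : ℝ :=
  (2 / Real.pi) * ∫ θ in (0 : ℝ)..(Real.pi / 2),
    (√(4 * ξ + ((ξ - 1) ^ 2 - s ^ 2) * Real.sin θ ^ 2))⁻¹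

/-- The potential `Φ(ζ, b) = r + (1 - ζ) log (r + ζ)`, `r = √(ζ² + b)`. -/
noncomputable def Ph (ζ b : ℝ) : ℝ :=
  √(ζ ^ 2 + b) + (1 - ζ) * Real.log (√(ζ ^ 2 + b) + ζ)

/-- The solution in parabolic coordinates `ξ`, `b = η²`. -/
noncomputable def FF (ξ b : ℝ) : ℝ := ∫ s in (1 - ξ)..(ξ - 1), kap ξ s * Ph (1 - s) b

/-- The domain of the kernel. -/
def domK : Set (ℝ × ℝ) := {p | 0 < p.1 ∧ |p.2| < p.1 + 1}

/-- The domain of the potential. -/
def domP : Set (ℝ × ℝ) := {p | 0 < p.1 ^ 2 + p.2 ∧ 0 < √(p.1 ^ 2 + p.2) + p.1}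

/-- The domain of the solution. -/
def domF : Set (ℝ × ℝ) := {p | 0 < p.1 ∧ -(1 / 16) < p.2 ∧ (p.1 - 1) ^ 2 < 1 / 4 + p.2}

/-- `a = ξ²`, the function whose level set `{a = 1}` is the paraboloid. -/
noncomputable def aa (e x : E3) : ℝ := ‖x‖ + inner ℝ x e

/-- `b = η²`. -/
noncomputable def bb (e x : E3) : ℝ := ‖x‖ - inner ℝ x e

/-- The harmonic function near the free boundary and outside of the paraboloid. -/
noncomputable def gg (e x : E3) : ℝ := FF (√(aa e x)) (bb e x)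

open Classical in
/-- The solution. -/
noncomputable def uu (e x : E3) : ℝ := if 1 < aa e x then gg e x else 0

end FBQ
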