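import Pool.Agent.FBQ.Def

/-!
# Scaling of solutions
-/

open MeasureTheory Metric Set Filter Topology InnerProductSpace Laplacian
open scoped ContDiff

namespace FBQ

/-- The rescaled function. -/
noncomputable def resc (R : ℝ) (c : E3) (v : E3 → ℝ) (x : E3) : ℝ := v (R • x + c) / R

/-- The affine homeomorphism. -/
private noncomputable def hom (R : ℝ) (hR : 0 < R) (c : E3) : E3 ≃ₜ E3 :=
  (Homeomorph.smulOfNeZero R hR.ne').trans (Homeomorph.addRight c)

private theorem hom_apply (R : ℝ) (hR : 0 < R) (c x : E3) : hom R hR c x = R • x + c := rfl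

private theorem resc_pos {R : ℝ} (hR : 0 < R) (c : E3) (v : E3 → ℝ) (x : E3) :
    0 < resc R c v x ↔ 0 < v (R • x + c) := by
  unfold resc
  exact div_pos_iff_of_pos_right hR

private theorem resc_set {R : ℝ} (hR : 0 < R) (c : E3) (v : E3 → ℝ) (O : Set E3) :
    {x | x ∈ {x | R • x + c ∈ O} ∧ 0 < resc R c v x} =
      (hom R hR c) ⁻¹' {x | x ∈ O ∧ 0 < v x} := by
  ext x
  simp only [mem_ofPred_eq, mem_preimage, hom_apply, resc_pos hR]

theorem resc_frontier {R : ℝ} (hR : 0 < R) (c : E3) (v : E3 → ℝ) (O : Set E3) (y : E3) :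
    y ∈ frontier {x | x ∈ {x | R • x + c ∈ O} ∧ 0 < resc R c v x} ↔
      R • y + c ∈ frontier {x | x ∈ O ∧ 0 < v x} := by
  rw [resc_set hR, ← (hom R hR c).preimage_frontier]
  rfl

private theorem fderiv_affine {F : Type*} [NormedAddCommGroup F] [NormedSpace ℝ F] (f : E3 → F)
    (R : ℝ) (c x : E3) :
    fderiv ℝ (fun y => f (R • y + c)) x = R • fderiv ℝ f (R • x + c) := by
  have h1 := fderiv_comp_smul (𝕜 := ℝ) (f := fun y => f (y + c)) (x := x) R
  have h2 := fderiv_comp_add_right (𝕜 := ℝ) (f := f) (x := R • x) c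
  rw [h1, h2]

private theorem fderiv_smul_fun {F : Type*} [NormedAddCommGroup F] [NormedSpace ℝ F] (a : ℝ)
    (f : E3 → F) (x : E3) : fderiv ℝ (fun y => a • f y) x = a • fderiv ℝ f x := by
  have h := congrFun (fderiv_const_smul_field (𝕜 := ℝ) (f := f) a) x
  exact h

private theorem fderiv_resc {R : ℝ} (hR : 0 < R) (c : E3) (v : E3 → ℝ) (x : E3) :
    fderiv ℝ (resc R c v) x = fderiv ℝ v (R • x + c) := by
  have h1 : resc R c v = fun y => R⁻¹ • v (R • y + c) := by
    ext y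
    simp [resc, div_eq_inv_mul]
  rw [h1, fderiv_smul_fun, fderiv_affine, smul_smul, inv_mul_cancel₀ hR.ne', one_smul]

private theorem fderiv_fderiv_resc {R : ℝ} (hR : 0 < R) (c : E3) (v : E3 → ℝ) (x : E3) :
    fderiv ℝ (fderiv ℝ (resc R c v)) x = R • fderiv ℝ (fderiv ℝ v) (R • x + c) := by
  have h1 : fderiv ℝ (resc R c v) = fun y => fderiv ℝ v (R • y + c) := by
    ext1 y
    exact fderiv_resc hR c v y
  rw [h1, fderiv_affine]

private theorem laplacian_resc {R : ℝ} (hR : 0 < R) (c : E3) (v : E3 → ℝ) (x : E3) :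
    Δ (resc R c v) x = R * Δ v (R • x + c) := by
  rw [laplacian_eq_iteratedFDeriv_orthonormalBasis _ (EuclideanSpace.basisFun (Fin 3) ℝ),
    laplacian_eq_iteratedFDeriv_orthonormalBasis _ (EuclideanSpace.basisFun (Fin 3) ℝ)]
  simp only [iteratedFDeriv_two_apply, fderiv_fderiv_resc hR, Finset.mul_sum]
  rfl

private theorem continuousAt_affine (R : ℝ) (c x : E3) :
    ContinuousAt (fun y : E3 => R • y + c) x := by fun_prop

private theorem harmonicAt_resc {R : ℝ} (hR : 0 < R) (c : E3) {v : E3 → ℝ} {x : E3}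
    (h : HarmonicAt v (R • x + c)) : HarmonicAt (resc R c v) x := by
  constructor
  · have h1 : ContDiffAt ℝ 2 (fun y : E3 => R • y + c) x := by fun_prop
    exact (ContDiffAt.comp x h.1 h1).div_const R
  · have h1 := (continuousAt_affine R c x).eventually h.2
    filter_upwards [h1] with y hy
    rw [laplacian_resc hR, hy]
    simp

theorem resc_solution {R : ℝ} (hR : 0 < R) (c : E3) {v : E3 → ℝ} {O : Set E3} (hO : IsOpen O)
    (hv : IsSolutionOn O v) : IsSolutionOn {x | R • x + c ∈ O} (resc R c v) := by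
  have hmap : MapsTo (fun y : E3 => R • y + c) {x | R • x + c ∈ O} O := fun x hx => hx
  have hcont : Continuous (fun y : E3 => R • y + c) := by fun_prop
  have hsm : ∀ s : Set E3, ContDiffOn ℝ ∞ (fun y : E3 => R • y + c) s := fun s =>
    ContDiff.contDiffOn (by fun_prop)
  refine ⟨?_, ?_, ?_, ?_⟩
  · exact (hv.continuousOn.comp hcont.continuousOn hmap).div_const R
  · intro x hx
    exact div_nonneg (hv.nonneg _ hx) hR.le
  · intro x hx
    exact harmonicAt_resc hR c (hv.harmonic _ ⟨hx.1, (resc_pos hR c v x).1 hx.2⟩)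
  · intro y hy hyf
    have hyf' := (resc_frontier hR c v O y).1 hyf
    obtain ⟨V, hV, hyV, hVO, φ, g, hφ, hg, hφ0, hfr, hle, hpos, hug, hgrad⟩ :=
      hv.boundary _ hy hyf'
    refine ⟨(fun x : E3 => R • x + c) ⁻¹' V, hV.preimage hcont, hyV, fun x hx => hVO hx,
      fun x => φ (R • x + c), resc R c g, ?_, ?_, ?_, ?_, ?_, ?_, ?_, ?_⟩
    · exact hφ.comp (hsm _) (fun x hx => hx)
    · exact (hg.comp (hsm _) (fun x hx => hx)).div_const R
    · intro x hx
      rw [fderiv_affine]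
      exact smul_ne_zero hR.ne' (hφ0 _ hx)
    · ext x
      constructor
      · rintro ⟨h1, h2⟩
        have h3 := (resc_frontier hR c v O x).1 h1
        have h4 : R • x + c ∈ {x | φ x = 0} ∩ V := hfr ▸ ⟨h3, h2⟩
        exact ⟨h4.1, h2⟩
      · rintro ⟨h1, h2⟩
        have h4 : R • x + c ∈ frontier {x | x ∈ O ∧ 0 < v x} ∩ V := hfr.symm ▸ ⟨h1, h2⟩
        exact ⟨(resc_frontier hR c v O x).2 h4.1, h2⟩
    · intro x hx h
      unfold resc
      rw [hle _ hx h, zero_div]
    · intro x hx h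
      exact (resc_pos hR c v x).2 (hpos _ hx h)
    · intro x hx h
      unfold resc
      rw [hug _ hx h]
    · intro x hx h
      rw [fderiv_resc hR]
      exact hgrad _ hx h

theorem resc_curv {R : ℝ} (hR : 0 < R) (c : E3) {S : Set E3} {y : E3} {M : ℝ}
    (h : HasNormalCurvatureGT S (R • y + c) M) :
    HasNormalCurvatureGT {x | R • x + c ∈ S} y (R * M) := by
  obtain ⟨V, hV, hyV, φ, hφ, hφ0, hS, τ, hτ, hτ0, hlt⟩ := h
  have hcont : Continuous (fun y : E3 => R • y + c) := by fun_prop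
  have hsm : ∀ s : Set E3, ContDiffOn ℝ ∞ (fun y : E3 => R • y + c) s := fun s =>
    ContDiff.contDiffOn (by fun_prop)
  refine ⟨(fun x : E3 => R • x + c) ⁻¹' V, hV.preimage hcont, hyV,
    fun x => φ (R • x + c), hφ.comp (hsm _) (fun x hx => hx), ?_, ?_, τ, hτ, ?_, ?_⟩
  · intro x hx
    rw [fderiv_affine]
    exact smul_ne_zero hR.ne' (hφ0 _ hx)
  · ext x
    constructor
    · rintro ⟨h1, h2⟩
      have h4 : R • x + c ∈ {x | φ x = 0} ∩ V := hS ▸ ⟨h1, h2⟩
      exact ⟨h4.1, h2⟩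
    · rintro ⟨h1, h2⟩
      have h4 : R • x + c ∈ S ∩ V := hS.symm ▸ ⟨h1, h2⟩
      exact ⟨h4.1, h2⟩
  · rw [fderiv_affine]
    simp [hτ0]
  · have h2 : fderiv ℝ (fderiv ℝ (fun x => φ (R • x + c))) y =
        (R * R) • fderiv ℝ (fderiv ℝ φ) (R • y + c) := by
      have h3 : fderiv ℝ (fun x => φ (R • x + c)) = fun x => R • fderiv ℝ φ (R • x + c) := by
        ext1 x
        exact fderiv_affine φ R c x
      have h4 := fderiv_smul_fun R (fun x => fderiv ℝ φ (R • x + c)) y
      have h5 := fderiv_affine (fderiv ℝ φ) R c y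
      rw [h3, h4, h5, smul_smul]
    rw [h2, fderiv_affine, norm_smul, Real.norm_of_nonneg hR.le]
    have h5 : ((R * R) • fderiv ℝ (fderiv ℝ φ) (R • y + c)) τ τ =
        (R * R) * fderiv ℝ (fderiv ℝ φ) (R • y + c) τ τ := rfl
    rw [h5, abs_mul, abs_of_pos (mul_pos hR hR)]
    have h6 := mul_lt_mul_of_pos_left hlt (mul_pos hR hR)
    calc R * M * (R * ‖fderiv ℝ φ (R • y + c)‖) = R * R * (M * ‖fderiv ℝ φ (R • y + c)‖) := by
          ring
      _ < _ := h6

theorem resc_contractible {R : ℝ} (hR : 0 < R) (c : E3) {S : Set E3} (h : ContractibleSpace S) :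
    ContractibleSpace {x : E3 | R • x + c ∈ S} := by
  have e : {x : E3 | R • x + c ∈ S} ≃ₜ S :=
    (hom R hR c).subtype (fun x => Iff.rfl)
  exact e.contractibleSpace

end FBQ
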