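import Pool.Agent.FBQ.Def

/-!
# The phases are contractible
-/

open MeasureTheory Metric Set Filter Topology
open scoped ContDiff

namespace FBQ

private theorem topo_inner_self {e : E3} (he : ‖e‖ = 1) : inner ℝ e e = (1 : ℝ) := by
  rw [real_inner_self_eq_norm_sq, he]; norm_num

/-- The outside of the paraboloid in terms of cylindrical coordinates. -/
theorem one_lt_aa_iff {e x : E3} (he : ‖e‖ = 1) :
    1 < aa e x ↔ 1 < ‖x‖ ^ 2 - (inner ℝ x e) ^ 2 + 2 * inner ℝ x e := by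
  unfold aa
  have h0 := norm_nonneg x
  have h1 : |inner ℝ x e| ≤ ‖x‖ * ‖e‖ := abs_real_inner_le_norm x e
  rw [he, mul_one] at h1
  have h2 := abs_le.1 h1
  constructor
  · intro h
    nlinarith [mul_pos (show 0 < ‖x‖ + inner ℝ x e by linarith) (show 0 < ‖x‖ + inner ℝ x e by linarith)]
  · intro h
    by_contra hcon
    rw [not_lt] at hcon
    nlinarith

/-- The contraction. -/
private noncomputable def topoH (e : E3) (μ : ℝ) (x : E3) : E3 :=
  √μ • (x - (inner ℝ x e) • e) + (μ * inner ℝ x e + (1 - μ) * (9 / 16)) • e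

private theorem topoH_inner {e : E3} (he : ‖e‖ = 1) (μ : ℝ) (x : E3) :
    inner ℝ (topoH e μ x) e = μ * inner ℝ x e + (1 - μ) * (9 / 16) := by
  have hee := topo_inner_self he
  unfold topoH
  rw [inner_add_left, inner_smul_left, inner_smul_left, inner_sub_left, inner_smul_left, hee]
  simp

private theorem topoH_norm {e : E3} (he : ‖e‖ = 1) {μ : ℝ} (hμ : 0 ≤ μ) (x : E3) (c : ℝ) :
    ‖topoH e μ x - c • e‖ ^ 2 = μ * (‖x‖ ^ 2 - (inner ℝ x e) ^ 2) +
      (μ * inner ℝ x e + (1 - μ) * (9 / 16) - c) ^ 2 := by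
  have hee := topo_inner_self he
  have h1 : topoH e μ x - c • e = √μ • (x - (inner ℝ x e) • e) +
      (μ * inner ℝ x e + (1 - μ) * (9 / 16) - c) • e := by
    unfold topoH
    module
  have h2 : inner ℝ (x - (inner ℝ x e) • e) e = (0 : ℝ) := by
    rw [inner_sub_left, inner_smul_left, hee]; simp
  have h3 : ‖x - (inner ℝ x e) • e‖ ^ 2 = ‖x‖ ^ 2 - (inner ℝ x e) ^ 2 := by
    rw [@norm_sub_sq_real, inner_smul_right, norm_smul, he, Real.norm_eq_abs, mul_one, sq_abs]
    ring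
  rw [h1, @norm_add_sq_real, norm_smul, norm_smul, inner_smul_left, inner_smul_right, h2, he,
    mul_pow, h3]
  simp only [Real.norm_eq_abs, sq_abs, mul_one]
  rw [Real.sq_sqrt hμ]
  simp

private theorem topo_ball {e : E3} (he : ‖e‖ = 1) {x : E3} {c R : ℝ} (hR : 0 < R) :
    x ∈ ball (c • e) R ↔ ‖x‖ ^ 2 - (inner ℝ x e) ^ 2 + (inner ℝ x e - c) ^ 2 < R ^ 2 := by
  have h1 := topoH_norm he zero_le_one x c
  have h2 : topoH e 1 x = x := by
    unfold topoH; simp
  rw [h2] at h1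
  rw [mem_ball, dist_eq_norm, ← sq_lt_sq₀ (norm_nonneg _) hR.le, h1]
  simp

private theorem topoH_mem {e : E3} (he : ‖e‖ = 1) {R : ℝ} (hR : 1 ≤ R) {μ : ℝ} (h0 : 0 ≤ μ)
    (h1 : μ ≤ 1) {x : E3} (hx : x ∈ {x : E3 | x ∈ ball ((5 / 8 - R) • e) R ∧ 1 < aa e x}) :
    topoH e μ x ∈ {x : E3 | x ∈ ball ((5 / 8 - R) • e) R ∧ 1 < aa e x} := by
  obtain ⟨hb, ha⟩ := hx
  rw [one_lt_aa_iff he] at ha
  rw [topo_ball he (by linarith)] at hb
  have hn := topoH_norm he h0 x 0
  rw [zero_smul, sub_zero] at hn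
  refine ⟨?_, ?_⟩
  · rw [topo_ball he (by linarith), hn, topoH_inner he]
    set z : ℝ := inner ℝ x e with hz
    have h3 : μ * z + (1 - μ) * (9 / 16) - (5 / 8 - R) =
        μ * (z - (5 / 8 - R)) + (1 - μ) * (R - 1 / 16) := by ring
    have h4 : (μ * z + (1 - μ) * (9 / 16) - (5 / 8 - R)) ^ 2 ≤
        μ * (z - (5 / 8 - R)) ^ 2 + (1 - μ) * (R - 1 / 16) ^ 2 := by
      rw [h3]
      nlinarith [mul_nonneg (mul_nonneg h0 (sub_nonneg.2 h1))
        (sq_nonneg ((z - (5 / 8 - R)) - (R - 1 / 16)))]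
    rcases h0.eq_or_lt with h5 | h5
    · subst h5
      nlinarith
    · nlinarith [mul_lt_mul_of_pos_left hb h5, mul_nonneg (sub_nonneg.2 h1)
        (show (0 : ℝ) ≤ R ^ 2 - (R - 1 / 16) ^ 2 by nlinarith)]
  · rw [one_lt_aa_iff he, hn, topoH_inner he]
    rcases h0.eq_or_lt with h5 | h5
    · subst h5
      norm_num
    · nlinarith [mul_lt_mul_of_pos_left ha h5]

private theorem topoH_continuous (e : E3) :
    Continuous fun p : ℝ × E3 => topoH e p.1 p.2 := by
  unfold topoH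
  fun_prop

/-- The exterior of the paraboloid in the ball of radius `R` which reaches the height `5/8`. -/
theorem contractible_pos {e : E3} (he : ‖e‖ = 1) {R : ℝ} (hR : 1 ≤ R) :
    ContractibleSpace {x : E3 | x ∈ ball ((5 / 8 - R) • e) R ∧ 1 < aa e x} := by
  set S : Set E3 := {x : E3 | x ∈ ball ((5 / 8 - R) • e) R ∧ 1 < aa e x} with hS
  have hee := topo_inner_self he
  have hp : (9 / 16 : ℝ) • e ∈ S := by
    refine ⟨?_, ?_⟩
    · rw [mem_ball, dist_eq_norm, ← sub_smul, norm_smul, he, mul_one, Real.norm_eq_abs]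
      rw [abs_lt]; constructor <;> linarith
    · unfold aa
      rw [norm_smul, he, inner_smul_left, hee]
      norm_num
  rw [contractible_iff_id_nullhomotopic]
  refine ⟨⟨(9 / 16 : ℝ) • e, hp⟩, ⟨⟨⟨fun q => ⟨topoH e (1 - (q.1 : ℝ)) q.2.1,
    topoH_mem he hR (by linarith [q.1.2.2]) (by linarith [q.1.2.1]) q.2.2⟩, ?_⟩, ?_, ?_⟩⟩⟩
  · apply Continuous.subtype_mk
    have h1 : Continuous fun q : unitInterval × S => ((1 - (q.1 : ℝ), (q.2 : E3)) : ℝ × E3) := by
      fun_prop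
    exact (topoH_continuous e).comp h1
  · intro x
    apply Subtype.ext
    simp [topoH]
  · intro x
    apply Subtype.ext
    simp [topoH]

theorem contractible_zero {e : E3} (he : ‖e‖ = 1) {R : ℝ} (hR : 1 ≤ R) :
    ContractibleSpace {x : E3 | x ∈ ball ((5 / 8 - R) • e) R ∧ aa e x ≤ 1} := by
  have hee := topo_inner_self he
  have hconv : Convex ℝ {x : E3 | x ∈ ball ((5 / 8 - R) • e) R ∧ aa e x ≤ 1} := by
    apply (convex_ball _ _).inter
    have h1 : ConvexOn ℝ univ (fun x : E3 => aa e x) := by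
      unfold aa
      apply (convexOn_univ_norm).add
      have : (fun x : E3 => inner ℝ x e) = fun x => innerSL ℝ e x := by
        funext x; rw [innerSL_apply_apply, real_inner_comm]
      rw [this]
      exact (innerSL ℝ e).toLinearMap.convexOn convex_univ
    have h2 := h1.convex_le 1
    have h3 : {x : E3 | x ∈ univ ∧ aa e x ≤ 1} = {x | aa e x ≤ 1} := by ext x; simp
    rw [h3] at h2
    exact h2
  apply hconv.contractibleSpace
  refine ⟨(1 / 2 : ℝ) • e, ?_, ?_⟩
  · rw [mem_ball, dist_eq_norm, ← sub_smul, norm_smul, he, mul_one, Real.norm_eq_abs]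
    rw [abs_lt]; constructor <;> linarith
  · unfold aa
    rw [norm_smul, he, inner_smul_left, hee]
    norm_num

end FBQ
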