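import Pool.Agent.FBQ.Solution
import Pool.Agent.FBQ.Topo
import Pool.Agent.FBQ.Scale

/-!
# No curvature bound
-/

open MeasureTheory Metric Set Filter Topology InnerProductSpace Laplacian
open scoped ContDiff

namespace FBQ

theorem no_bound (c : ℝ) (hc : 0 < c) (M : ℝ) : ∃ u : E3 → ℝ, IsSolutionOn (ball 0 1) u ∧
    ContractibleSpace {x | x ∈ ball (0 : E3) 1 ∧ 0 < u x} ∧
    ContractibleSpace {x | x ∈ ball (0 : E3) 1 ∧ u x = 0} ∧
    (∃ y ∈ ball (0 : E3) 1, y ∈ frontier {x | x ∈ ball (0 : E3) 1 ∧ 0 < u x} ∧ ‖y‖ < c) ∧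
    ∀ y ∈ ball (0 : E3) 1, y ∈ frontier {x | x ∈ ball (0 : E3) 1 ∧ 0 < u x} →
      HasNormalCurvatureGT (frontier {x | x ∈ ball (0 : E3) 1 ∧ 0 < u x}) y M := by
  -- two orthogonal unit vectors
  set e : E3 := EuclideanSpace.single 2 1 with he'
  set f : E3 := EuclideanSpace.single 0 1 with hf'
  have he : ‖e‖ = 1 := by simp [he']
  have hf : ‖f‖ = 1 := by simp [hf']
  have hee : inner ℝ e e = (1 : ℝ) := by rw [real_inner_self_eq_norm_sq, he]; norm_num
  have hfe : inner ℝ f e = (0 : ℝ) := by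
    simp [he', hf', EuclideanSpace.inner_single_left]
  -- the radius
  set c₁ : ℝ := min c 1 with hc₁
  have hc₁0 : 0 < c₁ := lt_min hc one_pos
  have hc₁1 : c₁ ≤ 1 := min_le_right _ _
  have hc₁c : c₁ ≤ c := min_le_left _ _
  obtain ⟨R, hR1, hRM, hRc⟩ : ∃ R : ℝ, 1 ≤ R ∧ 9 * M ^ 2 ≤ R ∧ 4 * R < c₁ ^ 2 * R ^ 2 := by
    refine ⟨9 * M ^ 2 + 1 + 4 / c₁ ^ 2, ?_, ?_, ?_⟩
    · have h1 : (0 : ℝ) ≤ 4 / c₁ ^ 2 := by positivity
      nlinarith [sq_nonneg M]
    · have h1 : (0 : ℝ) ≤ 4 / c₁ ^ 2 := by positivity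
      linarith
    · have h2 : 0 < 9 * M ^ 2 + 1 + 4 / c₁ ^ 2 := by positivity
      have h3 : c₁ ^ 2 * (9 * M ^ 2 + 1 + 4 / c₁ ^ 2) = c₁ ^ 2 * (9 * M ^ 2 + 1) + 4 := by
        field_simp
      have h4 : 4 < c₁ ^ 2 * (9 * M ^ 2 + 1 + 4 / c₁ ^ 2) := by
        rw [h3]
        have : 0 < c₁ ^ 2 * (9 * M ^ 2 + 1) := by positivity
        linarith
      nlinarith
  have hR0 : 0 < R := by linarith
  set c₀ : E3 := (5 / 8 - R) • e with hc₀
  set O : Set E3 := ball c₀ R with hO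
  have hOo : IsOpen O := isOpen_ball
  have hc₀e : inner ℝ c₀ e = 5 / 8 - R := by
    rw [hc₀, inner_smul_left, hee]; simp
  have hOe : ∀ x ∈ O, inner ℝ x e < 5 / 8 := by
    intro x hx
    have h1 : inner ℝ (x - c₀) e ≤ ‖x - c₀‖ * ‖e‖ := real_inner_le_norm _ _
    rw [inner_sub_left, hc₀e, he, mul_one] at h1
    have h2 : ‖x - c₀‖ < R := by rw [← dist_eq_norm]; exact hx
    linarith
  -- the ball
  have hball : {x : E3 | R • x + c₀ ∈ O} = ball 0 1 := by
    ext x
    rw [mem_setOf_eq, hO, mem_ball, mem_ball, dist_eq_norm, dist_eq_norm, add_sub_cancel_right,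
      sub_zero, norm_smul, Real.norm_eq_abs, abs_of_pos hR0]
    constructor
    · intro h; nlinarith
    · intro h; nlinarith
  have hmem : ∀ x : E3, x ∈ ball (0 : E3) 1 ↔ R • x + c₀ ∈ O := by
    intro x; rw [← hball]; rfl
  have hsol := resc_solution hR0 c₀ hOo (uu_solution he hOo hOe)
  rw [hball] at hsol
  have hfr : ∀ y : E3, y ∈ frontier {x | x ∈ ball (0 : E3) 1 ∧ 0 < resc R c₀ (uu e) x} ↔
      R • y + c₀ ∈ frontier {x | x ∈ O ∧ 0 < uu e x} := by
    intro y
    have := resc_frontier hR0 c₀ (uu e) O y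
    rw [hball] at this
    exact this
  have hF := frontier_uu he hOo hOe
  refine ⟨resc R c₀ (uu e), hsol, ?_, ?_, ?_, ?_⟩
  · have h1 : {x | x ∈ ball (0 : E3) 1 ∧ 0 < resc R c₀ (uu e) x} =
        {x : E3 | R • x + c₀ ∈ {x : E3 | x ∈ ball ((5 / 8 - R) • e) R ∧ 1 < aa e x}} := by
      ext x
      rw [mem_setOf_eq, mem_setOf_eq, mem_setOf_eq, hmem]
      constructor
      · rintro ⟨hx, hp⟩
        refine ⟨hx, ?_⟩
        unfold resc at hp
        exact (uu_pos_iff he (hOe _ hx)).1 ((div_pos_iff_of_pos_right hR0).1 hp)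
      · rintro ⟨hx, hp⟩
        refine ⟨hx, ?_⟩
        unfold resc
        exact (div_pos_iff_of_pos_right hR0).2 ((uu_pos_iff he (hOe _ hx)).2 hp)
    rw [h1]
    exact resc_contractible hR0 c₀ (contractible_pos he hR1)
  · have h1 : {x | x ∈ ball (0 : E3) 1 ∧ resc R c₀ (uu e) x = 0} =
        {x : E3 | R • x + c₀ ∈ {x : E3 | x ∈ ball ((5 / 8 - R) • e) R ∧ aa e x ≤ 1}} := by
      ext x
      rw [mem_setOf_eq, mem_setOf_eq, mem_setOf_eq, hmem]
      constructor
      · rintro ⟨hx, hp⟩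
        refine ⟨hx, ?_⟩
        unfold resc at hp
        rw [div_eq_zero_iff, or_iff_left hR0.ne'] at hp
        exact (uu_zero_iff he (hOe _ hx)).1 hp
      · rintro ⟨hx, hp⟩
        refine ⟨hx, ?_⟩
        unfold resc
        rw [(uu_zero_iff he (hOe _ hx)).2 hp, zero_div]
    rw [h1]
    exact resc_contractible hR0 c₀ (contractible_zero he hR1)
  · -- a free boundary point near the centre
    set p : E3 := √(1 + 2 * R) • f + (-R) • e with hp
    have hpn : ‖p‖ ^ 2 = (1 + R) ^ 2 := by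
      rw [hp, @norm_add_sq_real, norm_smul, norm_smul, inner_smul_left, inner_smul_right, hfe, he,
        hf]
      simp only [Real.norm_eq_abs, mul_one, sq_abs]
      rw [Real.sq_sqrt (by positivity)]
      simp
      ring
    have hpn' : ‖p‖ = 1 + R := by
      rw [← Real.sqrt_sq (norm_nonneg p), hpn, Real.sqrt_sq (by positivity)]
    have hpe : inner ℝ p e = -R := by
      rw [hp, inner_add_left, inner_smul_left, inner_smul_left, hfe, hee]; simp
    have hpa : aa e p = 1 := by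
      unfold aa; rw [hpn', hpe]; ring
    have hpc : ‖p - c₀‖ ^ 2 = 1 + 2 * R + 25 / 64 := by
      have h1 : p - c₀ = √(1 + 2 * R) • f + (-(5 / 8) : ℝ) • e := by
        rw [hp, hc₀]; module
      rw [h1, @norm_add_sq_real, norm_smul, norm_smul, inner_smul_left, inner_smul_right, hfe, he,
        hf]
      simp only [Real.norm_eq_abs, mul_one, sq_abs]
      rw [Real.sq_sqrt (by positivity)]
      simp
      norm_num
    have hpc2 : ‖p - c₀‖ < c₁ * R := by
      rw [← sq_lt_sq₀ (norm_nonneg _) (by positivity), hpc, mul_pow]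
      linarith
    have hpO : p ∈ O := by
      rw [hO, mem_ball, dist_eq_norm]
      nlinarith
    set y : E3 := R⁻¹ • (p - c₀) with hy
    have hyp : R • y + c₀ = p := by
      rw [hy, smul_smul, mul_inv_cancel₀ hR0.ne', one_smul, sub_add_cancel]
    have hyn : ‖y‖ < c₁ := by
      rw [hy, norm_smul, norm_inv, Real.norm_eq_abs, abs_of_pos hR0, inv_mul_lt_iff₀ hR0]
      linarith
    refine ⟨y, ?_, ?_, lt_of_lt_of_le hyn hc₁c⟩
    · rw [hmem, hyp]; exact hpO
    · rw [hfr, hyp]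
      have : p ∈ {x | x ∈ O ∧ aa e x = 1} := ⟨hpO, hpa⟩
      rw [← hF] at this
      exact this.2
  · intro y hy hyF
    have hyO := (hmem y).1 hy
    have hyF' := (hfr y).1 hyF
    have hya : aa e (R • y + c₀) = 1 := by
      have : R • y + c₀ ∈ O ∩ frontier {x | x ∈ O ∧ 0 < uu e x} := ⟨hyO, hyF'⟩
      rw [hF] at this
      exact this.2
    have hn : ‖R • y + c₀‖ ≤ 2 * R := by
      have h1 : ‖R • y + c₀ - c₀‖ < R := by rw [← dist_eq_norm]; exact hyO
      have h2 : ‖c₀‖ ≤ R := by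
        rw [hc₀, norm_smul, he, mul_one, Real.norm_eq_abs, abs_le]
        constructor <;> linarith
      have h3 : ‖R • y + c₀‖ ≤ ‖R • y + c₀ - c₀‖ + ‖c₀‖ := by
        calc ‖R • y + c₀‖ = ‖(R • y + c₀ - c₀) + c₀‖ := by rw [sub_add_cancel]
          _ ≤ _ := norm_add_le _ _
      linarith
    have hn0 : 0 < ‖R • y + c₀‖ := by
      rcases (norm_nonneg (R • y + c₀)).eq_or_lt with h | h
      · exfalso
        have h0 : R • y + c₀ = 0 := norm_eq_zero.1 h.symm
        rw [h0] at hya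
        simp [aa] at hya
      · exact h
    set M₁ : ℝ := (3 * √R)⁻¹ with hM₁
    have hsR : 0 < √R := Real.sqrt_pos.2 hR0
    have hlt : M₁ < 1 / √(2 * ‖R • y + c₀‖) := by
      rw [hM₁, one_div]
      apply inv_strictAnti₀ (Real.sqrt_pos.2 (by positivity))
      calc √(2 * ‖R • y + c₀‖) ≤ √(2 ^ 2 * R) := Real.sqrt_le_sqrt (by linarith)
        _ = 2 * √R := by
          rw [Real.sqrt_mul (by norm_num), Real.sqrt_sq (by norm_num)]
        _ < 3 * √R := by linarith
    have h1 := resc_curv hR0 c₀ (uu_curv he hOo hOe hyO hya hlt)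
    have hset : {x | R • x + c₀ ∈ frontier {x | x ∈ O ∧ 0 < uu e x}} =
        frontier {x | x ∈ ball (0 : E3) 1 ∧ 0 < resc R c₀ (uu e) x} := by
      ext x
      exact (hfr x).symm
    rw [hset] at h1
    have hRM₁ : M ≤ R * M₁ := by
      have h2 : R * M₁ = √R / 3 := by
        rw [hM₁]
        nth_rewrite 1 [← Real.mul_self_sqrt hR0.le]
        field_simp
      rw [h2]
      have h3 : |3 * M| ≤ √R := by
        apply Real.abs_le_sqrt
        nlinarith
      have := (abs_le.1 h3).2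
      linarith
    obtain ⟨V, hV, hyV, φ, hφ, hφ0, hS, τ, hτ, hτ0, hk⟩ := h1
    refine ⟨V, hV, hyV, φ, hφ, hφ0, hS, τ, hτ, hτ0, lt_of_le_of_lt ?_ hk⟩
    exact mul_le_mul_of_nonneg_right hRM₁ (norm_nonneg _)

end FBQ
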