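import Mathlib

/-!
# Smooth dependence of interval integrals on parameters
-/

open MeasureTheory Metric Set Filter Topology
open scoped ContDiff

namespace FBQ

section

variable {E : Type*} [NormedAddCommGroup E]

private lemma Param_tube {O : Set (E × ℝ)} (hO : IsOpen O) {a b : ℝ} {x₀ : E}
    (h : ∀ t ∈ uIcc a b, (x₀, t) ∈ O) :
    ∃ δ > 0, closedBall x₀ δ ×ˢ uIcc a b ⊆ O := by
  obtain ⟨u, v, hu, hv, hxu, hbv, huv⟩ := generalized_tube_lemma (s := {x₀}) (t := uIcc a b)
    isCompact_singleton isCompact_uIcc hO (by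
      rintro ⟨x, s⟩ ⟨hx, hs⟩
      rw [mem_singleton_iff] at hx
      simp only at hx hs
      rw [hx]
      exact h s hs)
  obtain ⟨δ, hδ, hδu⟩ := Metric.nhds_basis_closedBall.mem_iff.1 (hu.mem_nhds (hxu rfl))
  exact ⟨δ, hδ, (prod_mono hδu hbv).trans huv⟩

variable [NormedSpace ℝ E] [FiniteDimensional ℝ E]
variable {G : Type*} [NormedAddCommGroup G] [NormedSpace ℝ G]

private lemma Param_zero {O : Set (E × ℝ)} (hO : IsOpen O) {g : E × ℝ → G}
    (hg : ContinuousOn g O) {a b : ℝ} {U : Set E}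
    (hUO : ∀ x ∈ U, ∀ t ∈ uIcc a b, (x, t) ∈ O) :
    ContinuousOn (fun x => ∫ t in a..b, g (x, t)) U := by
  have : ProperSpace E := FiniteDimensional.proper ℝ E
  intro x₀ hx₀
  obtain ⟨δ, hδ, hsub⟩ := Param_tube hO (hUO x₀ hx₀)
  obtain ⟨C, hC⟩ := ((isCompact_closedBall x₀ δ).prod isCompact_uIcc).exists_bound_of_continuousOn
    (hg.mono hsub)
  refine ContinuousAt.continuousWithinAt ?_
  refine intervalIntegral.continuousAt_of_dominated_interval (bound := fun _ => C) ?_ ?_ ?_ ?_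
  · filter_upwards [ball_mem_nhds x₀ hδ] with x hx
    refine ContinuousOn.aestronglyMeasurable ?_ measurableSet_uIoc
    exact hg.comp (continuous_const.prodMk continuous_id).continuousOn
      (fun s hs => hsub ⟨ball_subset_closedBall hx, uIoc_subset_uIcc hs⟩)
  · filter_upwards [ball_mem_nhds x₀ hδ] with x hx
    refine ae_of_all _ fun s hs => ?_
    exact hC (x, s) ⟨ball_subset_closedBall hx, uIoc_subset_uIcc hs⟩
  · exact intervalIntegrable_const
  · refine ae_of_all _ fun s hs => ?_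
    have h1 : ContinuousAt g (x₀, s) :=
      hg.continuousAt (hO.mem_nhds (hUO x₀ hx₀ s (uIoc_subset_uIcc hs)))
    exact ContinuousAt.comp (f := fun x : E => (x, s)) h1
      (continuous_id.prodMk continuous_const).continuousAt

private lemma Param_hasFDerivAt {O : Set (E × ℝ)} (hO : IsOpen O) {g : E × ℝ → G}
    (hg : ContDiffOn ℝ 1 g O) {a b : ℝ} {x₀ : E} (h : ∀ t ∈ uIcc a b, (x₀, t) ∈ O) :
    HasFDerivAt (fun x => ∫ t in a..b, g (x, t))
      (∫ t in a..b, (fderiv ℝ g (x₀, t)).comp (ContinuousLinearMap.inl ℝ E ℝ)) x₀ := by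
  have : ProperSpace E := FiniteDimensional.proper ℝ E
  obtain ⟨δ, hδ, hsub⟩ := Param_tube hO h
  have hd : ContinuousOn (fun p => (fderiv ℝ g p).comp (ContinuousLinearMap.inl ℝ E ℝ)) O := by
    have h1 : ContinuousOn (fderiv ℝ g) O := hg.continuousOn_fderiv_of_isOpen hO (by norm_num)
    exact h1.clm_comp continuousOn_const
  obtain ⟨C, hC⟩ := ((isCompact_closedBall x₀ δ).prod isCompact_uIcc).exists_bound_of_continuousOn
    (hd.mono hsub)
  have hslice : ∀ x ∈ closedBall x₀ δ, ContinuousOn (fun s => g (x, s)) (uIcc a b) := by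
    intro x hx
    exact hg.continuousOn.comp (continuous_const.prodMk continuous_id).continuousOn
      (fun s hs => hsub ⟨hx, hs⟩)
  have hslice' : ContinuousOn
      (fun s => (fderiv ℝ g (x₀, s)).comp (ContinuousLinearMap.inl ℝ E ℝ)) (uIcc a b) :=
    hd.comp (f := fun s : ℝ => ((x₀, s) : E × ℝ))
      (continuous_const.prodMk continuous_id).continuousOn (fun s hs => h s hs)
  refine intervalIntegral.hasFDerivAt_integral_of_dominated_of_fderiv_le
    (F := fun x s => g (x, s))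
    (F' := fun x s => (fderiv ℝ g (x, s)).comp (ContinuousLinearMap.inl ℝ E ℝ))
    (bound := fun _ => C) (s := ball x₀ δ) (ball_mem_nhds x₀ hδ) ?_ ?_ ?_ ?_ ?_ ?_
  · filter_upwards [ball_mem_nhds x₀ hδ] with x hx
    exact ((hslice x (ball_subset_closedBall hx)).mono uIoc_subset_uIcc).aestronglyMeasurable
      measurableSet_uIoc
  · exact (hslice x₀ (mem_closedBall_self hδ.le)).intervalIntegrable
  · exact (hslice'.mono uIoc_subset_uIcc).aestronglyMeasurable measurableSet_uIoc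
  · refine ae_of_all _ fun s hs x hx => ?_
    exact hC (x, s) ⟨ball_subset_closedBall hx, uIoc_subset_uIcc hs⟩
  · exact intervalIntegrable_const
  · refine ae_of_all _ fun s hs x hx => ?_
    have hp : (x, s) ∈ O := hsub ⟨ball_subset_closedBall hx, uIoc_subset_uIcc hs⟩
    have h2 : DifferentiableAt ℝ g (x, s) :=
      ((hg.differentiableOn (by norm_num)) (x, s) hp).differentiableAt (hO.mem_nhds hp)
    exact HasFDerivAt.comp (f := fun x : E => (x, s)) x h2.hasFDerivAt (hasFDerivAt_prodMk_left x s)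

private lemma Param_succ {O : Set (E × ℝ)} (hO : IsOpen O) {g : E × ℝ → G} {n : ℕ}
    (hg : ContDiffOn ℝ (n + 1) g O) {a b : ℝ} {U : Set E} (hU : IsOpen U)
    (hUO : ∀ x ∈ U, ∀ t ∈ uIcc a b, (x, t) ∈ O)
    (h : ContDiffOn ℝ n (fun x => ∫ t in a..b,
      (fderiv ℝ g (x, t)).comp (ContinuousLinearMap.inl ℝ E ℝ)) U) :
    ContDiffOn ℝ (n + 1) (fun x => ∫ t in a..b, g (x, t)) U := by
  have hg1 : ContDiffOn ℝ 1 g O := hg.of_le (by exact_mod_cast Nat.le_add_left 1 n)
  have hd : ∀ x ∈ U, HasFDerivAt (fun x => ∫ t in a..b, g (x, t))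
      (∫ t in a..b, (fderiv ℝ g (x, t)).comp (ContinuousLinearMap.inl ℝ E ℝ)) x :=
    fun x hx => Param_hasFDerivAt hO hg1 (hUO x hx)
  rw [contDiffOn_succ_iff_fderiv_of_isOpen hU]
  refine ⟨fun x hx => (hd x hx).differentiableAt.differentiableWithinAt, ?_, ?_⟩
  · intro h0
    exact absurd h0 (by simp)
  · exact h.congr fun x hx => (hd x hx).fderiv

end

/-- An integral over a compact interval of a function of class `C²` is of class `C²` in the
parameters. -/
theorem param_contDiffOn {E : Type*} [NormedAddCommGroup E] [NormedSpace ℝ E]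
    [FiniteDimensional ℝ E] {O : Set (E × ℝ)} (hO : IsOpen O) {g : E × ℝ → ℝ}
    (hg : ContDiffOn ℝ 2 g O) {a b : ℝ} {U : Set E} (hU : IsOpen U)
    (hUO : ∀ x ∈ U, ∀ t ∈ uIcc a b, (x, t) ∈ O) :
    ContDiffOn ℝ 2 (fun x => ∫ t in a..b, g (x, t)) U := by
  have e2 : ((1 : ℕ) : WithTop ℕ∞) + 1 = 2 := by norm_num
  have e1 : ((0 : ℕ) : WithTop ℕ∞) + 1 = 1 := by norm_num
  -- the first derivative
  have hg' : ContDiffOn ℝ 1 (fun p => (fderiv ℝ g p).comp (ContinuousLinearMap.inl ℝ E ℝ)) O := by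
    have h1 : ContDiffOn ℝ 1 (fderiv ℝ g) O := hg.fderiv_of_isOpen hO (by norm_num)
    exact h1.clm_comp contDiffOn_const
  have hg'' : ContinuousOn (fun p => (fderiv ℝ (fun p => (fderiv ℝ g p).comp
      (ContinuousLinearMap.inl ℝ E ℝ)) p).comp (ContinuousLinearMap.inl ℝ E ℝ)) O := by
    have h1 := hg'.continuousOn_fderiv_of_isOpen hO (by norm_num)
    exact h1.clm_comp continuousOn_const
  have s0 := Param_zero (G := E →L[ℝ] (E →L[ℝ] ℝ)) hO hg'' hUO
  have s1 := Param_succ (G := E →L[ℝ] ℝ) (n := 0) hO (g := fun p => (fderiv ℝ g p).comp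
    (ContinuousLinearMap.inl ℝ E ℝ)) (by rw [e1]; exact hg') hU hUO
    (by exact_mod_cast contDiffOn_zero.2 s0)
  have s2 := Param_succ (n := 1) hO (g := g) (by rw [e2]; exact hg) hU hUO (by
    rw [e1] at s1
    exact_mod_cast s1)
  rw [e2] at s2
  exact s2

end FBQ
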