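import Pool.Agent.FBQ.Def
import Pool.Agent.FBQ.Param

/-!
# The kernel `kap`
-/

open MeasureTheory Metric Set Filter Topology
open scoped ContDiff

namespace FBQ

theorem isOpen_domK : IsOpen domK := by
  have h1 : IsOpen {p : ℝ × ℝ | 0 < p.1} := isOpen_lt continuous_const continuous_fst
  have h2 : IsOpen {p : ℝ × ℝ | |p.2| < p.1 + 1} :=
    isOpen_lt continuous_snd.abs (continuous_fst.add continuous_const)
  exact h1.inter h2

/-- The function under the square root is positive. -/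
private lemma Kernel_W_pos {ξ s : ℝ} (h : (ξ, s) ∈ domK) (θ : ℝ) :
    0 < 4 * ξ + ((ξ - 1) ^ 2 - s ^ 2) * Real.sin θ ^ 2 := by
  obtain ⟨h1, h2⟩ := h
  simp only at h1 h2
  have h3 : 0 < (ξ + 1) ^ 2 - s ^ 2 := by
    have h4 : s ^ 2 < (ξ + 1) ^ 2 := by
      rw [← sq_abs s]
      exact pow_lt_pow_left₀ h2 (abs_nonneg s) (by norm_num)
    linarith
  have hS0 : 0 ≤ Real.sin θ ^ 2 := sq_nonneg _
  have hS1 : Real.sin θ ^ 2 ≤ 1 := Real.sin_sq_le_one θ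
  have hid : 4 * ξ + ((ξ - 1) ^ 2 - s ^ 2) * Real.sin θ ^ 2
      = 4 * ξ * (1 - Real.sin θ ^ 2) + Real.sin θ ^ 2 * ((ξ + 1) ^ 2 - s ^ 2) := by ring
  rw [hid]
  rcases eq_or_lt_of_le hS0 with h5 | h5
  · rw [← h5]
    linarith
  · have h6 : 0 ≤ 4 * ξ * (1 - Real.sin θ ^ 2) :=
      mul_nonneg (by linarith) (by linarith)
    have h7 : 0 < Real.sin θ ^ 2 * ((ξ + 1) ^ 2 - s ^ 2) := mul_pos h5 h3
    linarith

theorem kap_contDiffOn : ContDiffOn ℝ 2 (fun p : ℝ × ℝ => kap p.1 p.2) domK := by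
  set W : (ℝ × ℝ) × ℝ → ℝ := fun q =>
    4 * q.1.1 + ((q.1.1 - 1) ^ 2 - q.1.2 ^ 2) * Real.sin q.2 ^ 2 with hW
  have hWc : ContDiff ℝ 2 W := by
    have h1 : ContDiff ℝ 2 (fun q : (ℝ × ℝ) × ℝ => q.1.1) := contDiff_fst.comp contDiff_fst
    have h2 : ContDiff ℝ 2 (fun q : (ℝ × ℝ) × ℝ => q.1.2) := contDiff_snd.comp contDiff_fst
    have h3 : ContDiff ℝ 2 (fun q : (ℝ × ℝ) × ℝ => Real.sin q.2) :=
      Real.contDiff_sin.comp contDiff_snd
    exact (contDiff_const.mul h1).add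
      ((((h1.sub contDiff_const).pow 2).sub (h2.pow 2)).mul (h3.pow 2))
  have hO : IsOpen {q : (ℝ × ℝ) × ℝ | 0 < W q} := isOpen_lt continuous_const hWc.continuous
  have hg : ContDiffOn ℝ 2 (fun q : (ℝ × ℝ) × ℝ => (√(W q))⁻¹) {q | 0 < W q} := by
    intro q hq
    have hq' : 0 < W q := hq
    have h1 : ContDiffAt ℝ 2 (fun q => √(W q)) q := hWc.contDiffAt.sqrt hq'.ne'
    exact (h1.inv (Real.sqrt_pos.2 hq').ne').contDiffWithinAt
  have h := param_contDiffOn (E := ℝ × ℝ) hO hg (a := 0) (b := Real.pi / 2) isOpen_domK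
    (fun x hx t _ => Kernel_W_pos (ξ := x.1) (s := x.2) hx t)
  exact contDiffOn_const.mul h

theorem kap_pos {ξ s : ℝ} (h : (ξ, s) ∈ domK) : 0 < kap ξ s := by
  unfold kap
  refine mul_pos (by positivity) ?_
  have hc : Continuous (fun θ : ℝ =>
      (√(4 * ξ + ((ξ - 1) ^ 2 - s ^ 2) * Real.sin θ ^ 2))⁻¹) := by
    refine Continuous.inv₀ (by fun_prop) (fun θ => ?_)
    exact (Real.sqrt_pos.2 (Kernel_W_pos h θ)).ne'
  refine intervalIntegral.intervalIntegral_pos_of_pos_on (hc.intervalIntegrable _ _) ?_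
    (by positivity)
  intro θ _
  exact inv_pos.2 (Real.sqrt_pos.2 (Kernel_W_pos h θ))

theorem kap_neg (ξ s : ℝ) : kap ξ (-s) = kap ξ s := by
  unfold kap
  simp only [neg_sq]

theorem kap_diag {ξ : ℝ} (hξ : 0 < ξ) : kap ξ (ξ - 1) = (2 * √ξ)⁻¹ := by
  unfold kap
  have h1 : ∀ θ : ℝ, (√(4 * ξ + ((ξ - 1) ^ 2 - (ξ - 1) ^ 2) * Real.sin θ ^ 2))⁻¹
      = (2 * √ξ)⁻¹ := by
    intro θ
    have h2 : 4 * ξ + ((ξ - 1) ^ 2 - (ξ - 1) ^ 2) * Real.sin θ ^ 2 = 2 ^ 2 * ξ := by ring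
    rw [h2, Real.sqrt_mul (by norm_num), Real.sqrt_sq (by norm_num)]
  simp only [h1]
  rw [intervalIntegral.integral_const, smul_eq_mul]
  have hπ : Real.pi ≠ 0 := Real.pi_ne_zero
  field_simp
  ring

end FBQ
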