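import Pool.Agent.FBQ.Kernel

/-!
# The differential equation of the kernel
-/

open MeasureTheory Metric Set Filter Topology
open scoped ContDiff

namespace FBQ

/-! ### Differentiation under the integral, in one variable -/

private lemma KernelPde_d1_eq {f : ℝ × ℝ → ℝ} {p : ℝ × ℝ} (hf : DifferentiableAt ℝ f p) :
    HasDerivAt (fun x => f (x, p.2)) (fderiv ℝ f p (1, 0)) p.1 := by
  have h1 : HasDerivAt (fun x : ℝ => (x, p.2)) ((1 : ℝ), (0 : ℝ)) p.1 :=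
    (hasDerivAt_id _).prodMk (hasDerivAt_const _ _)
  have h2 : HasFDerivAt f (fderiv ℝ f p) ((fun x : ℝ => (x, p.2)) p.1) := by
    simpa using hf.hasFDerivAt
  exact h2.comp_hasDerivAt p.1 h1

private lemma KernelPde_d1_contDiffOn {f : ℝ × ℝ → ℝ} {O : Set (ℝ × ℝ)} (hO : IsOpen O)
    {n m : ℕ∞} (hf : ContDiffOn ℝ n f O) (hmn : (m : WithTop ℕ∞) + 1 ≤ n) :
    ContDiffOn ℝ m (fun p => deriv (fun x => f (x, p.2)) p.1) O := by
  have h1 : ContDiffOn ℝ m (fun p => fderiv ℝ f p (1, 0)) O :=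
    (hf.fderiv_of_isOpen hO hmn).clm_apply contDiffOn_const
  refine h1.congr fun p hp => ?_
  have hne : (n : WithTop ℕ∞) ≠ 0 := by
    rintro h0
    rw [h0] at hmn
    simp at hmn
  have h2 : DifferentiableAt ℝ f p :=
    ((hf.differentiableOn hne) p hp).differentiableAt (hO.mem_nhds hp)
  exact (KernelPde_d1_eq h2).deriv

private lemma KernelPde_param {f : ℝ × ℝ → ℝ} {O : Set (ℝ × ℝ)} (hO : IsOpen O)
    (hf : ContDiffOn ℝ 1 f O) {x₀ a b : ℝ} (h : ∀ s ∈ uIcc a b, (x₀, s) ∈ O) :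
    IntervalIntegrable (fun s => deriv (fun x => f (x, s)) x₀) volume a b ∧
    HasDerivAt (fun x => ∫ s in a..b, f (x, s))
      (∫ s in a..b, deriv (fun x => f (x, s)) x₀) x₀ := by
  obtain ⟨u, v, hu, hv, hxu, hbv, huv⟩ := generalized_tube_lemma (s := {x₀}) (t := uIcc a b)
    isCompact_singleton isCompact_uIcc hO (by
      rintro ⟨x, s⟩ ⟨hx, hs⟩
      rw [mem_singleton_iff] at hx
      simp only at hx hs
      rw [hx]
      exact h s hs)
  obtain ⟨δ, hδ, hδu⟩ := Metric.nhds_basis_closedBall.mem_iff.1 (hu.mem_nhds (hxu rfl))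
  have hsub : closedBall x₀ δ ×ˢ uIcc a b ⊆ O := (prod_mono hδu hbv).trans huv
  have hd : ContDiffOn ℝ 0 (fun p : ℝ × ℝ => deriv (fun x => f (x, p.2)) p.1) O := by
    have := KernelPde_d1_contDiffOn (n := 1) (m := 0) hO hf (by simp)
    exact this
  have hdc : ContinuousOn (fun p : ℝ × ℝ => deriv (fun x => f (x, p.2)) p.1) O := hd.continuousOn
  obtain ⟨C, hC⟩ := ((isCompact_closedBall x₀ δ).prod isCompact_uIcc).exists_bound_of_continuousOn
    (hdc.mono hsub)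
  have hslice : ∀ x ∈ closedBall x₀ δ, ContinuousOn (fun s => f (x, s)) (uIcc a b) := by
    intro x hx
    exact hf.continuousOn.comp (continuous_const.prodMk continuous_id).continuousOn
      (fun s hs => hsub ⟨hx, hs⟩)
  have hslice' : ContinuousOn (fun s => deriv (fun x => f (x, s)) x₀) (uIcc a b) := by
    exact hdc.comp (f := fun s : ℝ => ((x₀, s) : ℝ × ℝ))
      (continuous_const.prodMk continuous_id).continuousOn (fun s hs => h s hs)
  refine intervalIntegral.hasDerivAt_integral_of_dominated_loc_of_deriv_le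
    (F := fun x s => f (x, s)) (F' := fun x s => deriv (fun x => f (x, s)) x)
    (bound := fun _ => C) (s := ball x₀ δ) (ball_mem_nhds x₀ hδ) ?_ ?_ ?_ ?_ ?_ ?_
  · filter_upwards [ball_mem_nhds x₀ hδ] with x hx
    exact ((hslice x (ball_subset_closedBall hx)).mono uIoc_subset_uIcc).aestronglyMeasurable
      measurableSet_uIoc
  · exact (hslice x₀ (mem_closedBall_self hδ.le)).intervalIntegrable
  · exact (hslice'.mono uIoc_subset_uIcc).aestronglyMeasurable measurableSet_uIoc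
  · refine ae_of_all _ fun s hs x hx => ?_
    exact hC (x, s) ⟨ball_subset_closedBall hx, uIoc_subset_uIcc hs⟩
  · exact intervalIntegrable_const
  · refine ae_of_all _ fun s hs x hx => ?_
    have hp : (x, s) ∈ O := hsub ⟨ball_subset_closedBall hx, uIoc_subset_uIcc hs⟩
    have h2 : DifferentiableAt ℝ f (x, s) :=
      ((hf.differentiableOn (by norm_num)) (x, s) hp).differentiableAt (hO.mem_nhds hp)
    have h3 := KernelPde_d1_eq h2
    rw [h3.deriv.symm] at h3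
    exact h3

private lemma KernelPde_param2 {f : ℝ × ℝ → ℝ} {O : Set (ℝ × ℝ)} (hO : IsOpen O)
    (hf : ContDiffOn ℝ 2 f O) {x₀ a b : ℝ} (h : ∀ s ∈ uIcc a b, (x₀, s) ∈ O) :
    IntervalIntegrable (fun s => deriv (deriv fun x => f (x, s)) x₀) volume a b ∧
    deriv (deriv fun x => ∫ s in a..b, f (x, s)) x₀ =
      ∫ s in a..b, deriv (deriv fun x => f (x, s)) x₀ := by
  obtain ⟨u, v, hu, hv, hxu, hbv, huv⟩ := generalized_tube_lemma (s := {x₀}) (t := uIcc a b)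
    isCompact_singleton isCompact_uIcc hO (by
      rintro ⟨x, s⟩ ⟨hx, hs⟩
      rw [mem_singleton_iff] at hx
      simp only at hx hs
      rw [hx]
      exact h s hs)
  have hf1 : ContDiffOn ℝ 1 f O := hf.of_le (by norm_num)
  have h1 : deriv (fun x => ∫ s in a..b, f (x, s)) =ᶠ[𝓝 x₀]
      fun x => ∫ s in a..b, (fun p : ℝ × ℝ => deriv (fun x => f (x, p.2)) p.1) (x, s) := by
    filter_upwards [hu.mem_nhds (hxu rfl)] with x hx
    exact (KernelPde_param hO hf1 (fun s hs => huv ⟨hx, hbv hs⟩)).2.deriv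
  have hd : ContDiffOn ℝ 1 (fun p : ℝ × ℝ => deriv (fun x => f (x, p.2)) p.1) O := by
    have := KernelPde_d1_contDiffOn (n := 2) (m := 1) hO hf (by norm_num)
    exact this
  refine ⟨(KernelPde_param hO hd h).1, ?_⟩
  rw [h1.deriv_eq]
  exact (KernelPde_param hO hd h).2.deriv

/-- The function under the square root is positive. -/
private lemma KernelPde_W_pos {ξ s : ℝ} (h : (ξ, s) ∈ domK) (θ : ℝ) :
    0 < 4 * ξ + ((ξ - 1) ^ 2 - s ^ 2) * Real.sin θ ^ 2 := by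
  obtain ⟨h1, h2⟩ := h
  simp only at h1 h2
  have h3 : 0 < (ξ + 1) ^ 2 - s ^ 2 := by
    have h4 : s ^ 2 < (ξ + 1) ^ 2 := by
      rw [← sq_abs s]
      exact pow_lt_pow_left₀ h2 (abs_nonneg s) (by norm_num)
    linarith
  have hS0 : 0 ≤ Real.sin θ ^ 2 := sq_nonneg _
  have hS1 : Real.sin θ ^ 2 ≤ 1 := Real.sin_sq_le_one θ
  have hid : 4 * ξ + ((ξ - 1) ^ 2 - s ^ 2) * Real.sin θ ^ 2
      = 4 * ξ * (1 - Real.sin θ ^ 2) + Real.sin θ ^ 2 * ((ξ + 1) ^ 2 - s ^ 2) := by ring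
  rw [hid]
  rcases eq_or_lt_of_le hS0 with h5 | h5
  · rw [← h5]
    linarith
  · have h6 : 0 ≤ 4 * ξ * (1 - Real.sin θ ^ 2) :=
      mul_nonneg (by linarith) (by linarith)
    have h7 : 0 < Real.sin θ ^ 2 * ((ξ + 1) ^ 2 - s ^ 2) := mul_pos h5 h3
    linarith

/-- The derivative of `g ^ (-1/2)`. -/
private lemma KernelPde_hd {g : ℝ → ℝ} {g' x : ℝ} (hg : HasDerivAt g g' x) (h0 : 0 < g x) :
    HasDerivAt (fun y => (√(g y))⁻¹) (-(1 / 2) * g' * (√(g x))⁻¹ ^ 3) x := by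
  have h1 : √(g x) ≠ 0 := (Real.sqrt_pos.2 h0).ne'
  have h2 : HasDerivAt (fun y => (√(g y))⁻¹) _ x := (hg.sqrt h0.ne').inv h1
  refine h2.congr_deriv ?_
  field_simp

/-- The second derivative of `g ^ (-1/2)`. -/
private lemma KernelPde_hd2 {g : ℝ → ℝ} {g' : ℝ → ℝ} {g'' x : ℝ}
    (hg : ∀ y, HasDerivAt g (g' y) y) (hg' : HasDerivAt g' g'' x) (h0 : 0 < g x) :
    deriv (deriv fun y => (√(g y))⁻¹) x =
      3 / 4 * g' x ^ 2 * (√(g x))⁻¹ ^ 5 - 1 / 2 * g'' * (√(g x))⁻¹ ^ 3 := by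
  have h1 : ∀ᶠ y in 𝓝 x, 0 < g y := (hg x).continuousAt.eventually (lt_mem_nhds h0)
  have h2 : deriv (fun y => (√(g y))⁻¹) =ᶠ[𝓝 x] fun y => -(1 / 2) * g' y * (√(g y))⁻¹ ^ 3 := by
    filter_upwards [h1] with y hy
    exact (KernelPde_hd (hg y) hy).deriv
  rw [h2.deriv_eq]
  have h3 : HasDerivAt (fun y => -(1 / 2) * g' y * (√(g y))⁻¹ ^ 3) _ x :=
    (hg'.const_mul (-(1 / 2))).mul ((KernelPde_hd (hg x) h0).pow 3)
  rw [h3.deriv]
  push_cast
  ring

/-- `κ_ξξ + κ_ξ / ξ = κ_ss`. -/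
theorem kap_pde {ξ s : ℝ} (h : (ξ, s) ∈ domK) :
    deriv (deriv fun x => kap x s) ξ + deriv (fun x => kap x s) ξ / ξ =
      deriv (deriv (kap ξ)) s := by
  have hξ : 0 < ξ := h.1
  have hξ0 : ξ ≠ 0 := hξ.ne'
  -- the two families of integrands
  set W1 : ℝ × ℝ → ℝ := fun q => 4 * q.1 + ((q.1 - 1) ^ 2 - s ^ 2) * Real.sin q.2 ^ 2 with hW1
  set W2 : ℝ × ℝ → ℝ := fun q => 4 * ξ + ((ξ - 1) ^ 2 - q.1 ^ 2) * Real.sin q.2 ^ 2 with hW2
  have hsin : ContDiff ℝ 2 (fun q : ℝ × ℝ => Real.sin q.2) := Real.contDiff_sin.comp contDiff_snd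
  have hfst : ContDiff ℝ 2 (fun q : ℝ × ℝ => q.1) := contDiff_fst
  have hc1 : ContDiff ℝ 2 W1 :=
    (contDiff_const.mul hfst).add
      ((((hfst.sub contDiff_const).pow 2).sub contDiff_const).mul (hsin.pow 2))
  have hc2 : ContDiff ℝ 2 W2 :=
    contDiff_const.add ((contDiff_const.sub (hfst.pow 2)).mul (hsin.pow 2))
  have hO1 : IsOpen {q | 0 < W1 q} := isOpen_lt continuous_const hc1.continuous
  have hO2 : IsOpen {q | 0 < W2 q} := isOpen_lt continuous_const hc2.continuous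
  have hg1 : ContDiffOn ℝ 2 (fun q => (√(W1 q))⁻¹) {q | 0 < W1 q} := by
    intro q hq
    have hq' : 0 < W1 q := hq
    have h1 : ContDiffAt ℝ 2 (fun q => √(W1 q)) q := hc1.contDiffAt.sqrt hq'.ne'
    exact (h1.inv (Real.sqrt_pos.2 hq').ne').contDiffWithinAt
  have hg2 : ContDiffOn ℝ 2 (fun q => (√(W2 q))⁻¹) {q | 0 < W2 q} := by
    intro q hq
    have hq' : 0 < W2 q := hq
    have h1 : ContDiffAt ℝ 2 (fun q => √(W2 q)) q := hc2.contDiffAt.sqrt hq'.ne'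
    exact (h1.inv (Real.sqrt_pos.2 hq').ne').contDiffWithinAt
  have hm1 : ∀ θ ∈ uIcc (0 : ℝ) (Real.pi / 2), (ξ, θ) ∈ {q | 0 < W1 q} :=
    fun θ _ => KernelPde_W_pos h θ
  have hm2 : ∀ θ ∈ uIcc (0 : ℝ) (Real.pi / 2), (s, θ) ∈ {q | 0 < W2 q} :=
    fun θ _ => KernelPde_W_pos h θ
  obtain ⟨I1, e1⟩ := KernelPde_param hO1 (hg1.of_le (by norm_num)) hm1
  obtain ⟨I2, e2⟩ := KernelPde_param2 hO1 hg1 hm1
  obtain ⟨I3, e3⟩ := KernelPde_param2 hO2 hg2 hm2
  -- the kernel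
  have k1 : (fun x => kap x s) = fun x => (2 / Real.pi) *
      ∫ θ in (0 : ℝ)..(Real.pi / 2), (√(W1 (x, θ)))⁻¹ := rfl
  have k2 : kap ξ = fun t => (2 / Real.pi) *
      ∫ θ in (0 : ℝ)..(Real.pi / 2), (√(W2 (t, θ)))⁻¹ := rfl
  have d1 : deriv (fun x => kap x s) = fun x => (2 / Real.pi) *
      deriv (fun x => ∫ θ in (0 : ℝ)..(Real.pi / 2), (√(W1 (x, θ)))⁻¹) x := by
    ext x
    rw [k1, deriv_const_mul_field]
  have d2 : deriv (kap ξ) = fun t => (2 / Real.pi) *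
      deriv (fun t => ∫ θ in (0 : ℝ)..(Real.pi / 2), (√(W2 (t, θ)))⁻¹) t := by
    ext x
    rw [k2, deriv_const_mul_field]
  have e1' := e1.deriv
  rw [d1, d2, deriv_const_mul_field, deriv_const_mul_field]
  simp only
  rw [e1', e2, e3, mul_div_assoc, ← mul_add]
  congr 1
  rw [← sub_eq_zero, ← intervalIntegral.integral_div,
    ← intervalIntegral.integral_add I2 (I1.div_const ξ),
    ← intervalIntegral.integral_sub (I2.add (I1.div_const ξ)) I3]
  -- the integrand is a derivative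
  have hθ : ∀ θ ∈ uIcc (0 : ℝ) (Real.pi / 2),
      HasDerivAt (fun θ => Real.sin θ * Real.cos θ *
          (√(4 * ξ + ((ξ - 1) ^ 2 - s ^ 2) * Real.sin θ ^ 2))⁻¹ ^ 3 / ξ)
        (deriv (deriv fun x => (√(W1 (x, θ)))⁻¹) ξ + deriv (fun x => (√(W1 (x, θ)))⁻¹) ξ / ξ -
          deriv (deriv fun t => (√(W2 (t, θ)))⁻¹) s) θ := by
    intro θ _
    have hW := KernelPde_W_pos h θ
    have a1 : ∀ x, HasDerivAt (fun x => W1 (x, θ)) (4 + 2 * (x - 1) * Real.sin θ ^ 2) x := by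
      intro x
      have h1 : HasDerivAt (fun x : ℝ => 4 * x + ((x - 1) ^ 2 - s ^ 2) * Real.sin θ ^ 2) _ x :=
        ((hasDerivAt_id x).const_mul 4).add
          (((((hasDerivAt_id x).sub_const 1).pow 2).sub_const (s ^ 2)).mul_const
            (Real.sin θ ^ 2))
      refine h1.congr_deriv ?_
      simp
    have a2 : HasDerivAt (fun x => 4 + 2 * (x - 1) * Real.sin θ ^ 2) (2 * Real.sin θ ^ 2) ξ := by
      have h1 : HasDerivAt (fun x : ℝ => 4 + 2 * (x - 1) * Real.sin θ ^ 2) _ ξ :=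
        ((((hasDerivAt_id ξ).sub_const 1).const_mul 2).mul_const (Real.sin θ ^ 2)).const_add 4
      refine h1.congr_deriv ?_
      simp
    have b1 : ∀ t, HasDerivAt (fun t => W2 (t, θ)) (-2 * t * Real.sin θ ^ 2) t := by
      intro t
      have h1 : HasDerivAt (fun t : ℝ => 4 * ξ + ((ξ - 1) ^ 2 - t ^ 2) * Real.sin θ ^ 2) _ t :=
        ((((hasDerivAt_id t).pow 2).const_sub ((ξ - 1) ^ 2)).mul_const
          (Real.sin θ ^ 2)).const_add (4 * ξ)
      refine h1.congr_deriv ?_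
      simp
    have b2 : HasDerivAt (fun t => -2 * t * Real.sin θ ^ 2) (-2 * Real.sin θ ^ 2) s := by
      have h1 : HasDerivAt (fun t : ℝ => -2 * t * Real.sin θ ^ 2) _ s :=
        ((hasDerivAt_id s).const_mul (-2)).mul_const (Real.sin θ ^ 2)
      refine h1.congr_deriv ?_
      simp
    have c1 := (KernelPde_hd (a1 ξ) (show 0 < W1 (ξ, θ) from hW)).deriv
    have c2 := KernelPde_hd2 a1 a2 (show 0 < W1 (ξ, θ) from hW)
    have c3 := KernelPde_hd2 b1 b2 (show 0 < W2 (s, θ) from hW)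
    have hw1 : W1 (ξ, θ) = 4 * ξ + ((ξ - 1) ^ 2 - s ^ 2) * Real.sin θ ^ 2 := rfl
    have hw2 : W2 (s, θ) = 4 * ξ + ((ξ - 1) ^ 2 - s ^ 2) * Real.sin θ ^ 2 := rfl
    rw [c1, c2, c3, hw1, hw2]
    have t1 : HasDerivAt (fun θ => 4 * ξ + ((ξ - 1) ^ 2 - s ^ 2) * Real.sin θ ^ 2)
        (((ξ - 1) ^ 2 - s ^ 2) * (2 * Real.sin θ * Real.cos θ)) θ := by
      have h1 : HasDerivAt (fun θ => 4 * ξ + ((ξ - 1) ^ 2 - s ^ 2) * Real.sin θ ^ 2) _ θ :=
        (((Real.hasDerivAt_sin θ).pow 2).const_mul ((ξ - 1) ^ 2 - s ^ 2)).const_add (4 * ξ)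
      refine h1.congr_deriv ?_
      simp
    have t2 : HasDerivAt (fun θ => Real.sin θ * Real.cos θ *
          (√(4 * ξ + ((ξ - 1) ^ 2 - s ^ 2) * Real.sin θ ^ 2))⁻¹ ^ 3 / ξ) _ θ :=
      (((Real.hasDerivAt_sin θ).mul (Real.hasDerivAt_cos θ)).mul
        ((KernelPde_hd t1 hW).pow 3)).div_const ξ
    refine t2.congr_deriv ?_
    push_cast
    simp only [Pi.pow_apply, Pi.mul_apply]
    have hww : (√(4 * ξ + ((ξ - 1) ^ 2 - s ^ 2) * Real.sin θ ^ 2))⁻¹ ^ 2 *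
        (4 * ξ + ((ξ - 1) ^ 2 - s ^ 2) * Real.sin θ ^ 2) = 1 := by
      rw [inv_pow, Real.sq_sqrt hW.le]
      exact inv_mul_cancel₀ hW.ne'
    have hcs : Real.cos θ ^ 2 = 1 - Real.sin θ ^ 2 := by
      have := Real.sin_sq_add_cos_sq θ
      linarith
    generalize (√(4 * ξ + ((ξ - 1) ^ 2 - s ^ 2) * Real.sin θ ^ 2))⁻¹ = w at hww ⊢
    generalize Real.sin θ = S at hww hcs ⊢
    generalize Real.cos θ = C at hcs ⊢
    have hinv : ξ⁻¹ * ξ = 1 := inv_mul_cancel₀ hξ0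
    rw [div_eq_iff hξ0]
    linear_combination (-(3 - 3 * S ^ 2 + 3 * ξ * S ^ 2) * w ^ 3) * hww +
      (w ^ 3 - 3 * S ^ 2 * ((ξ - 1) ^ 2 - s ^ 2) * w ^ 5) * hcs +
      (1 / 2 * (4 + 2 * (ξ - 1) * S ^ 2) * w ^ 3) * hinv
  rw [intervalIntegral.integral_eq_sub_of_hasDerivAt hθ ((I2.add (I1.div_const ξ)).sub I3)]
  simp

end FBQ
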