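import Pool.Agent.FBQ.Def

/-!
# The Laplacian in parabolic coordinates
-/

open MeasureTheory Metric Set Filter Topology InnerProductSpace Laplacian
open scoped ContDiff

namespace FBQ

theorem norm_pos_of_aa {e x : E3} (he : ‖e‖ = 1) (ha : 0 < aa e x) : 0 < ‖x‖ := by
  rcases eq_or_ne x 0 with rfl | hx
  · simp [aa] at ha
  · exact norm_pos_iff.2 hx

theorem aa_contDiffAt {e x : E3} (hx : x ≠ 0) : ContDiffAt ℝ ∞ (aa e) x :=
  (contDiffAt_norm ℝ hx).add (contDiffAt_id.inner ℝ contDiffAt_const)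

theorem bb_contDiffAt {e x : E3} (hx : x ≠ 0) : ContDiffAt ℝ ∞ (bb e) x :=
  (contDiffAt_norm ℝ hx).sub (contDiffAt_id.inner ℝ contDiffAt_const)

private theorem lap_norm_hasFDerivAt {x : E3} (hx : x ≠ 0) :
    HasFDerivAt (fun y : E3 => ‖y‖) (‖x‖⁻¹ • innerSL ℝ x) x := by
  have hn : ‖x‖ ≠ 0 := norm_ne_zero_iff.2 hx
  have h1 := (hasStrictFDerivAt_norm_sq x).hasFDerivAt
  have h2 := h1.sqrt (pow_ne_zero 2 hn)
  have h3 : (fun y : E3 => √(‖y‖ ^ 2)) = fun y => ‖y‖ := by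
    funext y; exact Real.sqrt_sq (norm_nonneg y)
  rw [h3, Real.sqrt_sq (norm_nonneg x)] at h2
  have h4 : (1 / (2 * ‖x‖)) • (2 • innerSL ℝ x : E3 →L[ℝ] ℝ) = ‖x‖⁻¹ • innerSL ℝ x := by
    rw [two_nsmul, ← two_smul ℝ (innerSL ℝ x), smul_smul]
    congr 1
    field_simp
  rw [h4] at h2
  exact h2

private theorem lap_aa_hasFDerivAt {e x : E3} (hx : x ≠ 0) :
    HasFDerivAt (aa e) (‖x‖⁻¹ • innerSL ℝ x + innerSL ℝ e) x := by
  have h1 := lap_norm_hasFDerivAt hx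
  have h2 : HasFDerivAt (fun y : E3 => inner ℝ y e) (innerSL ℝ e) x := by
    have h := (innerSL ℝ e).hasFDerivAt (x := x)
    refine h.congr_of_eventuallyEq (Eventually.of_forall fun y => ?_)
    simp [real_inner_comm]
  exact h1.add h2

/-- The differential of `a`. -/
theorem aa_fderiv {e x : E3} (hx : x ≠ 0) (v : E3) :
    fderiv ℝ (aa e) x v = inner ℝ x v / ‖x‖ + inner ℝ e v := by
  rw [(lap_aa_hasFDerivAt hx).fderiv]
  simp only [add_apply, smul_apply, innerSL_apply_apply,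
    smul_eq_mul]
  ring

theorem aa_fderiv_norm {e x : E3} (he : ‖e‖ = 1) (hx : x ≠ 0) :
    ‖fderiv ℝ (aa e) x‖ ^ 2 = 2 * aa e x / ‖x‖ := by
  have hn : ‖x‖ ≠ 0 := norm_ne_zero_iff.2 hx
  have h1 : ‖x‖⁻¹ • innerSL ℝ x + innerSL ℝ e = innerSL ℝ (‖x‖⁻¹ • x + e) := by
    ext v
    simp
  rw [(lap_aa_hasFDerivAt hx).fderiv, h1, innerSL_apply_norm, norm_add_sq_real, norm_smul,
    real_inner_smul_left, he, norm_inv, norm_norm, aa]
  field_simp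
  ring

/-- The second differential of `a`. -/
theorem aa_fderiv_two {e x : E3} (hx : x ≠ 0) (v w : E3) :
    fderiv ℝ (fderiv ℝ (aa e)) x v w =
      inner ℝ v w / ‖x‖ - inner ℝ x v * inner ℝ x w / ‖x‖ ^ 3 := by
  have hn : ‖x‖ ≠ 0 := norm_ne_zero_iff.2 hx
  have h1 : fderiv ℝ (aa e) =ᶠ[𝓝 x] fun y => ‖y‖⁻¹ • innerSL ℝ y + innerSL ℝ e := by
    filter_upwards [isOpen_ne.mem_nhds hx] with y hy
    exact (lap_aa_hasFDerivAt hy).fderiv
  have h2 : HasFDerivAt (fun y : E3 => ‖y‖⁻¹) (-(‖x‖ ^ 2)⁻¹ • (‖x‖⁻¹ • innerSL ℝ x)) x :=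
    (hasDerivAt_inv hn).comp_hasFDerivAt x (lap_norm_hasFDerivAt hx)
  have h3 : HasFDerivAt (fun y : E3 => innerSL ℝ y) (innerSL ℝ) x :=
    (innerSL ℝ).hasFDerivAt
  have h4 := (h2.smul h3).add_const (innerSL ℝ e)
  rw [h1.fderiv_eq]
  refine (congrArg (fun L : E3 →L[ℝ] E3 →L[ℝ] ℝ => L v w) h4.fderiv).trans ?_
  change ‖x‖⁻¹ * inner ℝ v w + (-(‖x‖ ^ 2)⁻¹ * (‖x‖⁻¹ * inner ℝ x v)) * inner ℝ x w = _
  field_simp
  ring

end FBQ
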