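import Pool.Agent.FBQ.Lap

/-!
# The Laplacian of a function of the parabolic coordinates
-/

open MeasureTheory Metric Set Filter Topology InnerProductSpace Laplacian
open scoped ContDiff

namespace FBQ

/-- First and second derivatives along a line. -/
private theorem lc_line {F : ℝ × ℝ → ℝ} {L : ℝ → ℝ × ℝ} {u : ℝ × ℝ} {t₀ : ℝ}
    (hL : ∀ t, HasDerivAt L u t) (hF : ContDiffAt ℝ 2 F (L t₀)) :
    deriv (fun t => F (L t)) t₀ = fderiv ℝ F (L t₀) u ∧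
      deriv (deriv fun t => F (L t)) t₀ = fderiv ℝ (fderiv ℝ F) (L t₀) u u := by
  have h1 : ∀ᶠ p in 𝓝 (L t₀), DifferentiableAt ℝ F p := by
    filter_upwards [hF.eventually (by simp)] with p hp
    exact hp.differentiableAt (by norm_num)
  have hLc : ContinuousAt L t₀ := (hL t₀).continuousAt
  have h2 : ∀ᶠ t in 𝓝 t₀, deriv (fun t => F (L t)) t = fderiv ℝ F (L t) u := by
    filter_upwards [hLc.eventually h1] with t ht
    exact (ht.hasFDerivAt.comp_hasDerivAt t (hL t)).deriv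
  refine ⟨h2.self_of_nhds, ?_⟩
  rw [Filter.EventuallyEq.deriv_eq h2]
  have h3 : HasFDerivAt (fderiv ℝ F) (fderiv ℝ (fderiv ℝ F) (L t₀)) (L t₀) :=
    ((hF.fderiv_right (m := 1) (by norm_num)).differentiableAt (by norm_num)).hasFDerivAt
  have h4 : HasDerivAt (fun t => fderiv ℝ F (L t)) (fderiv ℝ (fderiv ℝ F) (L t₀) u) t₀ :=
    h3.comp_hasDerivAt t₀ (hL t₀)
  have h5 := h4.clm_apply (hasDerivAt_const t₀ u)
  simpa using h5.deriv

/-- Second directional derivative of a composition with a pair of functions. -/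
private theorem lc_comp {F : ℝ × ℝ → ℝ} {α β : E3 → ℝ} {x : E3} (hα : ContDiffAt ℝ 2 α x)
    (hβ : ContDiffAt ℝ 2 β x) (hF : ContDiffAt ℝ 2 F (α x, β x)) (v : E3) :
    fderiv ℝ (fun y => fderiv ℝ (fun y => F (α y, β y)) y v) x v =
      fderiv ℝ (fderiv ℝ F) (α x, β x) (fderiv ℝ α x v, fderiv ℝ β x v)
        (fderiv ℝ α x v, fderiv ℝ β x v) +
      fderiv ℝ F (α x, β x) (fderiv ℝ (fderiv ℝ α) x v v, fderiv ℝ (fderiv ℝ β) x v v) := by
  have hG : ContinuousAt (fun y => (α y, β y)) x := hα.continuousAt.prodMk hβ.continuousAt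
  have h1 : ∀ᶠ p in 𝓝 (α x, β x), DifferentiableAt ℝ F p := by
    filter_upwards [hF.eventually (by simp)] with p hp
    exact hp.differentiableAt (by norm_num)
  have h2 : ∀ᶠ y in 𝓝 x, fderiv ℝ (fun y => F (α y, β y)) y v =
      fderiv ℝ F (α y, β y) (fderiv ℝ α y v, fderiv ℝ β y v) := by
    filter_upwards [hG.eventually h1, hα.eventually (by simp), hβ.eventually (by simp)]
      with y h1 h2 h3
    have hh : HasFDerivAt (fun y => (α y, β y)) ((fderiv ℝ α y).prod (fderiv ℝ β y)) y :=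
      (h2.differentiableAt (by norm_num)).hasFDerivAt.prodMk
        (h3.differentiableAt (by norm_num)).hasFDerivAt
    have hc : HasFDerivAt (fun y => F (α y, β y))
        ((fderiv ℝ F (α y, β y)).comp ((fderiv ℝ α y).prod (fderiv ℝ β y))) y :=
      h1.hasFDerivAt.comp y hh
    rw [hc.fderiv]
    rfl
  rw [Filter.EventuallyEq.fderiv_eq h2]
  have h3 : HasFDerivAt (fderiv ℝ F) (fderiv ℝ (fderiv ℝ F) (α x, β x)) (α x, β x) :=
    ((hF.fderiv_right (m := 1) (by norm_num)).differentiableAt (by norm_num)).hasFDerivAt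
  have hGd : HasFDerivAt (fun y => (α y, β y)) ((fderiv ℝ α x).prod (fderiv ℝ β x)) x :=
    (hα.differentiableAt (by norm_num)).hasFDerivAt.prodMk
      (hβ.differentiableAt (by norm_num)).hasFDerivAt
  have h4 := h3.comp x hGd
  have hα2 : HasFDerivAt (fderiv ℝ α) (fderiv ℝ (fderiv ℝ α) x) x :=
    ((hα.fderiv_right (m := 1) (by norm_num)).differentiableAt (by norm_num)).hasFDerivAt
  have hβ2 : HasFDerivAt (fderiv ℝ β) (fderiv ℝ (fderiv ℝ β) x) x :=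
    ((hβ.fderiv_right (m := 1) (by norm_num)).differentiableAt (by norm_num)).hasFDerivAt
  have h5 : HasFDerivAt (fun y => (fderiv ℝ α y v, fderiv ℝ β y v))
      (((fderiv ℝ (fderiv ℝ α) x).flip v).prod ((fderiv ℝ (fderiv ℝ β) x).flip v)) x := by
    refine HasFDerivAt.prodMk ?_ ?_
    · refine (hα2.clm_apply (hasFDerivAt_const v x)).congr_fderiv ?_
      ext w; simp
    · refine (hβ2.clm_apply (hasFDerivAt_const v x)).congr_fderiv ?_
      ext w; simp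
  have h6 := h4.clm_apply h5
  rw [HasFDerivAt.fderiv (f := fun y => fderiv ℝ F (α y, β y) (fderiv ℝ α y v, fderiv ℝ β y v)) h6]
  simp [add_comm]

private theorem lc_bb (e : E3) : bb e = aa (-e) := by
  funext y
  simp [aa, bb, inner_neg_right, sub_eq_add_neg]

private theorem lc_basis (e : E3) (i : Fin 3) : inner ℝ e (FB75.ei i) = e i := by
  simp [FB75.ei, EuclideanSpace.basisFun_apply, EuclideanSpace.inner_single_right]

/-- The Laplacian of a function of the parabolic coordinates. -/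
theorem lap_comp {e x : E3} (he : ‖e‖ = 1) (ha : 0 < aa e x) {F : ℝ × ℝ → ℝ}
    (hF : ContDiffAt ℝ 2 F (√(aa e x), bb e x)) :
    Δ (fun y => F (√(aa e y), bb e y)) x = (1 / (2 * ‖x‖)) *
      (deriv (deriv fun t => F (t, bb e x)) √(aa e x) +
        deriv (fun t => F (t, bb e x)) √(aa e x) / √(aa e x) +
        4 * (bb e x * deriv (deriv fun t => F (√(aa e x), t)) (bb e x) +
          deriv (fun t => F (√(aa e x), t)) (bb e x))) := by
  have hr : 0 < ‖x‖ := norm_pos_of_aa he ha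
  have hx : x ≠ 0 := norm_pos_iff.1 hr
  have hA : ContDiffAt ℝ 2 (aa e) x := (aa_contDiffAt hx).of_le (WithTop.coe_le_coe.2 (le_top : (2 : ℕ∞) ≤ ⊤))
  have hB : ContDiffAt ℝ 2 (bb e) x := (bb_contDiffAt hx).of_le (WithTop.coe_le_coe.2 (le_top : (2 : ℕ∞) ≤ ⊤))
  have hS : ContDiffAt ℝ 2 (fun y => √(aa e y)) x := hA.sqrt ha.ne'
  have hcomp : ContDiffAt ℝ 2 (fun y => F (√(aa e y), bb e y)) x :=
    hF.comp x (hS.prodMk hB)
  set s : ℝ := √(aa e x) with hs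
  have hs0 : 0 < s := Real.sqrt_pos.2 ha
  have hss : s * s = aa e x := Real.mul_self_sqrt ha.le
  -- lines
  obtain ⟨l1, l2⟩ := lc_line (F := F) (L := fun t => (t, bb e x)) (u := ((1 : ℝ), (0 : ℝ)))
    (t₀ := s) (fun t => (hasDerivAt_id t).prodMk (hasDerivAt_const t _)) hF
  obtain ⟨l3, l4⟩ := lc_line (F := F) (L := fun t => (s, t)) (u := ((0 : ℝ), (1 : ℝ)))
    (t₀ := bb e x) (fun t => (hasDerivAt_const t _).prodMk (hasDerivAt_id t)) hF
  rw [l1, l2, l3, l4]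
  -- derivatives of the square root
  have hS1 : ∀ᶠ y in 𝓝 x, fderiv ℝ (fun y => √(aa e y)) y = (1 / (2 * √(aa e y))) • fderiv ℝ (aa e) y := by
    filter_upwards [hA.continuousAt.eventually (lt_mem_nhds ha), hA.eventually (by simp)]
      with y hy1 hy2
    exact ((hy2.differentiableAt (by norm_num)).hasFDerivAt.sqrt hy1.ne').fderiv
  have hS1x : ∀ v, fderiv ℝ (fun y => √(aa e y)) x v = fderiv ℝ (aa e) x v / (2 * s) := by
    intro v
    rw [hS1.self_of_nhds]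
    simp [hs, div_eq_inv_mul]
  have hA2 : HasFDerivAt (fderiv ℝ (aa e)) (fderiv ℝ (fderiv ℝ (aa e)) x) x :=
    ((hA.fderiv_right (m := 1) (by norm_num)).differentiableAt (by norm_num)).hasFDerivAt
  have hS2 : ∀ v, fderiv ℝ (fderiv ℝ (fun y => √(aa e y))) x v v =
      fderiv ℝ (fderiv ℝ (aa e)) x v v / (2 * s) - (fderiv ℝ (aa e) x v) ^ 2 / (4 * s ^ 3) := by
    intro v
    rw [Filter.EventuallyEq.fderiv_eq hS1]
    have g1 : HasFDerivAt (fun y => √(aa e y)) ((1 / (2 * √(aa e x))) • fderiv ℝ (aa e) x) x :=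
      (hA.differentiableAt (by norm_num)).hasFDerivAt.sqrt ha.ne'
    have g2 : HasDerivAt (fun z : ℝ => 1 / (2 * z)) (-(1 / (2 * s ^ 2))) s := by
      have := ((hasDerivAt_id s).const_mul 2).inv (by simpa using hs0.ne')
      refine (this.congr_deriv ?_).congr_of_eventuallyEq ?_
      · simp; field_simp
      · exact Filter.Eventually.of_forall fun z => by simp
    have g3 : HasFDerivAt (fun y => 1 / (2 * √(aa e y)))
        ((-(1 / (2 * s ^ 2))) • ((1 / (2 * √(aa e x))) • fderiv ℝ (aa e) x)) x :=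
      HasDerivAt.comp_hasFDerivAt (h₂ := fun z : ℝ => 1 / (2 * z)) x g2 g1
    have g4 := g3.smul hA2
    rw [HasFDerivAt.fderiv (f := fun y => (1 / (2 * √(aa e y))) • fderiv ℝ (aa e) y) g4]
    simp only [add_apply, smul_apply,
      ContinuousLinearMap.smulRight_apply, smul_eq_mul, ← hs]
    field_simp
    ring
  rw [FB75.laplacian_eq_sum hcomp]
  have key : ∀ i : Fin 3,
      fderiv ℝ (fun y => fderiv ℝ (fun y => F (√(aa e y), bb e y)) y (FB75.ei i)) x (FB75.ei i) =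
      fderiv ℝ (fderiv ℝ F) (s, bb e x) (1, 0) (1, 0) * ((x i / ‖x‖ + e i) / (2 * s)) ^ 2 +
      (fderiv ℝ (fderiv ℝ F) (s, bb e x) (1, 0) (0, 1) +
        fderiv ℝ (fderiv ℝ F) (s, bb e x) (0, 1) (1, 0)) *
        ((x i / ‖x‖ + e i) / (2 * s) * (x i / ‖x‖ - e i)) +
      fderiv ℝ (fderiv ℝ F) (s, bb e x) (0, 1) (0, 1) * (x i / ‖x‖ - e i) ^ 2 +
      fderiv ℝ F (s, bb e x) (1, 0) * ((1 / ‖x‖ - x i * x i / ‖x‖ ^ 3) / (2 * s) -
        (x i / ‖x‖ + e i) ^ 2 / (4 * s ^ 3)) +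
      fderiv ℝ F (s, bb e x) (0, 1) * (1 / ‖x‖ - x i * x i / ‖x‖ ^ 3) := by
    intro i
    rw [lc_comp hS hB hF]
    have hb1 : fderiv ℝ (bb e) x (FB75.ei i) = x i / ‖x‖ - e i := by
      rw [lc_bb, aa_fderiv hx, inner_neg_left, lc_basis, lc_basis]; ring
    have ha1 : fderiv ℝ (aa e) x (FB75.ei i) = x i / ‖x‖ + e i := by
      rw [aa_fderiv hx, lc_basis, lc_basis]
    have hii : (inner ℝ (FB75.ei i) (FB75.ei i) : ℝ) = 1 := by
      rw [lc_basis]; simp [FB75.ei]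
    have ha2 : fderiv ℝ (fderiv ℝ (aa e)) x (FB75.ei i) (FB75.ei i) =
        1 / ‖x‖ - x i * x i / ‖x‖ ^ 3 := by
      rw [aa_fderiv_two hx, hii, lc_basis]
    have hb2 : fderiv ℝ (fderiv ℝ (bb e)) x (FB75.ei i) (FB75.ei i) =
        1 / ‖x‖ - x i * x i / ‖x‖ ^ 3 := by
      rw [lc_bb, aa_fderiv_two hx, hii, lc_basis]
    rw [hS1x, hS2, ha1, hb1, ha2, hb2, ← hs]
    have hsplit : ∀ p q : ℝ, (p, q) = p • ((1 : ℝ), (0 : ℝ)) + q • ((0 : ℝ), (1 : ℝ)) := by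
      intro p q; simp
    rw [hsplit ((x i / ‖x‖ + e i) / (2 * s)) (x i / ‖x‖ - e i),
      hsplit ((1 / ‖x‖ - x i * x i / ‖x‖ ^ 3) / (2 * s) - (x i / ‖x‖ + e i) ^ 2 / (4 * s ^ 3))
        (1 / ‖x‖ - x i * x i / ‖x‖ ^ 3)]
    simp only [map_add, map_smul, add_apply, smul_apply,
      smul_eq_mul]
    ring
  rw [Finset.sum_congr rfl fun i _ => key i]
  have hnx : x 0 ^ 2 + x 1 ^ 2 + x 2 ^ 2 = ‖x‖ ^ 2 := by
    rw [EuclideanSpace.real_norm_sq_eq]; simp [Fin.sum_univ_three]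
  have hne : e 0 ^ 2 + e 1 ^ 2 + e 2 ^ 2 = 1 := by
    have : ‖e‖ ^ 2 = 1 := by rw [he]; norm_num
    rw [← this, EuclideanSpace.real_norm_sq_eq]; simp [Fin.sum_univ_three]
  have hxe : x 0 * e 0 + x 1 * e 1 + x 2 * e 2 = inner ℝ x e := by
    simp [PiLp.inner_apply, Fin.sum_univ_three, mul_comm]
  set r := ‖x‖ with hrdef
  set z : ℝ := inner ℝ x e with hz
  have haz : aa e x = r + z := rfl
  have hbz : bb e x = r - z := rfl
  rw [haz] at hss
  generalize fderiv ℝ (fderiv ℝ F) (s, bb e x) (1, 0) (1, 0) = F11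
  generalize fderiv ℝ (fderiv ℝ F) (s, bb e x) (1, 0) (0, 1) = F12
  generalize fderiv ℝ (fderiv ℝ F) (s, bb e x) (0, 1) (1, 0) = F21
  generalize fderiv ℝ (fderiv ℝ F) (s, bb e x) (0, 1) (0, 1) = F22
  generalize fderiv ℝ F (s, bb e x) (1, 0) = F1
  generalize fderiv ℝ F (s, bb e x) (0, 1) = F2
  rw [hbz]
  simp only [Fin.sum_univ_three]
  have hza : z = s * s - r := by linarith
  -- the sums
  have q1 : (x 0 / r + e 0) ^ 2 + (x 1 / r + e 1) ^ 2 + (x 2 / r + e 2) ^ 2 = 2 * (s * s) / r := by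
    have : (x 0 / r + e 0) ^ 2 + (x 1 / r + e 1) ^ 2 + (x 2 / r + e 2) ^ 2 =
        (x 0 ^ 2 + x 1 ^ 2 + x 2 ^ 2) / r ^ 2 + 2 * (x 0 * e 0 + x 1 * e 1 + x 2 * e 2) / r +
        (e 0 ^ 2 + e 1 ^ 2 + e 2 ^ 2) := by field_simp; ring
    rw [this, hnx, hne, hxe, hza]; field_simp; ring
  have q2 : (x 0 / r + e 0) * (x 0 / r - e 0) + (x 1 / r + e 1) * (x 1 / r - e 1) +
      (x 2 / r + e 2) * (x 2 / r - e 2) = 0 := by
    have : (x 0 / r + e 0) * (x 0 / r - e 0) + (x 1 / r + e 1) * (x 1 / r - e 1) +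
      (x 2 / r + e 2) * (x 2 / r - e 2) = (x 0 ^ 2 + x 1 ^ 2 + x 2 ^ 2) / r ^ 2 -
        (e 0 ^ 2 + e 1 ^ 2 + e 2 ^ 2) := by field_simp; ring
    rw [this, hnx, hne]; field_simp; ring
  have q3 : (x 0 / r - e 0) ^ 2 + (x 1 / r - e 1) ^ 2 + (x 2 / r - e 2) ^ 2 = 2 * (r - z) / r := by
    have : (x 0 / r - e 0) ^ 2 + (x 1 / r - e 1) ^ 2 + (x 2 / r - e 2) ^ 2 =
        (x 0 ^ 2 + x 1 ^ 2 + x 2 ^ 2) / r ^ 2 - 2 * (x 0 * e 0 + x 1 * e 1 + x 2 * e 2) / r +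
        (e 0 ^ 2 + e 1 ^ 2 + e 2 ^ 2) := by field_simp; ring
    rw [this, hnx, hne, hxe]; field_simp; ring
  have q4 : (1 / r - x 0 * x 0 / r ^ 3) + (1 / r - x 1 * x 1 / r ^ 3) +
      (1 / r - x 2 * x 2 / r ^ 3) = 2 / r := by
    have : (1 / r - x 0 * x 0 / r ^ 3) + (1 / r - x 1 * x 1 / r ^ 3) +
      (1 / r - x 2 * x 2 / r ^ 3) = 3 / r - (x 0 ^ 2 + x 1 ^ 2 + x 2 ^ 2) / r ^ 3 := by
      field_simp; ring
    rw [this, hnx]; field_simp; ring
  have total : ∀ (P0 P1 P2 M0 M1 M2 D0 D1 D2 : ℝ),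
      (F11 * (P0 / (2 * s)) ^ 2 + (F12 + F21) * (P0 / (2 * s) * M0) + F22 * M0 ^ 2 +
        F1 * (D0 / (2 * s) - P0 ^ 2 / (4 * s ^ 3)) + F2 * D0) +
      (F11 * (P1 / (2 * s)) ^ 2 + (F12 + F21) * (P1 / (2 * s) * M1) + F22 * M1 ^ 2 +
        F1 * (D1 / (2 * s) - P1 ^ 2 / (4 * s ^ 3)) + F2 * D1) +
      (F11 * (P2 / (2 * s)) ^ 2 + (F12 + F21) * (P2 / (2 * s) * M2) + F22 * M2 ^ 2 +
        F1 * (D2 / (2 * s) - P2 ^ 2 / (4 * s ^ 3)) + F2 * D2) =
      F11 * (P0 ^ 2 + P1 ^ 2 + P2 ^ 2) / (4 * s ^ 2) +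
      (F12 + F21) * (P0 * M0 + P1 * M1 + P2 * M2) / (2 * s) +
      F22 * (M0 ^ 2 + M1 ^ 2 + M2 ^ 2) +
      F1 * ((D0 + D1 + D2) / (2 * s) - (P0 ^ 2 + P1 ^ 2 + P2 ^ 2) / (4 * s ^ 3)) +
      F2 * (D0 + D1 + D2) := by
    intro P0 P1 P2 M0 M1 M2 D0 D1 D2
    field_simp
    ring
  rw [total, q1, q2, q3, q4]
  field_simp
  ring

end FBQ
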