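import Pool.Agent.FBQ.Def

/-!
# The potential `Ph`
-/

open MeasureTheory Metric Set Filter Topology
open scoped ContDiff

namespace FBQ

theorem isOpen_domP : IsOpen domP := by
  have h1 : IsOpen {p : ℝ × ℝ | 0 < p.1 ^ 2 + p.2} :=
    isOpen_lt continuous_const (by fun_prop)
  have h2 : IsOpen {p : ℝ × ℝ | 0 < √(p.1 ^ 2 + p.2) + p.1} :=
    isOpen_lt continuous_const (by fun_prop)
  exact h1.inter h2

theorem Ph_contDiffOn : ContDiffOn ℝ 2 (fun p : ℝ × ℝ => Ph p.1 p.2) domP := by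
  intro p hp
  have hfst : ContDiff ℝ 2 (fun q : ℝ × ℝ => q.1) := contDiff_fst
  have hsnd : ContDiff ℝ 2 (fun q : ℝ × ℝ => q.2) := contDiff_snd
  have h1 : ContDiffAt ℝ 2 (fun q : ℝ × ℝ => √(q.1 ^ 2 + q.2)) p :=
    ((hfst.pow 2).add hsnd).contDiffAt.sqrt hp.1.ne'
  have h2 : ContDiffAt ℝ 2 (fun q : ℝ × ℝ => Real.log (√(q.1 ^ 2 + q.2) + q.1)) p :=
    (h1.add hfst.contDiffAt).log hp.2.ne'
  have h3 : ContDiffAt ℝ 2 (fun q : ℝ × ℝ => 1 - q.1) p := (contDiff_const.sub hfst).contDiffAt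
  exact (h1.add (h3.mul h2)).contDiffWithinAt

theorem Ph_one (b : ℝ) : Ph 1 b = √(1 + b) := by
  simp [Ph]

/-- The derivative in the first variable. -/
private lemma Potential_d1 {ζ b : ℝ} (h : (ζ, b) ∈ domP) :
    HasDerivAt (fun x => Ph x b) ((√(ζ ^ 2 + b))⁻¹ - Real.log (√(ζ ^ 2 + b) + ζ)) ζ := by
  obtain ⟨h1, h2⟩ := h
  simp only at h1 h2
  have hr : 0 < √(ζ ^ 2 + b) := Real.sqrt_pos.2 h1
  have e0 : HasDerivAt (fun x : ℝ => x ^ 2 + b) (2 * ζ) ζ := by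
    have := (hasDerivAt_pow 2 ζ).add_const b
    refine this.congr_deriv ?_
    simp
  have e1 : HasDerivAt (fun x : ℝ => √(x ^ 2 + b)) (2 * ζ / (2 * √(ζ ^ 2 + b))) ζ :=
    e0.sqrt h1.ne'
  have e1' : HasDerivAt (fun x : ℝ => √(x ^ 2 + b) + x) (2 * ζ / (2 * √(ζ ^ 2 + b)) + 1) ζ :=
    e1.add (hasDerivAt_id ζ)
  have e2 : HasDerivAt (fun x : ℝ => Real.log (√(x ^ 2 + b) + x)) _ ζ :=
    e1'.log h2.ne'
  have e3 : HasDerivAt (fun x : ℝ => √(x ^ 2 + b) + (1 - x) * Real.log (√(x ^ 2 + b) + x)) _ ζ :=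
    e1.add (((hasDerivAt_id ζ).const_sub 1).mul e2)
  refine e3.congr_deriv ?_
  simp only [id]
  have h3 := h2.ne'
  field_simp
  ring

/-- The derivative in the second variable. -/
private lemma Potential_d2 {ζ b : ℝ} (h : (ζ, b) ∈ domP) :
    HasDerivAt (Ph ζ)
      ((√(ζ ^ 2 + b) + 1) / (2 * √(ζ ^ 2 + b) * (√(ζ ^ 2 + b) + ζ))) b := by
  obtain ⟨h1, h2⟩ := h
  simp only at h1 h2
  have hr : 0 < √(ζ ^ 2 + b) := Real.sqrt_pos.2 h1
  have e0 : HasDerivAt (fun x : ℝ => ζ ^ 2 + x) 1 b := (hasDerivAt_id b).const_add (ζ ^ 2)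
  have e1 : HasDerivAt (fun x : ℝ => √(ζ ^ 2 + x)) (1 / (2 * √(ζ ^ 2 + b))) b := e0.sqrt h1.ne'
  have e2 : HasDerivAt (fun x : ℝ => Real.log (√(ζ ^ 2 + x) + ζ)) _ b :=
    (e1.add_const ζ).log h2.ne'
  have e3 : HasDerivAt (fun x : ℝ => √(ζ ^ 2 + x) + (1 - ζ) * Real.log (√(ζ ^ 2 + x) + ζ)) _ b :=
    e1.add (e2.const_mul (1 - ζ))
  refine e3.congr_deriv ?_
  have h3 := h2.ne'
  field_simp
  ring

/-- `Φ_ζζ + 4 (b Φ_b)_b = 0`. -/
theorem Ph_pde {ζ b : ℝ} (h : (ζ, b) ∈ domP) :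
    deriv (deriv fun x => Ph x b) ζ + 4 * (b * deriv (deriv (Ph ζ)) b + deriv (Ph ζ) b) = 0 := by
  have hnb : domP ∈ 𝓝 (ζ, b) := isOpen_domP.mem_nhds h
  have n1 : ∀ᶠ x in 𝓝 ζ, (x, b) ∈ domP :=
    (continuous_id.prodMk continuous_const).continuousAt.eventually hnb
  have n2 : ∀ᶠ y in 𝓝 b, (ζ, y) ∈ domP :=
    (continuous_const.prodMk continuous_id).continuousAt.eventually hnb
  have d1 : deriv (fun x => Ph x b) =ᶠ[𝓝 ζ]
      fun x => (√(x ^ 2 + b))⁻¹ - Real.log (√(x ^ 2 + b) + x) := by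
    filter_upwards [n1] with x hx
    exact (Potential_d1 hx).deriv
  have d2 : deriv (Ph ζ) =ᶠ[𝓝 b]
      fun y => (√(ζ ^ 2 + y) + 1) / (2 * √(ζ ^ 2 + y) * (√(ζ ^ 2 + y) + ζ)) := by
    filter_upwards [n2] with y hy
    exact (Potential_d2 hy).deriv
  have d3 := (Potential_d2 h).deriv
  obtain ⟨h1, h2⟩ := h
  simp only at h1 h2
  have hr : 0 < √(ζ ^ 2 + b) := Real.sqrt_pos.2 h1
  have hr2 : √(ζ ^ 2 + b) ^ 2 = ζ ^ 2 + b := Real.sq_sqrt h1.le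
  -- the second derivative in the first variable
  have e0 : HasDerivAt (fun x : ℝ => x ^ 2 + b) (2 * ζ) ζ := by
    have := (hasDerivAt_pow 2 ζ).add_const b
    refine this.congr_deriv ?_
    simp
  have e1 : HasDerivAt (fun x : ℝ => √(x ^ 2 + b)) (2 * ζ / (2 * √(ζ ^ 2 + b))) ζ :=
    e0.sqrt h1.ne'
  have e1' : HasDerivAt (fun x : ℝ => √(x ^ 2 + b) + x) (2 * ζ / (2 * √(ζ ^ 2 + b)) + 1) ζ :=
    e1.add (hasDerivAt_id ζ)
  have e2 : HasDerivAt (fun x : ℝ => (√(x ^ 2 + b))⁻¹ - Real.log (√(x ^ 2 + b) + x)) _ ζ :=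
    (e1.inv hr.ne').sub (e1'.log h2.ne')
  -- the second derivative in the second variable
  have f0 : HasDerivAt (fun x : ℝ => ζ ^ 2 + x) 1 b := (hasDerivAt_id b).const_add (ζ ^ 2)
  have f1 : HasDerivAt (fun x : ℝ => √(ζ ^ 2 + x)) (1 / (2 * √(ζ ^ 2 + b))) b := f0.sqrt h1.ne'
  have hne : 2 * √(ζ ^ 2 + b) * (√(ζ ^ 2 + b) + ζ) ≠ 0 := by positivity
  have f2 : HasDerivAt (fun y : ℝ =>
      (√(ζ ^ 2 + y) + 1) / (2 * √(ζ ^ 2 + y) * (√(ζ ^ 2 + y) + ζ))) _ b :=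
    (f1.add_const 1).div ((f1.const_mul 2).mul (f1.add_const ζ)) hne
  rw [d1.deriv_eq, d2.deriv_eq, d3, e2.deriv, f2.deriv]
  have h3 := h2.ne'
  have h4 := hr.ne'
  have hb : b = √(ζ ^ 2 + b) ^ 2 - ζ ^ 2 := by rw [hr2]; ring
  generalize hR : √(ζ ^ 2 + b) = R at *
  rw [hb]
  field_simp
  ring

/-- The case `0 ≤ s` of `Ph_pos`. -/
private lemma Potential_pos {s b : ℝ} (hb : 0 ≤ b) (hs : s ^ 2 < 1 / 4 + b) (h0 : 0 ≤ s) :
    0 < Ph (1 - s) b + Ph (1 + s) b := by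
  unfold Ph
  have p1 : 0 ≤ (1 + s) ^ 2 + b := by positivity
  have p2 : 0 ≤ (1 - s) ^ 2 + b := by positivity
  have q1 : √((1 + s) ^ 2 + b) ^ 2 = (1 + s) ^ 2 + b := Real.sq_sqrt p1
  have q2 : √((1 - s) ^ 2 + b) ^ 2 = (1 - s) ^ 2 + b := Real.sq_sqrt p2
  have r1 : 0 ≤ √((1 + s) ^ 2 + b) := Real.sqrt_nonneg _
  have r2 : 0 ≤ √((1 - s) ^ 2 + b) := Real.sqrt_nonneg _
  generalize √((1 + s) ^ 2 + b) = P at *
  generalize √((1 - s) ^ 2 + b) = M at *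
  have hPM : 2 * s ^ 2 - 1 / 4 ≤ P * M := by
    have h1 : (2 * s ^ 2 - 1 / 4) ^ 2 ≤ (P * M) ^ 2 := by
      rw [mul_pow, q1, q2]
      have h2 : ((1 + s) ^ 2 + b) * ((1 - s) ^ 2 + b) = (1 + s ^ 2 + b) ^ 2 - 4 * s ^ 2 := by ring
      rw [h2]
      have h3 : (3 / 4 + 2 * s ^ 2) ^ 2 ≤ (1 + s ^ 2 + b) ^ 2 :=
        pow_le_pow_left₀ (by positivity) (by linarith) 2
      nlinarith
    exact (le_abs_self _).trans (abs_le_of_sq_le_sq h1 (mul_nonneg r1 r2))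
  have hN : 8 * s ^ 2 + 1 ≤ (P + M) ^ 2 := by
    have h1 : (P + M) ^ 2 = P ^ 2 + M ^ 2 + 2 * (P * M) := by ring
    rw [h1, q1, q2]
    nlinarith
  have hN0 : 0 ≤ P + M := add_nonneg r1 r2
  have hN1 : 8 * s < 3 * (P + M) := by
    have h1 : (8 * s) ^ 2 < (3 * (P + M)) ^ 2 := by nlinarith
    exact lt_of_pow_lt_pow_left₀ 2 (by positivity) h1
  have hN2 : 2 * s < P + M := by
    have h1 : (2 * s) ^ 2 < (P + M) ^ 2 := by nlinarith
    exact lt_of_pow_lt_pow_left₀ 2 hN0 h1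
  have hid : (P + (1 + s)) * (P + M - 2 * s) = (M + (1 - s)) * (P + M + 2 * s) := by
    linear_combination q1 - q2
  have hA : 0 < P + (1 + s) := by linarith
  have hd1 : 0 < P + M - 2 * s := by linarith
  have hd2 : 0 < P + M + 2 * s := by linarith
  have hB : 0 < M + (1 - s) := by
    have h1 : 0 < (M + (1 - s)) * (P + M + 2 * s) := by
      rw [← hid]
      exact mul_pos hA hd1
    exact (pos_iff_pos_of_mul_pos h1).2 hd2
  have h7 : P + (1 + s) ≤ 7 * (M + (1 - s)) := by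
    have h1 : (P + (1 + s)) * (P + M - 2 * s) ≤ 7 * (M + (1 - s)) * (P + M - 2 * s) := by
      have h2 : P + M + 2 * s ≤ 7 * (P + M - 2 * s) := by linarith
      calc (P + (1 + s)) * (P + M - 2 * s) = (M + (1 - s)) * (P + M + 2 * s) := hid
        _ ≤ (M + (1 - s)) * (7 * (P + M - 2 * s)) := mul_le_mul_of_nonneg_left h2 hB.le
        _ = 7 * (M + (1 - s)) * (P + M - 2 * s) := by ring
    exact le_of_mul_le_mul_right h1 hd1
  have he : (7 : ℝ) ≤ Real.exp 2 := by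
    have h1 : Real.exp 2 = Real.exp 1 ^ 2 := by
      rw [← Real.exp_nat_mul]
      norm_num
    rw [h1]
    have h2 := Real.exp_one_gt_d9
    nlinarith
  have hlog : Real.log (P + (1 + s)) ≤ 2 + Real.log (M + (1 - s)) := by
    have h1 : P + (1 + s) ≤ Real.exp 2 * (M + (1 - s)) :=
      h7.trans (mul_le_mul_of_nonneg_right he hB.le)
    have h2 := Real.log_le_log hA h1
    rwa [Real.log_mul (Real.exp_pos 2).ne' hB.ne', Real.log_exp] at h2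
  have hfin := mul_le_mul_of_nonneg_left hlog h0
  linarith

theorem Ph_pos {s b : ℝ} (hb : 0 ≤ b) (hs : s ^ 2 < 1 / 4 + b) :
    0 < Ph (1 - s) b + Ph (1 + s) b := by
  rcases le_total 0 s with h0 | h0
  · exact Potential_pos hb hs h0
  · have h1 := Potential_pos (s := -s) hb (by rwa [neg_sq]) (by linarith)
    rw [sub_neg_eq_add, ← sub_eq_add_neg] at h1
    linarith

/-- The arguments used in `FF` lie in the domain. -/
theorem domP_of_domF {ξ b s : ℝ} (h : (ξ, b) ∈ domF) (hs : |s| ≤ |ξ - 1|) :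
    (1 - s, b) ∈ domP := by
  obtain ⟨h1, h2, h3⟩ := h
  simp only at h1 h2 h3
  have hs2 : s ^ 2 ≤ (ξ - 1) ^ 2 := sq_le_sq.2 hs
  show 0 < (1 - s) ^ 2 + b ∧ 0 < √((1 - s) ^ 2 + b) + (1 - s)
  rcases lt_or_ge 0 b with hb | hb
  · refine ⟨by positivity, ?_⟩
    have h4 : |1 - s| < √((1 - s) ^ 2 + b) := by
      rw [Real.lt_sqrt (abs_nonneg _), sq_abs]
      linarith
    have h5 := neg_abs_le (1 - s)
    linarith
  · have h4 : |s| < 1 / 2 := by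
      refine lt_of_pow_lt_pow_left₀ 2 (by norm_num) ?_
      rw [sq_abs]
      linarith
    have h5 := (abs_lt.1 h4).2
    have h6 : 1 / 4 < (1 - s) ^ 2 := by nlinarith
    have h7 : 0 ≤ √((1 - s) ^ 2 + b) := Real.sqrt_nonneg _
    exact ⟨by linarith, by linarith⟩

end FBQ
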