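import Pool.Agent.FBQ.Riemann
import Pool.Agent.FBQ.KernelPde

/-!
# The differential equation of the solution operator
-/

open MeasureTheory Metric Set Filter Topology
open scoped ContDiff

namespace FBQ

private lemma RiePde_d1_eq {f : ℝ × ℝ → ℝ} {p : ℝ × ℝ} (hf : DifferentiableAt ℝ f p) :
    HasDerivAt (fun x => f (x, p.2)) (fderiv ℝ f p (1, 0)) p.1 := by
  have h1 : HasDerivAt (fun x : ℝ => (x, p.2)) ((1 : ℝ), (0 : ℝ)) p.1 :=
    (hasDerivAt_id _).prodMk (hasDerivAt_const _ _)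
  have h2 : HasFDerivAt f (fderiv ℝ f p) ((fun x : ℝ => (x, p.2)) p.1) := by
    simpa using hf.hasFDerivAt
  exact h2.comp_hasDerivAt p.1 h1

private lemma RiePde_d2_eq {f : ℝ × ℝ → ℝ} {p : ℝ × ℝ} (hf : DifferentiableAt ℝ f p) :
    HasDerivAt (fun s => f (p.1, s)) (fderiv ℝ f p (0, 1)) p.2 := by
  have h1 : HasDerivAt (fun s : ℝ => (p.1, s)) ((0 : ℝ), (1 : ℝ)) p.2 :=
    (hasDerivAt_const _ _).prodMk (hasDerivAt_id _)
  have h2 : HasFDerivAt f (fderiv ℝ f p) ((fun s : ℝ => (p.1, s)) p.2) := by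
    simpa using hf.hasFDerivAt
  exact h2.comp_hasDerivAt p.2 h1

private lemma RiePde_diff {f : ℝ × ℝ → ℝ} {O : Set (ℝ × ℝ)} (hO : IsOpen O)
    (hf : ContDiffOn ℝ 1 f O) {p : ℝ × ℝ} (hp : p ∈ O) : DifferentiableAt ℝ f p :=
  ((hf.differentiableOn (by norm_num)) p hp).differentiableAt (hO.mem_nhds hp)

private lemma RiePde_d1_contDiffOn {f : ℝ × ℝ → ℝ} {O : Set (ℝ × ℝ)} (hO : IsOpen O) {n m : ℕ∞}
    (hf : ContDiffOn ℝ n f O) (hmn : (m : WithTop ℕ∞) + 1 ≤ n) :
    ContDiffOn ℝ m (fun p => deriv (fun x => f (x, p.2)) p.1) O := by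
  have h1 : ContDiffOn ℝ m (fun p => fderiv ℝ f p (1, 0)) O :=
    (hf.fderiv_of_isOpen hO hmn).clm_apply contDiffOn_const
  refine h1.congr fun p hp => ?_
  have h2 : DifferentiableAt ℝ f p :=
    RiePde_diff hO (hf.of_le (le_trans (by simp) hmn)) hp
  exact (RiePde_d1_eq h2).deriv

private lemma RiePde_d2_contDiffOn {f : ℝ × ℝ → ℝ} {O : Set (ℝ × ℝ)} (hO : IsOpen O) {n m : ℕ∞}
    (hf : ContDiffOn ℝ n f O) (hmn : (m : WithTop ℕ∞) + 1 ≤ n) :
    ContDiffOn ℝ m (fun p => deriv (fun s => f (p.1, s)) p.2) O := by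
  have h1 : ContDiffOn ℝ m (fun p => fderiv ℝ f p (0, 1)) O :=
    (hf.fderiv_of_isOpen hO hmn).clm_apply contDiffOn_const
  refine h1.congr fun p hp => ?_
  have h2 : DifferentiableAt ℝ f p :=
    RiePde_diff hO (hf.of_le (le_trans (by simp) hmn)) hp
  exact (RiePde_d2_eq h2).deriv

private lemma RiePde_param {f : ℝ × ℝ → ℝ} {O : Set (ℝ × ℝ)} (hO : IsOpen O)
    (hf : ContDiffOn ℝ 1 f O) {x₀ a b : ℝ} (h : ∀ s ∈ uIcc a b, (x₀, s) ∈ O) :
    HasDerivAt (fun x => ∫ s in a..b, f (x, s))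
      (∫ s in a..b, deriv (fun x => f (x, s)) x₀) x₀ := by
  obtain ⟨u, v, hu, hv, hxu, hbv, huv⟩ := generalized_tube_lemma (s := {x₀}) (t := uIcc a b)
    isCompact_singleton isCompact_uIcc hO (by
      rintro ⟨x, s⟩ ⟨hx, hs⟩
      rw [mem_singleton_iff] at hx
      simp only at hx hs
      rw [hx]
      exact h s hs)
  obtain ⟨δ, hδ, hδu⟩ := Metric.nhds_basis_closedBall.mem_iff.1 (hu.mem_nhds (hxu rfl))
  have hsub : closedBall x₀ δ ×ˢ uIcc a b ⊆ O := (prod_mono hδu hbv).trans huv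
  have hd : ContDiffOn ℝ 0 (fun p : ℝ × ℝ => deriv (fun x => f (x, p.2)) p.1) O := by
    have := RiePde_d1_contDiffOn (n := 1) (m := 0) hO hf (by simp)
    exact this
  have hdc : ContinuousOn (fun p : ℝ × ℝ => deriv (fun x => f (x, p.2)) p.1) O := hd.continuousOn
  obtain ⟨C, hC⟩ := ((isCompact_closedBall x₀ δ).prod isCompact_uIcc).exists_bound_of_continuousOn
    (hdc.mono hsub)
  have hslice : ∀ x ∈ closedBall x₀ δ, ContinuousOn (fun s => f (x, s)) (uIcc a b) := by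
    intro x hx
    exact hf.continuousOn.comp (continuous_const.prodMk continuous_id).continuousOn
      (fun s hs => hsub ⟨hx, hs⟩)
  have hslice' : ContinuousOn (fun s => deriv (fun x => f (x, s)) x₀) (uIcc a b) := by
    exact hdc.comp (f := fun s : ℝ => ((x₀, s) : ℝ × ℝ))
      (continuous_const.prodMk continuous_id).continuousOn (fun s hs => h s hs)
  refine (intervalIntegral.hasDerivAt_integral_of_dominated_loc_of_deriv_le
    (F := fun x s => f (x, s)) (F' := fun x s => deriv (fun x => f (x, s)) x)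
    (bound := fun _ => C) (s := ball x₀ δ) (ball_mem_nhds x₀ hδ) ?_ ?_ ?_ ?_ ?_ ?_).2
  · filter_upwards [ball_mem_nhds x₀ hδ] with x hx
    exact ((hslice x (ball_subset_closedBall hx)).mono uIoc_subset_uIcc).aestronglyMeasurable
      measurableSet_uIoc
  · exact (hslice x₀ (mem_closedBall_self hδ.le)).intervalIntegrable
  · exact (hslice'.mono uIoc_subset_uIcc).aestronglyMeasurable measurableSet_uIoc
  · refine ae_of_all _ fun s hs x hx => ?_
    exact hC (x, s) ⟨ball_subset_closedBall hx, uIoc_subset_uIcc hs⟩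
  · exact intervalIntegrable_const
  · refine ae_of_all _ fun s hs x hx => ?_
    have hp : (x, s) ∈ O := hsub ⟨ball_subset_closedBall hx, uIoc_subset_uIcc hs⟩
    have h3 := RiePde_d1_eq (RiePde_diff hO hf hp)
    rw [h3.deriv.symm] at h3
    exact h3

/-- The rule of Leibniz for the segments `[1 - x, x - 1]`. -/
private lemma RiePde_leib {G : ℝ × ℝ → ℝ} {O : Set (ℝ × ℝ)} (hO : IsOpen O)
    (hG : ContDiffOn ℝ 1 G O) {x : ℝ} (h : ∀ s, |s| ≤ |x - 1| → (x, s) ∈ O) :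
    HasDerivAt (fun y => ∫ s in (1 - y)..(y - 1), G (y, s))
      (G (x, x - 1) + G (x, 1 - x) + ∫ s in (1 - x)..(x - 1), deriv (fun y => G (y, s)) x) x := by
  have hsc : ∀ (g : ℝ → ℝ) (y : ℝ), ∫ s in (1 - y)..(y - 1), g s =
      ∫ t in (-1 : ℝ)..1, (y - 1) * g ((y - 1) * t) := by
    intro g y
    have h1 := intervalIntegral.smul_integral_comp_mul_left (a := -1) (b := 1) g (y - 1)
    rw [smul_eq_mul, ← intervalIntegral.integral_const_mul] at h1
    rw [h1]
    congr 1 <;> ring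
  set m : ℝ × ℝ → ℝ × ℝ := fun q => (q.1, (q.1 - 1) * q.2) with hm
  have cm : ContDiff ℝ 1 m := by
    rw [hm]; fun_prop
  have hO' : IsOpen (m ⁻¹' O) := hO.preimage cm.continuous
  have hg : ContDiffOn ℝ 1 (fun q : ℝ × ℝ => (q.1 - 1) * G (q.1, (q.1 - 1) * q.2)) (m ⁻¹' O) := by
    have k1 : ContDiffOn ℝ 1 (fun q : ℝ × ℝ => G (q.1, (q.1 - 1) * q.2)) (m ⁻¹' O) :=
      hG.comp cm.contDiffOn (fun q hq => hq)
    have k0 : ContDiff ℝ 1 (fun q : ℝ × ℝ => q.1 - 1) := by fun_prop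
    exact k0.contDiffOn.mul k1
  have habs : ∀ t ∈ uIcc (-1 : ℝ) 1, |(x - 1) * t| ≤ |x - 1| := by
    intro t ht
    rw [uIcc_of_le (by norm_num)] at ht
    rw [abs_mul]
    exact mul_le_of_le_one_right (abs_nonneg _) (abs_le.2 ht)
  have hmem : ∀ t ∈ uIcc (-1 : ℝ) 1, (x, t) ∈ m ⁻¹' O := fun t ht => h _ (habs t ht)
  have hmain := RiePde_param hO' hg hmem
  have hfun : (fun y => ∫ s in (1 - y)..(y - 1), G (y, s)) = fun y => ∫ t in (-1 : ℝ)..1,
      (fun q : ℝ × ℝ => (q.1 - 1) * G (q.1, (q.1 - 1) * q.2)) (y, t) := by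
    ext y
    exact hsc (fun s => G (y, s)) y
  rw [hfun]
  convert hmain using 1
  -- the value of the derivative
  have hdf : ∀ t ∈ uIcc (-1 : ℝ) 1, DifferentiableAt ℝ G (x, (x - 1) * t) :=
    fun t ht => RiePde_diff hO hG (h _ (habs t ht))
  have hval : ∀ t ∈ uIcc (-1 : ℝ) 1,
      deriv (fun y => (fun q : ℝ × ℝ => (q.1 - 1) * G (q.1, (q.1 - 1) * q.2)) (y, t)) x =
        (G (x, (x - 1) * t) + t * ((x - 1) * fderiv ℝ G (x, (x - 1) * t) (0, 1))) +
          (x - 1) * deriv (fun y => G (y, (x - 1) * t)) x := by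
    intro t ht
    have h1 : HasDerivAt (fun y : ℝ => (y, (y - 1) * t)) ((1 : ℝ), t) x := by
      refine (hasDerivAt_id x).prodMk ?_
      have := ((hasDerivAt_id x).sub_const 1).mul_const t
      simpa using this
    have h2 : HasDerivAt (fun y => G (y, (y - 1) * t)) (fderiv ℝ G (x, (x - 1) * t) (1, t)) x :=
      HasFDerivAt.comp_hasDerivAt (f := fun y : ℝ => (y, (y - 1) * t)) x
        (hdf t ht).hasFDerivAt h1
    have h3 := (((hasDerivAt_id x).sub_const 1).mul h2).deriv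
    have h4 : fderiv ℝ G (x, (x - 1) * t) (1, t) =
        fderiv ℝ G (x, (x - 1) * t) (1, 0) + t * fderiv ℝ G (x, (x - 1) * t) (0, 1) := by
      have h5 : ((1 : ℝ), t) = (1, 0) + t • ((0 : ℝ), (1 : ℝ)) := by
        simp
      rw [h5, map_add, map_smul, smul_eq_mul]
    have h6 := (RiePde_d1_eq (hdf t ht)).deriv
    simp only at h6
    show deriv (fun y => (y - 1) * G (y, (y - 1) * t)) x = _
    refine Eq.trans ?_ (h3.trans ?_)
    · rfl
    · rw [h4, h6, id_eq]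
      ring
  have hft : ∀ t ∈ uIcc (-1 : ℝ) 1, HasDerivAt (fun t => t * G (x, (x - 1) * t))
      (G (x, (x - 1) * t) + t * ((x - 1) * fderiv ℝ G (x, (x - 1) * t) (0, 1))) t := by
    intro t ht
    have h1 : HasDerivAt (fun t : ℝ => (x, (x - 1) * t)) ((0 : ℝ), x - 1) t := by
      refine (hasDerivAt_const _ _).prodMk ?_
      simpa using (hasDerivAt_id t).const_mul (x - 1)
    have h2 : HasDerivAt (fun t => G (x, (x - 1) * t))
        (fderiv ℝ G (x, (x - 1) * t) (0, x - 1)) t :=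
      HasFDerivAt.comp_hasDerivAt (f := fun t : ℝ => (x, (x - 1) * t)) t
        (hdf t ht).hasFDerivAt h1
    have h3 := (hasDerivAt_id t).mul h2
    have h5 : ((0 : ℝ), x - 1) = (x - 1) • ((0 : ℝ), (1 : ℝ)) := by
      simp
    rw [h5, map_smul, smul_eq_mul] at h3
    have h6 : HasDerivAt (fun t => t * G (x, (x - 1) * t)) _ t := h3
    refine h6.congr_deriv ?_
    simp
  have hcO : ContinuousOn (fun t : ℝ => ((x, (x - 1) * t) : ℝ × ℝ)) (uIcc (-1 : ℝ) 1) := by
    fun_prop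
  have hcf : ContinuousOn (fun p => fderiv ℝ G p (0, 1)) O := by
    have h1 : ContDiffOn ℝ 0 (fun p => fderiv ℝ G p (0, 1)) O :=
      (hG.fderiv_of_isOpen hO (by norm_num)).clm_apply contDiffOn_const
    exact h1.continuousOn
  have hcd : ContinuousOn (fun p : ℝ × ℝ => deriv (fun x => G (x, p.2)) p.1) O := by
    have := RiePde_d1_contDiffOn (n := 1) (m := 0) hO hG (by simp)
    exact this.continuousOn
  have hI1 : IntervalIntegrable (fun t => G (x, (x - 1) * t) +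
      t * ((x - 1) * fderiv ℝ G (x, (x - 1) * t) (0, 1))) volume (-1) 1 := by
    refine ContinuousOn.intervalIntegrable ?_
    refine (hG.continuousOn.comp hcO (fun t ht => h _ (habs t ht))).add ?_
    refine continuousOn_id.mul (continuousOn_const.mul ?_)
    exact hcf.comp hcO (fun t ht => h _ (habs t ht))
  have hI2 : IntervalIntegrable (fun t => (x - 1) * deriv (fun y => G (y, (x - 1) * t)) x)
      volume (-1) 1 := by
    refine ContinuousOn.intervalIntegrable (continuousOn_const.mul ?_)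
    exact hcd.comp hcO (fun t ht => h _ (habs t ht))
  rw [intervalIntegral.integral_congr (fun t ht => hval t ht),
    intervalIntegral.integral_add hI1 hI2, intervalIntegral.integral_eq_sub_of_hasDerivAt hft hI1,
    ← hsc (fun s => deriv (fun y => G (y, s)) x) x]
  have e1 : (x - 1) * (-1 : ℝ) = 1 - x := by ring
  rw [e1, mul_one]
  ring

theorem RR_pde {h : ℝ → ℝ} {r : ℝ} (hh : ContDiffOn ℝ 2 h (Ioo (-r) r)) {ξ : ℝ} (hξ : 0 < ξ)
    (hr : |ξ - 1| < r) :
    deriv (deriv (RR h)) ξ + deriv (RR h) ξ / ξ =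
      ∫ s in (1 - ξ)..(ξ - 1), kap ξ s * deriv (deriv h) s := by
  -- the open set
  have hI : IsOpen (Ioo (-r) r) := isOpen_Ioo
  set O : Set (ℝ × ℝ) := domK ∩ Prod.snd ⁻¹' Ioo (-r) r with hOdef
  have hO : IsOpen O := isOpen_domK.inter (hI.preimage continuous_snd)
  have hK2 : ContDiffOn ℝ 2 (fun p : ℝ × ℝ => kap p.1 p.2) O := kap_contDiffOn.mono fun p hp => hp.1
  have hh2 : ContDiffOn ℝ 2 (fun p : ℝ × ℝ => h p.2) O :=
    hh.comp contDiff_snd.contDiffOn (fun p hp => hp.2)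
  have hG : ContDiffOn ℝ 2 (fun p : ℝ × ℝ => kap p.1 p.2 * h p.2) O := hK2.mul hh2
  have hKx : ContDiffOn ℝ 1 (fun p : ℝ × ℝ => deriv (fun x => kap x p.2) p.1) O := by
    have := RiePde_d1_contDiffOn (n := 2) (m := 1) hO hK2 (by norm_num)
    exact this
  have hG1 : ContDiffOn ℝ 1 (fun p : ℝ × ℝ => deriv (fun x => kap x p.2) p.1 * h p.2) O :=
    hKx.mul (hh2.of_le (by norm_num))
  -- membership
  have hmemO : ∀ y : ℝ, 0 < y → |y - 1| < r → ∀ s, |s| ≤ |y - 1| → (y, s) ∈ O := by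
    intro y hy hyr s hs
    refine ⟨⟨hy, ?_⟩, ?_⟩
    · show |s| < y + 1
      refine hs.trans_lt ?_
      rw [abs_lt]
      constructor <;> linarith
    · exact abs_lt.1 (hs.trans_lt hyr)
  have hnear : ∀ᶠ y in 𝓝 ξ, 0 < y ∧ |y - 1| < r := by
    have h1 : ∀ᶠ y in 𝓝 ξ, 0 < y := lt_mem_nhds hξ
    have h2 : ∀ᶠ y in 𝓝 ξ, |y - 1| < r :=
      (continuous_id.sub continuous_const).abs.continuousAt.eventually_lt continuousAt_const hr
    exact h1.and h2
  -- the first derivative near `ξ`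
  have hd1 : ∀ y : ℝ, 0 < y → |y - 1| < r → deriv (RR h) y =
      (2 * √y)⁻¹ * (h (y - 1) + h (1 - y)) +
        ∫ s in (1 - y)..(y - 1), deriv (fun x => kap x s) y * h s := by
    intro y hy hyr
    have h1 := (RiePde_leib hO (hG.of_le (by norm_num)) (hmemO y hy hyr)).deriv
    have h2 : deriv (RR h) y = deriv (fun y => ∫ s in (1 - y)..(y - 1),
        (fun p : ℝ × ℝ => kap p.1 p.2 * h p.2) (y, s)) y := rfl
    rw [h2, h1]
    have h3 : kap y (1 - y) = kap y (y - 1) := by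
      rw [← kap_neg, neg_sub]
    have h4 : ∀ s ∈ uIcc (1 - y) (y - 1), deriv (fun x => (fun p : ℝ × ℝ =>
        kap p.1 p.2 * h p.2) (x, s)) y = deriv (fun x => kap x s) y * h s := by
      intro s _
      show deriv (fun x => kap x s * h s) y = _
      rw [deriv_mul_const_field]
    rw [intervalIntegral.integral_congr (fun s hs => h4 s hs)]
    simp only [h3, kap_diag hy]
    ring
  have hev : deriv (RR h) =ᶠ[𝓝 ξ] fun y => (2 * √y)⁻¹ * (h (y - 1) + h (1 - y)) +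
        ∫ s in (1 - y)..(y - 1),
          (fun p : ℝ × ℝ => deriv (fun x => kap x p.2) p.1 * h p.2) (y, s) := by
    filter_upwards [hnear] with y hy
    exact hd1 y hy.1 hy.2
  -- the derivatives of the boundary terms
  have hhd : ∀ s, |s| < r → HasDerivAt h (deriv h s) s := by
    intro s hs
    exact (((hh.differentiableOn (by norm_num)) s (abs_lt.1 hs)).differentiableAt
      (hI.mem_nhds (abs_lt.1 hs))).hasDerivAt
  have hhd2 : ∀ s, |s| < r → HasDerivAt (deriv h) (deriv (deriv h) s) s := by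
    intro s hs
    have h1 : ContDiffOn ℝ 1 (deriv h) (Ioo (-r) r) := by
      have := hh.deriv_of_isOpen (m := 1) hI (by norm_num)
      exact this
    exact (((h1.differentiableOn (by norm_num)) s (abs_lt.1 hs)).differentiableAt
      (hI.mem_nhds (abs_lt.1 hs))).hasDerivAt
  have hr' : |1 - ξ| < r := by rwa [abs_sub_comm]
  have hp1 : HasDerivAt (fun y => h (y - 1)) (deriv h (ξ - 1)) ξ := by
    exact (hhd (ξ - 1) hr).comp_sub_const ξ 1
  have hp2 : HasDerivAt (fun y => h (1 - y)) (-deriv h (1 - ξ)) ξ := by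
    exact (hhd (1 - ξ) hr').comp_const_sub 1 ξ
  have hsq : HasDerivAt (fun y => (2 * √y)⁻¹) (-(1 / 4) * (√ξ * ξ)⁻¹) ξ := by
    have h0 : √ξ ≠ 0 := (Real.sqrt_pos.2 hξ).ne'
    have h1 := ((Real.hasDerivAt_sqrt hξ.ne').const_mul 2).inv (by positivity)
    have h3 : HasDerivAt (fun y => (2 * √y)⁻¹) _ ξ := h1
    refine h3.congr_deriv ?_
    have h2 : √ξ ^ 2 = ξ := Real.sq_sqrt hξ.le
    field_simp
    rw [h2]
    ring
  have hb := hsq.mul (hp1.add hp2)
  have hl := RiePde_leib hO hG1 (hmemO ξ hξ hr)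
  have e2 := (hb.add hl).deriv
  have e2' : deriv (deriv (RR h)) ξ =
      -(1 / 4) * (√ξ * ξ)⁻¹ * (h (ξ - 1) + h (1 - ξ)) +
        (2 * √ξ)⁻¹ * (deriv h (ξ - 1) + -deriv h (1 - ξ)) +
        (deriv (fun x => kap x (ξ - 1)) ξ * h (ξ - 1) +
          deriv (fun x => kap x (1 - ξ)) ξ * h (1 - ξ) +
          ∫ s in (1 - ξ)..(ξ - 1), deriv (deriv fun x => kap x s) ξ * h s) := by
    rw [hev.deriv_eq]
    refine Eq.trans ?_ (e2.trans ?_)
    · rfl
    · congr 2
      refine intervalIntegral.integral_congr fun s _ => ?_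
      show deriv (fun y => deriv (fun x => kap x s) y * h s) ξ = _
      rw [deriv_mul_const_field]
  -- the parity in `s`
  have hkx : deriv (fun x => kap x (1 - ξ)) ξ = deriv (fun x => kap x (ξ - 1)) ξ := by
    have h1 : (fun x => kap x (1 - ξ)) = fun x => kap x (ξ - 1) := by
      ext x
      rw [← kap_neg, neg_sub]
    rw [h1]
  have hks : deriv (kap ξ) (1 - ξ) = -deriv (kap ξ) (ξ - 1) := by
    have h1 : kap ξ = fun s => kap ξ (-s) := by
      ext s
      rw [kap_neg]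
    have h2 : deriv (fun s => kap ξ (-s)) (1 - ξ) = -deriv (kap ξ) (-(1 - ξ)) :=
      deriv_comp_neg (kap ξ) (1 - ξ)
    rw [← h1, neg_sub] at h2
    exact h2
  -- the derivative along the diagonal
  have hdiag : deriv (fun x => kap x (ξ - 1)) ξ + deriv (kap ξ) (ξ - 1) =
      -(1 / 4) * (√ξ * ξ)⁻¹ := by
    have hd : DifferentiableAt ℝ (fun p : ℝ × ℝ => kap p.1 p.2) (ξ, ξ - 1) :=
      RiePde_diff hO (hK2.of_le (by norm_num)) (hmemO ξ hξ hr (ξ - 1) le_rfl)
    have h1 : HasDerivAt (fun y : ℝ => (y, y - 1)) ((1 : ℝ), (1 : ℝ)) ξ :=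
      (hasDerivAt_id ξ).prodMk ((hasDerivAt_id ξ).sub_const 1)
    have h2 : HasDerivAt (fun y => kap y (y - 1))
        (fderiv ℝ (fun p : ℝ × ℝ => kap p.1 p.2) (ξ, ξ - 1) (1, 1)) ξ :=
      HasFDerivAt.comp_hasDerivAt (f := fun y : ℝ => (y, y - 1)) ξ hd.hasFDerivAt h1
    have h3 : (fun y => kap y (y - 1)) =ᶠ[𝓝 ξ] fun y => (2 * √y)⁻¹ := by
      filter_upwards [hnear] with y hy
      exact kap_diag hy.1
    have h4 : fderiv ℝ (fun p : ℝ × ℝ => kap p.1 p.2) (ξ, ξ - 1) (1, 1) =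
        -(1 / 4) * (√ξ * ξ)⁻¹ := by
      rw [← h2.deriv, h3.deriv_eq, hsq.deriv]
    have h5 : ((1 : ℝ), (1 : ℝ)) = (1, 0) + (0, 1) := by simp
    rw [h5, map_add] at h4
    have h6 := (RiePde_d1_eq hd).deriv
    have h7 := (RiePde_d2_eq hd).deriv
    simp only at h6 h7
    rw [← h4, ← h6, ← h7]
  -- integration by parts
  have hmemU : ∀ s ∈ uIcc (1 - ξ) (ξ - 1), |s| ≤ |ξ - 1| := by
    intro s hs
    have h1 : uIcc (1 - ξ) (ξ - 1) = Icc (-|ξ - 1|) |ξ - 1| := by
      rcases le_total (ξ - 1) 0 with h0 | h0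
      · rw [uIcc_of_ge (by linarith), abs_of_nonpos h0]
        congr 1 <;> ring
      · rw [uIcc_of_le (by linarith), abs_of_nonneg h0]
        congr 1; ring
    rw [h1] at hs
    exact abs_le.2 hs
  have hUO : ∀ s ∈ uIcc (1 - ξ) (ξ - 1), (ξ, s) ∈ O := fun s hs => hmemO ξ hξ hr s (hmemU s hs)
  have hKs1 : ContDiffOn ℝ 1 (fun p : ℝ × ℝ => deriv (fun s => kap p.1 s) p.2) O := by
    have := RiePde_d2_contDiffOn (n := 2) (m := 1) hO hK2 (by norm_num)
    exact this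
  have hKss : ContDiffOn ℝ 0 (fun p : ℝ × ℝ => deriv (fun t => deriv (fun s => kap p.1 s) t) p.2)
      O := by
    have := RiePde_d2_contDiffOn (n := 1) (m := 0) hO hKs1 (by norm_num)
    exact this
  have hKxx : ContDiffOn ℝ 0 (fun p : ℝ × ℝ => deriv (fun y => deriv (fun x => kap x p.2) y) p.1)
      O := by
    have := RiePde_d1_contDiffOn (n := 1) (m := 0) hO hKx (by norm_num)
    exact this
  have hsec : Continuous (fun s : ℝ => ((ξ, s) : ℝ × ℝ)) := continuous_const.prodMk continuous_id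
  have hkd : ∀ s ∈ uIcc (1 - ξ) (ξ - 1), HasDerivAt (kap ξ) (deriv (kap ξ) s) s := by
    intro s hs
    have h1 := RiePde_d2_eq (RiePde_diff hO (hK2.of_le (by norm_num)) (hUO s hs))
    rw [h1.deriv.symm] at h1
    exact h1
  have hkd2 : ∀ s ∈ uIcc (1 - ξ) (ξ - 1),
      HasDerivAt (deriv (kap ξ)) (deriv (deriv (kap ξ)) s) s := by
    intro s hs
    have h1 := RiePde_d2_eq (RiePde_diff hO hKs1 (hUO s hs))
    rw [h1.deriv.symm] at h1
    exact h1
  have hparts : ∀ s ∈ uIcc (1 - ξ) (ξ - 1),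
      HasDerivAt (fun s => deriv (kap ξ) s * h s - kap ξ s * deriv h s)
        (deriv (deriv (kap ξ)) s * h s - kap ξ s * deriv (deriv h) s) s := by
    intro s hs
    have hs' : |s| < r := (hmemU s hs).trans_lt hr
    have h1 : HasDerivAt (fun s => deriv (kap ξ) s * h s - kap ξ s * deriv h s) _ s :=
      ((hkd2 s hs).mul (hhd s hs')).sub ((hkd s hs).mul (hhd2 s hs'))
    exact h1.congr_deriv (by ring)
  have ck : ContinuousOn (kap ξ) (uIcc (1 - ξ) (ξ - 1)) :=
    fun s hs => (hkd s hs).continuousAt.continuousWithinAt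
  have ch : ContinuousOn h (uIcc (1 - ξ) (ξ - 1)) :=
    fun s hs => (hhd s ((hmemU s hs).trans_lt hr)).continuousAt.continuousWithinAt
  have chdd : ContinuousOn (deriv (deriv h)) (uIcc (1 - ξ) (ξ - 1)) := by
    have h1 : ContDiffOn ℝ 1 (deriv h) (Ioo (-r) r) := by
      have := hh.deriv_of_isOpen (m := 1) hI (by norm_num)
      exact this
    have h2 : ContDiffOn ℝ 0 (deriv (deriv h)) (Ioo (-r) r) := by
      have := h1.deriv_of_isOpen (m := 0) hI (by norm_num)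
      exact this
    exact h2.continuousOn.mono fun s hs => abs_lt.1 ((hmemU s hs).trans_lt hr)
  have ckss : ContinuousOn (deriv (deriv (kap ξ))) (uIcc (1 - ξ) (ξ - 1)) :=
    hKss.continuousOn.comp (f := fun s : ℝ => ((ξ, s) : ℝ × ℝ)) hsec.continuousOn hUO
  have ckx : ContinuousOn (fun s => deriv (fun x => kap x s) ξ) (uIcc (1 - ξ) (ξ - 1)) :=
    hKx.continuousOn.comp (f := fun s : ℝ => ((ξ, s) : ℝ × ℝ)) hsec.continuousOn hUO
  have ckxx : ContinuousOn (fun s => deriv (deriv fun x => kap x s) ξ)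
      (uIcc (1 - ξ) (ξ - 1)) :=
    hKxx.continuousOn.comp (f := fun s : ℝ => ((ξ, s) : ℝ × ℝ)) hsec.continuousOn hUO
  have I1 : IntervalIntegrable (fun s => deriv (deriv (kap ξ)) s * h s) volume (1 - ξ) (ξ - 1) :=
    (ckss.mul ch).intervalIntegrable
  have I2 : IntervalIntegrable (fun s => kap ξ s * deriv (deriv h) s) volume (1 - ξ) (ξ - 1) :=
    (ck.mul chdd).intervalIntegrable
  have I3 : IntervalIntegrable (fun s => deriv (fun x => kap x s) ξ * h s) volume
      (1 - ξ) (ξ - 1) := (ckx.mul ch).intervalIntegrable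
  have I4 : IntervalIntegrable (fun s => deriv (deriv fun x => kap x s) ξ * h s) volume
      (1 - ξ) (ξ - 1) := (ckxx.mul ch).intervalIntegrable
  have hIBP := intervalIntegral.integral_eq_sub_of_hasDerivAt hparts (I1.sub I2)
  rw [intervalIntegral.integral_sub I1 I2] at hIBP
  have hpde : ∫ s in (1 - ξ)..(ξ - 1), deriv (deriv (kap ξ)) s * h s =
      (∫ s in (1 - ξ)..(ξ - 1), deriv (deriv fun x => kap x s) ξ * h s) +
        (∫ s in (1 - ξ)..(ξ - 1), deriv (fun x => kap x s) ξ * h s) / ξ := by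
    rw [← intervalIntegral.integral_div, ← intervalIntegral.integral_add I4 (I3.div_const ξ)]
    refine intervalIntegral.integral_congr fun s hs => ?_
    have h1 := kap_pde (hUO s hs).1
    show deriv (deriv (kap ξ)) s * h s = _
    rw [← h1]
    ring
  rw [e2', hd1 ξ hξ hr, hkx]
  rw [hks] at hIBP
  have hkd1 : kap ξ (ξ - 1) = (2 * √ξ)⁻¹ := kap_diag hξ
  have hkd3 : kap ξ (1 - ξ) = (2 * √ξ)⁻¹ := by
    rw [← kap_neg, neg_sub, kap_diag hξ]
  rw [hkd1, hkd3] at hIBP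
  have hs2 : (2 * √ξ)⁻¹ / ξ = 2 * ((1 / 4) * (√ξ * ξ)⁻¹) := by
    have h0 : √ξ ≠ 0 := (Real.sqrt_pos.2 hξ).ne'
    field_simp
    norm_num
  have h9 : ((2 * √ξ)⁻¹ * (h (ξ - 1) + h (1 - ξ)) +
      ∫ s in (1 - ξ)..(ξ - 1), deriv (fun x => kap x s) ξ * h s) / ξ =
      2 * ((1 / 4) * (√ξ * ξ)⁻¹) * (h (ξ - 1) + h (1 - ξ)) +
      (∫ s in (1 - ξ)..(ξ - 1), deriv (fun x => kap x s) ξ * h s) / ξ := by
    rw [add_div, mul_div_right_comm, hs2]
  rw [h9]
  linear_combination (h (ξ - 1) + h (1 - ξ)) * hdiag + hIBP - hpde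

end FBQ
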