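import Pool.Agent.FBQ.Kernel

/-!
# The solution operator
-/

open MeasureTheory Metric Set Filter Topology
open scoped ContDiff

namespace FBQ

/-- The solution of `f'' + f'/ξ = ∫ κ h''`, `f(1) = 0`, `f'(1) = h(0)`. -/
noncomputable def RR (h : ℝ → ℝ) (ξ : ℝ) : ℝ := ∫ s in (1 - ξ)..(ξ - 1), kap ξ s * h s

theorem RR_one (h : ℝ → ℝ) : RR h 1 = 0 := by
  simp [RR]

private lemma Riemann_kap_cont {x : ℝ} {S : Set ℝ} (hS : ∀ s ∈ S, (x, s) ∈ domK) :
    ContinuousOn (fun s => kap x s) S := by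
  have h1 : ContinuousOn (fun p : ℝ × ℝ => kap p.1 p.2) domK := kap_contDiffOn.continuousOn
  have h2 : ContinuousOn (fun s : ℝ => ((x, s) : ℝ × ℝ)) S :=
    (continuous_const.prodMk continuous_id).continuousOn
  exact h1.comp h2 hS

theorem RR_deriv_one {h : ℝ → ℝ} {r : ℝ} (hr : 0 < r) (hh : ContDiffOn ℝ 2 h (Ioo (-r) r)) :
    deriv (RR h) 1 = h 0 := by
  refine HasDerivAt.deriv ?_
  rw [hasDerivAt_iff_isLittleO, Asymptotics.isLittleO_iff]
  intro ε hε
  have hmem : ((1 : ℝ), (0 : ℝ)) ∈ domK := by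
    refine ⟨?_, ?_⟩ <;> norm_num
  have hk0 : kap 1 0 = 1 / 2 := by
    have h1 := kap_diag (ξ := 1) one_pos
    norm_num at h1
    rw [h1]
  have hkc : ContinuousAt (fun p : ℝ × ℝ => kap p.1 p.2) ((1 : ℝ), (0 : ℝ)) :=
    kap_contDiffOn.continuousOn.continuousAt (isOpen_domK.mem_nhds hmem)
  have hc0 : ContinuousAt h 0 :=
    hh.continuousOn.continuousAt (Ioo_mem_nhds (by linarith) hr)
  have hhc : ContinuousAt (fun p : ℝ × ℝ => h p.2) ((1 : ℝ), (0 : ℝ)) :=
    ContinuousAt.comp (f := fun p : ℝ × ℝ => p.2) (g := h) hc0 continuousAt_snd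
  have hc : ContinuousAt (fun p : ℝ × ℝ => kap p.1 p.2 * h p.2) ((1 : ℝ), (0 : ℝ)) :=
    hkc.mul hhc
  obtain ⟨δ, hδ, hδ'⟩ := Metric.continuousAt_iff.1 hc (ε / 2) (by positivity)
  have hρ : 0 < min (min δ r) (1 / 2) := by positivity
  filter_upwards [Metric.ball_mem_nhds (1 : ℝ) hρ] with x hx
  rw [mem_ball, Real.dist_eq] at hx
  have hx1 : |x - 1| < δ := hx.trans_le ((min_le_left _ _).trans (min_le_left _ _))
  have hx2 : |x - 1| < r := hx.trans_le ((min_le_left _ _).trans (min_le_right _ _))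
  have hx3 : |x - 1| < 1 / 2 := hx.trans_le (min_le_right _ _)
  have hsub : ∀ s ∈ uIcc (1 - x) (x - 1), |s| ≤ |x - 1| := by
    intro s hs
    have h1 : uIcc (1 - x) (x - 1) = Icc (-|x - 1|) |x - 1| := by
      rcases le_total (x - 1) 0 with h0 | h0
      · rw [uIcc_of_ge (by linarith), abs_of_nonpos h0]
        congr 1 <;> ring
      · rw [uIcc_of_le (by linarith), abs_of_nonneg h0]
        congr 1; ring
    rw [h1] at hs
    exact abs_le.2 hs
  have hdom : ∀ s ∈ uIcc (1 - x) (x - 1), (x, s) ∈ domK := by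
    intro s hs
    have h1 := hsub s hs
    have h2 := (abs_lt.1 hx3).1
    refine ⟨?_, ?_⟩
    · show 0 < x
      linarith
    · show |s| < x + 1
      linarith
  have hcont : ContinuousOn (fun s => kap x s * h s) (uIcc (1 - x) (x - 1)) := by
    refine (Riemann_kap_cont hdom).mul (hh.continuousOn.mono ?_)
    intro s hs
    have h1 := (hsub s hs).trans_lt hx2
    exact ⟨(abs_lt.1 h1).1, (abs_lt.1 h1).2⟩
  have hint : IntervalIntegrable (fun s => kap x s * h s) volume (1 - x) (x - 1) :=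
    hcont.intervalIntegrable
  have hcst : ∫ _ in (1 - x)..(x - 1), (kap 1 0 * h 0) = (x - 1) * h 0 := by
    rw [intervalIntegral.integral_const, smul_eq_mul, hk0]; ring
  have hkey : RR h x - RR h 1 - (x - 1) • h 0
      = ∫ s in (1 - x)..(x - 1), (kap x s * h s - kap 1 0 * h 0) := by
    rw [intervalIntegral.integral_sub hint intervalIntegrable_const, hcst, RR_one, smul_eq_mul,
      sub_zero]
    rfl
  rw [hkey]
  have hbd : ‖∫ s in (1 - x)..(x - 1), (kap x s * h s - kap 1 0 * h 0)‖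
      ≤ ε / 2 * |(x - 1) - (1 - x)| := by
    refine intervalIntegral.norm_integral_le_of_norm_le_const ?_
    intro s hs
    have hs' : s ∈ uIcc (1 - x) (x - 1) := uIoc_subset_uIcc hs
    have h1 := hsub s hs'
    have h2 : dist ((x, s) : ℝ × ℝ) ((1 : ℝ), (0 : ℝ)) < δ := by
      rw [Prod.dist_eq]
      refine max_lt ?_ ?_
      · rw [Real.dist_eq]; exact hx1
      · rw [Real.dist_eq, sub_zero]; exact h1.trans_lt hx1
    have h3 := hδ' h2
    rw [Real.dist_eq] at h3
    exact h3.le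
  refine hbd.trans (le_of_eq ?_)
  have h4 : (x - 1) - (1 - x) = 2 * (x - 1) := by ring
  rw [h4, abs_mul, abs_two, Real.norm_eq_abs]
  ring

/-- Positivity. -/
theorem RR_pos {h : ℝ → ℝ} {ξ : ℝ} (hξ : 1 < ξ) (hc : ContinuousOn h (Icc (1 - ξ) (ξ - 1)))
    (hp : ∀ s ∈ Icc 0 (ξ - 1), 0 < h s + h (-s)) : 0 < RR h ξ := by
  have hdom : ∀ s ∈ Icc (1 - ξ) (ξ - 1), (ξ, s) ∈ domK := by
    intro s hs
    refine ⟨?_, ?_⟩
    · show 0 < ξ
      linarith
    · show |s| < ξ + 1
      rw [abs_lt]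
      exact ⟨by linarith [hs.1], by linarith [hs.2]⟩
  have hcont : ContinuousOn (fun s => kap ξ s * h s) (Icc (1 - ξ) (ξ - 1)) :=
    (Riemann_kap_cont hdom).mul hc
  have hI1 : IntervalIntegrable (fun s => kap ξ s * h s) volume (1 - ξ) 0 := by
    refine (hcont.mono ?_).intervalIntegrable
    rw [uIcc_of_le (by linarith)]
    exact Icc_subset_Icc le_rfl (by linarith)
  have hI2 : IntervalIntegrable (fun s => kap ξ s * h s) volume 0 (ξ - 1) := by
    refine (hcont.mono ?_).intervalIntegrable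
    rw [uIcc_of_le (by linarith)]
    exact Icc_subset_Icc (by linarith) le_rfl
  have hneg : ∫ s in (1 - ξ)..0, kap ξ s * h s = ∫ s in (0 : ℝ)..(ξ - 1), kap ξ s * h (-s) := by
    have h1 := intervalIntegral.integral_comp_neg (a := 0) (b := ξ - 1)
      (fun s => kap ξ s * h s)
    simp only [kap_neg, neg_zero, neg_sub] at h1
    exact h1.symm
  have hI3 : IntervalIntegrable (fun s => kap ξ s * h (-s)) volume 0 (ξ - 1) := by
    have hk : ContinuousOn (fun s => kap ξ s) (uIcc 0 (ξ - 1)) := by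
      refine Riemann_kap_cont ?_
      intro s hs
      rw [uIcc_of_le (by linarith)] at hs
      exact hdom s ⟨by linarith [hs.1], hs.2⟩
    have hh : ContinuousOn (fun s => h (-s)) (uIcc 0 (ξ - 1)) := by
      refine hc.comp continuous_neg.continuousOn ?_
      intro s hs
      rw [uIcc_of_le (by linarith)] at hs
      exact ⟨by linarith [hs.2], by linarith [hs.1]⟩
    exact (hk.mul hh).intervalIntegrable
  have hRR : RR h ξ = ∫ s in (0 : ℝ)..(ξ - 1), kap ξ s * (h s + h (-s)) := by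
    unfold RR
    rw [← intervalIntegral.integral_add_adjacent_intervals hI1 hI2, hneg, add_comm,
      ← intervalIntegral.integral_add hI2 hI3]
    refine intervalIntegral.integral_congr fun s _ => ?_
    ring
  rw [hRR]
  refine intervalIntegral.intervalIntegral_pos_of_pos_on ?_ ?_ (by linarith)
  · have h1 := hI2.add hI3
    refine h1.congr fun s _ => ?_
    show kap ξ s * h s + kap ξ s * h (-s) = kap ξ s * (h s + h (-s))
    ring
  · intro s hs
    have hs' : s ∈ Icc 0 (ξ - 1) := ⟨hs.1.le, hs.2.le⟩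
    exact mul_pos (kap_pos (hdom s ⟨by linarith [hs.1], hs.2.le⟩)) (hp s hs')

end FBQ
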