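import Pool.Agent.FBQ.RiePde
import Pool.Agent.FBQ.Potential

/-!
# The solution in parabolic coordinates
-/

open MeasureTheory Metric Set Filter Topology
open scoped ContDiff

namespace FBQ

theorem isOpen_domF : IsOpen domF := by
  have h1 : IsOpen {p : ℝ × ℝ | 0 < p.1} := isOpen_lt continuous_const continuous_fst
  have h2 : IsOpen {p : ℝ × ℝ | -(1 / 16) < p.2} := isOpen_lt continuous_const continuous_snd
  have h3 : IsOpen {p : ℝ × ℝ | (p.1 - 1) ^ 2 < 1 / 4 + p.2} :=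
    isOpen_lt (by fun_prop) (by fun_prop)
  exact h1.inter (h2.inter h3)

private lemma Sol2_domK {ξ s : ℝ} (hξ : 0 < ξ) (hs : |s| ≤ |ξ - 1|) : (ξ, s) ∈ domK := by
  refine ⟨hξ, ?_⟩
  show |s| < ξ + 1
  refine hs.trans_lt ?_
  rw [abs_lt]
  constructor <;> linarith

private lemma Sol2_scaled (ξ b : ℝ) :
    FF ξ b = ∫ t in (-1 : ℝ)..1,
      (ξ - 1) * (kap ξ ((ξ - 1) * t) * Ph (1 - (ξ - 1) * t) b) := by
  have h := intervalIntegral.smul_integral_comp_mul_left (a := -1) (b := 1)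
    (fun s => kap ξ s * Ph (1 - s) b) (ξ - 1)
  rw [smul_eq_mul, ← intervalIntegral.integral_const_mul] at h
  rw [h]
  unfold FF
  congr 1 <;> ring

private lemma Sol2_abs_le {ξ t : ℝ} (ht : t ∈ uIcc (-1 : ℝ) 1) : |(ξ - 1) * t| ≤ |ξ - 1| := by
  rw [uIcc_of_le (by norm_num)] at ht
  rw [abs_mul]
  exact mul_le_of_le_one_right (abs_nonneg _) (abs_le.2 ht)

theorem FF_contDiffOn : ContDiffOn ℝ 2 (fun p : ℝ × ℝ => FF p.1 p.2) domF := by
  set m1 : (ℝ × ℝ) × ℝ → ℝ × ℝ := fun q => (q.1.1, (q.1.1 - 1) * q.2) with hm1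
  set m2 : (ℝ × ℝ) × ℝ → ℝ × ℝ := fun q => (1 - (q.1.1 - 1) * q.2, q.1.2) with hm2
  have c1 : ContDiff ℝ 2 m1 := by
    rw [hm1]; fun_prop
  have c2 : ContDiff ℝ 2 m2 := by
    rw [hm2]; fun_prop
  have hO : IsOpen (m1 ⁻¹' domK ∩ m2 ⁻¹' domP) :=
    (isOpen_domK.preimage c1.continuous).inter (isOpen_domP.preimage c2.continuous)
  have hg : ContDiffOn ℝ 2 (fun q : (ℝ × ℝ) × ℝ =>
      (q.1.1 - 1) * (kap q.1.1 ((q.1.1 - 1) * q.2) * Ph (1 - (q.1.1 - 1) * q.2) q.1.2))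
      (m1 ⁻¹' domK ∩ m2 ⁻¹' domP) := by
    have k1 : ContDiffOn ℝ 2 (fun q : (ℝ × ℝ) × ℝ => kap q.1.1 ((q.1.1 - 1) * q.2))
        (m1 ⁻¹' domK ∩ m2 ⁻¹' domP) :=
      kap_contDiffOn.comp c1.contDiffOn (fun q hq => hq.1)
    have k2 : ContDiffOn ℝ 2 (fun q : (ℝ × ℝ) × ℝ => Ph (1 - (q.1.1 - 1) * q.2) q.1.2)
        (m1 ⁻¹' domK ∩ m2 ⁻¹' domP) :=
      Ph_contDiffOn.comp c2.contDiffOn (fun q hq => hq.2)
    have k0 : ContDiff ℝ 2 (fun q : (ℝ × ℝ) × ℝ => q.1.1 - 1) := by fun_prop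
    exact k0.contDiffOn.mul (k1.mul k2)
  have h := param_contDiffOn (E := ℝ × ℝ) hO hg (a := -1) (b := 1) isOpen_domF
    (fun x hx t ht => ⟨Sol2_domK hx.1 (Sol2_abs_le ht),
      domP_of_domF (ξ := x.1) (b := x.2) hx (Sol2_abs_le ht)⟩)
  refine h.congr fun p _ => ?_
  exact Sol2_scaled p.1 p.2

theorem FF_one (b : ℝ) : FF 1 b = 0 := by
  simp [FF]

private lemma Sol2_domP {b s : ℝ} (hb : -(1 / 16) < b) (hs : |s| < √(1 / 4 + b)) :
    (1 - s, b) ∈ domP := by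
  have h0 : |s| ^ 2 < 1 / 4 + b := (Real.lt_sqrt (abs_nonneg s)).1 hs
  refine domP_of_domF (ξ := 1 + |s|) ⟨?_, hb, ?_⟩ ?_
  · show 0 < 1 + |s|
    have := abs_nonneg s
    linarith
  · show (1 + |s| - 1) ^ 2 < 1 / 4 + b
    rw [add_sub_cancel_left]
    exact h0
  · rw [add_sub_cancel_left, abs_abs]

private lemma Sol2_h_contDiffOn {b : ℝ} (hb : -(1 / 16) < b) :
    ContDiffOn ℝ 2 (fun s => Ph (1 - s) b) (Ioo (-√(1 / 4 + b)) (√(1 / 4 + b))) := by
  have c : ContDiff ℝ 2 (fun s : ℝ => ((1 - s, b) : ℝ × ℝ)) := by fun_prop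
  exact Ph_contDiffOn.comp c.contDiffOn (fun s hs => Sol2_domP hb (abs_lt.2 hs))

theorem FF_deriv_one {b : ℝ} (hb : -(1 / 16) < b) : deriv (fun x => FF x b) 1 = √(1 + b) := by
  have h := RR_deriv_one (h := fun s => Ph (1 - s) b) (r := √(1 / 4 + b))
    (Real.sqrt_pos.2 (by linarith)) (Sol2_h_contDiffOn hb)
  have h1 : (fun x => FF x b) = RR (fun s => Ph (1 - s) b) := rfl
  rw [h1, h, sub_zero, Ph_one]

theorem FF_pos {ξ b : ℝ} (hξ : 1 < ξ) (hb : 0 ≤ b) (h : (ξ - 1) ^ 2 < 1 / 4 + b) :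
    0 < FF ξ b := by
  have hsq : ∀ s : ℝ, |s| ≤ ξ - 1 → |s| < √(1 / 4 + b) := by
    intro s hs
    rw [Real.lt_sqrt (abs_nonneg s)]
    exact (pow_le_pow_left₀ (abs_nonneg s) hs 2).trans_lt h
  have hc : ContinuousOn (fun s => Ph (1 - s) b) (Icc (1 - ξ) (ξ - 1)) := by
    refine (Sol2_h_contDiffOn (b := b) (by linarith)).continuousOn.mono ?_
    intro s hs
    exact abs_lt.1 (hsq s (abs_le.2 ⟨by linarith [hs.1], hs.2⟩))
  refine RR_pos (h := fun s => Ph (1 - s) b) hξ hc ?_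
  intro s hs
  have h1 : |s| ≤ ξ - 1 := abs_le.2 ⟨by linarith [hs.1], hs.2⟩
  have h2 : s ^ 2 < 1 / 4 + b := by
    rw [← sq_abs]
    exact (Real.lt_sqrt (abs_nonneg s)).1 (hsq s h1)
  have h3 := Ph_pos hb h2
  show 0 < Ph (1 - s) b + Ph (1 - -s) b
  rwa [sub_neg_eq_add]

/-! ### Differentiation under the integral, in one variable -/

private lemma Sol2_d1_eq {f : ℝ × ℝ → ℝ} {p : ℝ × ℝ} (hf : DifferentiableAt ℝ f p) :
    HasDerivAt (fun x => f (x, p.2)) (fderiv ℝ f p (1, 0)) p.1 := by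
  have h1 : HasDerivAt (fun x : ℝ => (x, p.2)) ((1 : ℝ), (0 : ℝ)) p.1 :=
    (hasDerivAt_id _).prodMk (hasDerivAt_const _ _)
  have h2 : HasFDerivAt f (fderiv ℝ f p) ((fun x : ℝ => (x, p.2)) p.1) := by
    simpa using hf.hasFDerivAt
  exact h2.comp_hasDerivAt p.1 h1

private lemma Sol2_d1_contDiffOn {f : ℝ × ℝ → ℝ} {O : Set (ℝ × ℝ)} (hO : IsOpen O) {n m : ℕ∞}
    (hf : ContDiffOn ℝ n f O) (hmn : (m : WithTop ℕ∞) + 1 ≤ n) :
    ContDiffOn ℝ m (fun p => deriv (fun x => f (x, p.2)) p.1) O := by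
  have h1 : ContDiffOn ℝ m (fun p => fderiv ℝ f p (1, 0)) O :=
    (hf.fderiv_of_isOpen hO hmn).clm_apply contDiffOn_const
  refine h1.congr fun p hp => ?_
  have hne : (n : WithTop ℕ∞) ≠ 0 := by
    rintro h0
    rw [h0] at hmn
    simp at hmn
  have h2 : DifferentiableAt ℝ f p :=
    ((hf.differentiableOn hne) p hp).differentiableAt (hO.mem_nhds hp)
  exact (Sol2_d1_eq h2).deriv

private lemma Sol2_param {f : ℝ × ℝ → ℝ} {O : Set (ℝ × ℝ)} (hO : IsOpen O)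
    (hf : ContDiffOn ℝ 1 f O) {x₀ a b : ℝ} (h : ∀ s ∈ uIcc a b, (x₀, s) ∈ O) :
    HasDerivAt (fun x => ∫ s in a..b, f (x, s))
      (∫ s in a..b, deriv (fun x => f (x, s)) x₀) x₀ := by
  obtain ⟨u, v, hu, hv, hxu, hbv, huv⟩ := generalized_tube_lemma (s := {x₀}) (t := uIcc a b)
    isCompact_singleton isCompact_uIcc hO (by
      rintro ⟨x, s⟩ ⟨hx, hs⟩
      rw [mem_singleton_iff] at hx
      simp only at hx hs
      rw [hx]
      exact h s hs)
  obtain ⟨δ, hδ, hδu⟩ := Metric.nhds_basis_closedBall.mem_iff.1 (hu.mem_nhds (hxu rfl))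
  have hsub : closedBall x₀ δ ×ˢ uIcc a b ⊆ O := (prod_mono hδu hbv).trans huv
  have hd : ContDiffOn ℝ 0 (fun p : ℝ × ℝ => deriv (fun x => f (x, p.2)) p.1) O := by
    have := Sol2_d1_contDiffOn (n := 1) (m := 0) hO hf (by simp)
    exact this
  have hdc : ContinuousOn (fun p : ℝ × ℝ => deriv (fun x => f (x, p.2)) p.1) O := hd.continuousOn
  obtain ⟨C, hC⟩ := ((isCompact_closedBall x₀ δ).prod isCompact_uIcc).exists_bound_of_continuousOn
    (hdc.mono hsub)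
  have hslice : ∀ x ∈ closedBall x₀ δ, ContinuousOn (fun s => f (x, s)) (uIcc a b) := by
    intro x hx
    exact hf.continuousOn.comp (continuous_const.prodMk continuous_id).continuousOn
      (fun s hs => hsub ⟨hx, hs⟩)
  have hslice' : ContinuousOn (fun s => deriv (fun x => f (x, s)) x₀) (uIcc a b) := by
    exact hdc.comp (f := fun s : ℝ => ((x₀, s) : ℝ × ℝ))
      (continuous_const.prodMk continuous_id).continuousOn (fun s hs => h s hs)
  refine (intervalIntegral.hasDerivAt_integral_of_dominated_loc_of_deriv_le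
    (F := fun x s => f (x, s)) (F' := fun x s => deriv (fun x => f (x, s)) x)
    (bound := fun _ => C) (s := ball x₀ δ) (ball_mem_nhds x₀ hδ) ?_ ?_ ?_ ?_ ?_ ?_).2
  · filter_upwards [ball_mem_nhds x₀ hδ] with x hx
    exact ((hslice x (ball_subset_closedBall hx)).mono uIoc_subset_uIcc).aestronglyMeasurable
      measurableSet_uIoc
  · exact (hslice x₀ (mem_closedBall_self hδ.le)).intervalIntegrable
  · exact (hslice'.mono uIoc_subset_uIcc).aestronglyMeasurable measurableSet_uIoc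
  · refine ae_of_all _ fun s hs x hx => ?_
    exact hC (x, s) ⟨ball_subset_closedBall hx, uIoc_subset_uIcc hs⟩
  · exact intervalIntegrable_const
  · refine ae_of_all _ fun s hs x hx => ?_
    have hp : (x, s) ∈ O := hsub ⟨ball_subset_closedBall hx, uIoc_subset_uIcc hs⟩
    have h2 : DifferentiableAt ℝ f (x, s) :=
      ((hf.differentiableOn (by norm_num)) (x, s) hp).differentiableAt (hO.mem_nhds hp)
    have h3 := Sol2_d1_eq h2
    rw [h3.deriv.symm] at h3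
    exact h3

private lemma Sol2_param2 {f : ℝ × ℝ → ℝ} {O : Set (ℝ × ℝ)} (hO : IsOpen O)
    (hf : ContDiffOn ℝ 2 f O) {x₀ a b : ℝ} (h : ∀ s ∈ uIcc a b, (x₀, s) ∈ O) :
    deriv (deriv fun x => ∫ s in a..b, f (x, s)) x₀ =
      ∫ s in a..b, deriv (deriv fun x => f (x, s)) x₀ := by
  obtain ⟨u, v, hu, hv, hxu, hbv, huv⟩ := generalized_tube_lemma (s := {x₀}) (t := uIcc a b)
    isCompact_singleton isCompact_uIcc hO (by
      rintro ⟨x, s⟩ ⟨hx, hs⟩
      rw [mem_singleton_iff] at hx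
      simp only at hx hs
      rw [hx]
      exact h s hs)
  have hf1 : ContDiffOn ℝ 1 f O := hf.of_le (by norm_num)
  have h1 : deriv (fun x => ∫ s in a..b, f (x, s)) =ᶠ[𝓝 x₀]
      fun x => ∫ s in a..b, (fun p : ℝ × ℝ => deriv (fun x => f (x, p.2)) p.1) (x, s) := by
    filter_upwards [hu.mem_nhds (hxu rfl)] with x hx
    exact (Sol2_param hO hf1 (fun s hs => huv ⟨hx, hbv hs⟩)).deriv
  rw [h1.deriv_eq]
  have hd : ContDiffOn ℝ 1 (fun p : ℝ × ℝ => deriv (fun x => f (x, p.2)) p.1) O := by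
    have := Sol2_d1_contDiffOn (n := 2) (m := 1) hO hf (by norm_num)
    exact this
  exact (Sol2_param hO hd h).deriv

/-- `F_ξξ + F_ξ / ξ + 4 (b F_b)_b = 0`. -/
theorem FF_pde {ξ b : ℝ} (h : (ξ, b) ∈ domF) :
    deriv (deriv fun x => FF x b) ξ + deriv (fun x => FF x b) ξ / ξ +
      4 * (b * deriv (deriv (FF ξ)) b + deriv (FF ξ) b) = 0 := by
  obtain ⟨hξ, hb, hξb⟩ := h
  simp only at hξ hb hξb
  have hdom : ∀ s ∈ uIcc (1 - ξ) (ξ - 1), |s| ≤ |ξ - 1| := by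
    intro s hs
    have h1 : uIcc (1 - ξ) (ξ - 1) = Icc (-|ξ - 1|) |ξ - 1| := by
      rcases le_total (ξ - 1) 0 with h0 | h0
      · rw [uIcc_of_ge (by linarith), abs_of_nonpos h0]
        congr 1 <;> ring
      · rw [uIcc_of_le (by linarith), abs_of_nonneg h0]
        congr 1; ring
    rw [h1] at hs
    exact abs_le.2 hs
  have hK : ∀ s ∈ uIcc (1 - ξ) (ξ - 1), (ξ, s) ∈ domK := fun s hs => Sol2_domK hξ (hdom s hs)
  have hP : ∀ s ∈ uIcc (1 - ξ) (ξ - 1), (1 - s, b) ∈ domP := fun s hs =>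
    domP_of_domF (ξ := ξ) (b := b) ⟨hξ, hb, hξb⟩ (hdom s hs)
  have hr : |ξ - 1| < √(1 / 4 + b) := by
    rw [Real.lt_sqrt (abs_nonneg _), sq_abs]
    exact hξb
  -- the derivatives in `ξ`
  have e1 := RR_pde (h := fun s => Ph (1 - s) b) (Sol2_h_contDiffOn hb) hξ hr
  have e1' : deriv (deriv fun x => FF x b) ξ + deriv (fun x => FF x b) ξ / ξ =
      ∫ s in (1 - ξ)..(ξ - 1), kap ξ s * deriv (deriv fun x => Ph x b) (1 - s) := by
    refine e1.trans ?_
    refine intervalIntegral.integral_congr fun s _ => ?_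
    have h2 : (deriv fun s => Ph (1 - s) b) = fun s => -deriv (fun x => Ph x b) (1 - s) := by
      ext s
      exact deriv_comp_const_sub (fun x => Ph x b) 1 s
    have h3 : deriv (deriv fun s => Ph (1 - s) b) s = deriv (deriv fun x => Ph x b) (1 - s) := by
      rw [h2, deriv.fun_neg, deriv_comp_const_sub (fun x => deriv (fun x => Ph x b) x) 1 s, neg_neg]
    show kap ξ s * deriv (deriv fun s => Ph (1 - s) b) s = _
    rw [h3]
  -- the derivatives in `b`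
  set m1 : ℝ × ℝ → ℝ × ℝ := fun q => (ξ, q.2) with hm1
  set m2 : ℝ × ℝ → ℝ × ℝ := fun q => (1 - q.2, q.1) with hm2
  have c1 : ContDiff ℝ 2 m1 := by
    rw [hm1]; fun_prop
  have c2 : ContDiff ℝ 2 m2 := by
    rw [hm2]; fun_prop
  have hO : IsOpen (m1 ⁻¹' domK ∩ m2 ⁻¹' domP) :=
    (isOpen_domK.preimage c1.continuous).inter (isOpen_domP.preimage c2.continuous)
  have k1 : ContDiffOn ℝ 2 (fun q : ℝ × ℝ => kap ξ q.2) (m1 ⁻¹' domK ∩ m2 ⁻¹' domP) :=
    kap_contDiffOn.comp c1.contDiffOn (fun q hq => hq.1)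
  have k2 : ContDiffOn ℝ 2 (fun q : ℝ × ℝ => Ph (1 - q.2) q.1) (m1 ⁻¹' domK ∩ m2 ⁻¹' domP) :=
    Ph_contDiffOn.comp c2.contDiffOn (fun q hq => hq.2)
  have hg : ContDiffOn ℝ 2 (fun q : ℝ × ℝ => kap ξ q.2 * Ph (1 - q.2) q.1)
      (m1 ⁻¹' domK ∩ m2 ⁻¹' domP) := k1.mul k2
  have hmem : ∀ s ∈ uIcc (1 - ξ) (ξ - 1), (b, s) ∈ m1 ⁻¹' domK ∩ m2 ⁻¹' domP :=
    fun s hs => ⟨hK s hs, hP s hs⟩
  have hFF : (FF ξ) = fun x => ∫ s in (1 - ξ)..(ξ - 1),
      (fun q : ℝ × ℝ => kap ξ q.2 * Ph (1 - q.2) q.1) (x, s) := rfl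
  have e2 := (Sol2_param hO (hg.of_le (by norm_num)) hmem).deriv
  have e3 := Sol2_param2 hO hg hmem
  rw [← hFF] at e2 e3
  have e2' : deriv (FF ξ) b = ∫ s in (1 - ξ)..(ξ - 1), kap ξ s * deriv (Ph (1 - s)) b := by
    rw [e2]
    refine intervalIntegral.integral_congr fun s _ => ?_
    show deriv (fun x => kap ξ s * Ph (1 - s) x) b = _
    rw [deriv_const_mul_field]
  have e3' : deriv (deriv (FF ξ)) b =
      ∫ s in (1 - ξ)..(ξ - 1), kap ξ s * deriv (deriv (Ph (1 - s))) b := by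
    rw [e3]
    refine intervalIntegral.integral_congr fun s _ => ?_
    show deriv (deriv fun x => kap ξ s * Ph (1 - s) x) b = _
    have h2 : (deriv fun x => kap ξ s * Ph (1 - s) x) = fun x => kap ξ s * deriv (Ph (1 - s)) x := by
      ext x
      rw [deriv_const_mul_field]
    rw [h2, deriv_const_mul_field]
  -- integrability
  have hk : ContinuousOn (fun s => kap ξ s) (uIcc (1 - ξ) (ξ - 1)) :=
    kap_contDiffOn.continuousOn.comp (f := fun s : ℝ => ((ξ, s) : ℝ × ℝ))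
      (continuous_const.prodMk continuous_id).continuousOn hK
  have d1 : ContDiffOn ℝ 1 (fun p : ℝ × ℝ => deriv (fun x => (fun q : ℝ × ℝ => Ph (1 - q.2) q.1)
      (x, p.2)) p.1) (m1 ⁻¹' domK ∩ m2 ⁻¹' domP) := by
    have := Sol2_d1_contDiffOn (n := 2) (m := 1) hO k2 (by norm_num)
    exact this
  have d2 : ContDiffOn ℝ 0 (fun p : ℝ × ℝ => deriv (fun y => deriv (fun x =>
      (fun q : ℝ × ℝ => Ph (1 - q.2) q.1) (x, p.2)) y) p.1) (m1 ⁻¹' domK ∩ m2 ⁻¹' domP) := by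
    have := Sol2_d1_contDiffOn (n := 1) (m := 0) hO d1 (by norm_num)
    exact this
  have hsec : Continuous (fun s : ℝ => ((b, s) : ℝ × ℝ)) := continuous_const.prodMk continuous_id
  have i1 : ContinuousOn (fun s => deriv (Ph (1 - s)) b) (uIcc (1 - ξ) (ξ - 1)) :=
    d1.continuousOn.comp (f := fun s : ℝ => ((b, s) : ℝ × ℝ)) hsec.continuousOn hmem
  have i2 : ContinuousOn (fun s => deriv (deriv (Ph (1 - s))) b) (uIcc (1 - ξ) (ξ - 1)) :=
    d2.continuousOn.comp (f := fun s : ℝ => ((b, s) : ℝ × ℝ)) hsec.continuousOn hmem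
  have I1 : IntervalIntegrable (fun s => kap ξ s * deriv (Ph (1 - s)) b) volume (1 - ξ) (ξ - 1) :=
    (hk.mul i1).intervalIntegrable
  have I2 : IntervalIntegrable (fun s => kap ξ s * deriv (deriv (Ph (1 - s))) b) volume
      (1 - ξ) (ξ - 1) := (hk.mul i2).intervalIntegrable
  have hsum : ∀ s ∈ uIcc (1 - ξ) (ξ - 1),
      kap ξ s * deriv (deriv fun x => Ph x b) (1 - s) =
        -(4 * (b * (kap ξ s * deriv (deriv (Ph (1 - s))) b) + kap ξ s * deriv (Ph (1 - s)) b)) := by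
    intro s hs
    have h2 := Ph_pde (hP s hs)
    linear_combination kap ξ s * h2
  rw [e1', e2', e3', intervalIntegral.integral_congr (g := fun s =>
    -(4 * (b * (kap ξ s * deriv (deriv (Ph (1 - s))) b) + kap ξ s * deriv (Ph (1 - s)) b)))
    (fun s hs => hsum s hs), intervalIntegral.integral_neg, intervalIntegral.integral_const_mul,
    intervalIntegral.integral_add (I2.const_mul b) I1, intervalIntegral.integral_const_mul]
  ring

end FBQ
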