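import Pool.Agent.FBQ.Sol2
import Pool.Agent.FBQ.LapComp

/-!
# The solution in space
-/

open MeasureTheory Metric Set Filter Topology InnerProductSpace Laplacian
open scoped ContDiff

namespace FBQ

/-- The region of space corresponding to `domF`. -/
def reg (e : E3) : Set E3 := {x | 0 < aa e x ∧ (√(aa e x) - 1) ^ 2 < 1 / 4 + bb e x}

private theorem sol3_cont_aa (e : E3) : Continuous (aa e) := by
  unfold aa
  fun_prop

private theorem sol3_cont_bb (e : E3) : Continuous (bb e) := by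
  unfold bb
  fun_prop

private theorem sol3_bb_nonneg {e : E3} (he : ‖e‖ = 1) (x : E3) : 0 ≤ bb e x := by
  unfold bb
  have h := real_inner_le_norm x e
  rw [he, mul_one] at h
  linarith

theorem isOpen_reg (e : E3) : IsOpen (reg e) := by
  have h1 : IsOpen {x : E3 | 0 < aa e x} := isOpen_lt continuous_const (sol3_cont_aa e)
  have h2 : IsOpen {x : E3 | (√(aa e x) - 1) ^ 2 < 1 / 4 + bb e x} :=
    isOpen_lt (((Real.continuous_sqrt.comp (sol3_cont_aa e)).sub continuous_const).pow 2)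
      (continuous_const.add (sol3_cont_bb e))
  exact h1.inter h2

theorem mem_reg {e x : E3} (he : ‖e‖ = 1) (hx : inner ℝ x e < 5 / 8) (ha : 1 ≤ aa e x) :
    x ∈ reg e := by
  refine ⟨by linarith, ?_⟩
  have h1 : 1 ≤ √(aa e x) := Real.one_le_sqrt.2 ha
  have h2 : √(aa e x) ^ 2 = aa e x := Real.sq_sqrt (by linarith)
  have h3 : bb e x = aa e x - 2 * inner ℝ x e := by
    unfold aa bb
    ring
  rw [h3]
  nlinarith

private theorem sol3_mem_domF {e x : E3} (he : ‖e‖ = 1) (hx : x ∈ reg e) :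
    (√(aa e x), bb e x) ∈ domF := by
  refine ⟨Real.sqrt_pos.2 hx.1, ?_, hx.2⟩
  have := sol3_bb_nonneg he x
  show -(1 / 16) < bb e x
  linarith

private theorem sol3_ne {e x : E3} (he : ‖e‖ = 1) (ha : 0 < aa e x) : x ≠ 0 :=
  norm_pos_iff.1 (norm_pos_of_aa he ha)

private theorem sol3_contDiffAt_F {p : ℝ × ℝ} (hp : p ∈ domF) :
    ContDiffAt ℝ 2 (fun p : ℝ × ℝ => FF p.1 p.2) p :=
  FF_contDiffOn.contDiffAt (isOpen_domF.mem_nhds hp)

theorem gg_harmonic {e x : E3} (he : ‖e‖ = 1) (hx : x ∈ reg e) : HarmonicAt (gg e) x := by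
  refine ⟨?_, ?_⟩
  · have hx0 : x ≠ 0 := sol3_ne he hx.1
    have h1 : ContDiffAt ℝ 2 (fun y => (√(aa e y), bb e y)) x := by
      refine ContDiffAt.prodMk ?_ ((bb_contDiffAt hx0).of_le (by norm_cast))
      exact ((aa_contDiffAt hx0).of_le (by norm_cast)).sqrt hx.1.ne'
    exact (sol3_contDiffAt_F (sol3_mem_domF he hx)).comp x h1
  · filter_upwards [(isOpen_reg e).mem_nhds hx] with y hy
    have h1 := lap_comp he hy.1 (sol3_contDiffAt_F (sol3_mem_domF he hy))
    have h2 := FF_pde (sol3_mem_domF he hy)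
    have h3 : Δ (gg e) y = Δ (fun z => (fun p : ℝ × ℝ => FF p.1 p.2) (√(aa e z), bb e z)) y := rfl
    rw [h3, h1]
    show (1 / (2 * ‖y‖)) *
      (deriv (deriv fun t => FF t (bb e y)) √(aa e y) +
        deriv (fun t => FF t (bb e y)) √(aa e y) / √(aa e y) +
        4 * (bb e y * deriv (deriv (FF √(aa e y))) (bb e y) +
          deriv (FF √(aa e y)) (bb e y))) = 0
    rw [h2, mul_zero]

theorem gg_pos {e x : E3} (he : ‖e‖ = 1) (hx : inner ℝ x e < 5 / 8) (ha : 1 < aa e x) :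
    0 < gg e x := by
  have h1 := (mem_reg he hx ha.le).2
  unfold gg
  refine FF_pos ?_ (sol3_bb_nonneg he x) h1
  rw [show (1 : ℝ) = √1 from Real.sqrt_one.symm]
  exact Real.sqrt_lt_sqrt (by norm_num) ha

theorem gg_zero {e x : E3} (ha : aa e x = 1) : gg e x = 0 := by
  unfold gg
  rw [ha, Real.sqrt_one, FF_one]

theorem gg_grad {e x : E3} (he : ‖e‖ = 1) (ha : aa e x = 1) : ‖fderiv ℝ (gg e) x‖ = 1 := by
  have ha0 : 0 < aa e x := by rw [ha]; norm_num
  have hx0 : x ≠ 0 := sol3_ne he ha0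
  have hxn : 0 < ‖x‖ := norm_pos_iff.2 hx0
  have hb := sol3_bb_nonneg he x
  have hdom : ((1 : ℝ), bb e x) ∈ domF := by
    refine ⟨one_pos, ?_, ?_⟩
    · show -(1 / 16) < bb e x
      linarith
    · show ((1 : ℝ) - 1) ^ 2 < 1 / 4 + bb e x
      norm_num
      linarith
  have hF := ((sol3_contDiffAt_F hdom).differentiableAt (by norm_num)).hasFDerivAt
  set L := fderiv ℝ (fun p : ℝ × ℝ => FF p.1 p.2) ((1 : ℝ), bb e x) with hL
  have hL1 : L (1, 0) = √(1 + bb e x) := by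
    have h1 : HasDerivAt (fun t : ℝ => (t, bb e x)) ((1 : ℝ), (0 : ℝ)) 1 :=
      (hasDerivAt_id (1 : ℝ)).prodMk (hasDerivAt_const (1 : ℝ) (bb e x))
    have h2 := hF.comp_hasDerivAt (1 : ℝ) h1
    have h3 := h2.deriv
    rw [← h3]
    have h4 : -(1 / 16) < bb e x := lt_of_lt_of_le (by norm_num) hb
    exact FF_deriv_one h4
  have hL2 : L (0, 1) = 0 := by
    have h1 : HasDerivAt (fun t : ℝ => ((1 : ℝ), t)) ((0 : ℝ), (1 : ℝ)) (bb e x) :=
      (hasDerivAt_const (bb e x) (1 : ℝ)).prodMk (hasDerivAt_id (bb e x))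
    have h2 := hF.comp_hasDerivAt (bb e x) h1
    have h3 : ((fun p : ℝ × ℝ => FF p.1 p.2) ∘ fun t : ℝ => ((1 : ℝ), t)) = fun _ => 0 := by
      funext t
      exact FF_one t
    rw [h3] at h2
    exact h2.unique (hasDerivAt_const (bb e x) (0 : ℝ))
  have hda := ((aa_contDiffAt (e := e) hx0).differentiableAt (by norm_cast)).hasFDerivAt
  have hdb := ((bb_contDiffAt (e := e) hx0).differentiableAt (by norm_cast)).hasFDerivAt
  have hds := hda.sqrt ha0.ne'
  have hpair := hds.prodMk hdb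
  have hF' : HasFDerivAt (fun p : ℝ × ℝ => FF p.1 p.2) L (√(aa e x), bb e x) := by
    rw [ha, Real.sqrt_one]
    exact hF
  have hcomp := hF'.comp x hpair
  have hgg : fderiv ℝ (gg e) x = √(1 + bb e x) • ((1 / 2 : ℝ) • fderiv ℝ (aa e) x) := by
    have h1 : HasFDerivAt (gg e) _ x := hcomp
    rw [h1.fderiv]
    ext v
    have h2 : ∀ α β : ℝ, L (α, β) = α * L (1, 0) + β * L (0, 1) := by
      intro α β
      have : ((α, β) : ℝ × ℝ) = α • ((1 : ℝ), (0 : ℝ)) + β • ((0 : ℝ), (1 : ℝ)) := by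
        simp
      rw [this, map_add, map_smul, map_smul]
      simp
    simp only [ContinuousLinearMap.comp_apply, ContinuousLinearMap.prod_apply,
      smul_apply, smul_eq_mul]
    rw [h2, hL1, hL2, ha, Real.sqrt_one]
    ring
  have hn2 := aa_fderiv_norm he hx0
  rw [ha] at hn2
  have hsum : 2 * ‖x‖ = 1 + bb e x := by
    have h1 : aa e x + bb e x = 2 * ‖x‖ := by
      unfold aa bb
      ring
    rw [← h1, ha]
  have hsq : ‖fderiv ℝ (gg e) x‖ ^ 2 = 1 := by
    rw [hgg, norm_smul, norm_smul, mul_pow, mul_pow, hn2, Real.norm_of_nonneg (Real.sqrt_nonneg _),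
      Real.sq_sqrt (by linarith), ← hsum]
    field_simp
    norm_num
  have h0 := norm_nonneg (fderiv ℝ (gg e) x)
  nlinarith

end FBQ
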