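import Pool.Agent.FBQ.Sol3

/-!
# The classical solution
-/

open MeasureTheory Metric Set Filter Topology InnerProductSpace Laplacian
open scoped ContDiff

namespace FBQ

theorem uu_pos_iff {e x : E3} (he : ‖e‖ = 1) (hx : inner ℝ x e < 5 / 8) :
    0 < uu e x ↔ 1 < aa e x := by
  constructor
  · intro h
    by_contra hc
    simp [uu, hc] at h
  · intro h
    rw [uu, if_pos h]
    exact gg_pos he hx h

theorem uu_zero_iff {e x : E3} (he : ‖e‖ = 1) (hx : inner ℝ x e < 5 / 8) :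
    uu e x = 0 ↔ aa e x ≤ 1 := by
  constructor
  · intro h
    by_contra hc
    have := (uu_pos_iff he hx).2 (not_le.1 hc)
    exact this.ne' h
  · intro h
    rw [uu, if_neg (not_lt.2 h)]

theorem uus_aa_continuous (e : E3) : Continuous (aa e) := by
  unfold aa
  fun_prop

theorem uus_set_eq {e : E3} (he : ‖e‖ = 1) {O : Set E3} (hOe : ∀ x ∈ O, inner ℝ x e < 5 / 8) :
    {x | x ∈ O ∧ 0 < uu e x} = O ∩ {x | 1 < aa e x} := by
  ext x
  constructor
  · rintro ⟨h1, h2⟩
    exact ⟨h1, (uu_pos_iff he (hOe x h1)).1 h2⟩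
  · rintro ⟨h1, h2⟩
    exact ⟨h1, (uu_pos_iff he (hOe x h1)).2 h2⟩

theorem uus_aa_lt {e x : E3} (he : ‖e‖ = 1) (ha : 0 < aa e x) {t : ℝ} (ht : 0 < t) :
    aa e x < aa e (x + t • e) := by
  unfold aa at *
  have h1 : (inner ℝ (x + t • e) e : ℝ) = inner ℝ x e + t := by
    rw [inner_add_left, inner_smul_left, real_inner_self_eq_norm_sq, he]
    simp
  have h2 : ‖x + t • e‖ ^ 2 = ‖x‖ ^ 2 + 2 * (t * inner ℝ x e) + t ^ 2 := by
    rw [norm_add_sq_real, inner_smul_right, norm_smul, he]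
    simp
  rw [h1]
  by_contra hc
  have h3 : ‖x + t • e‖ ≤ ‖x‖ - t := by linarith [not_lt.1 hc]
  have h4 : ‖x + t • e‖ ^ 2 ≤ (‖x‖ - t) ^ 2 := by
    have := norm_nonneg (x + t • e)
    gcongr
  have h5 : t * (‖x‖ + inner ℝ x e) ≤ 0 := by nlinarith
  have h6 : 0 < t * (‖x‖ + inner ℝ x e) := mul_pos ht ha
  linarith

/-- The free boundary of `uu` in `O`. -/
theorem frontier_uu {e : E3} (he : ‖e‖ = 1) {O : Set E3} (hO : IsOpen O)
    (hOe : ∀ x ∈ O, inner ℝ x e < 5 / 8) :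
    O ∩ frontier {x | x ∈ O ∧ 0 < uu e x} = {x | x ∈ O ∧ aa e x = 1} := by
  rw [uus_set_eq he hOe]
  have hop : IsOpen {x : E3 | 1 < aa e x} := isOpen_lt continuous_const (uus_aa_continuous e)
  have hcl : IsClosed {x : E3 | 1 ≤ aa e x} := isClosed_le continuous_const (uus_aa_continuous e)
  rw [(hO.inter hop).frontier_eq]
  ext x
  constructor
  · rintro ⟨h1, h2, h3⟩
    refine ⟨h1, le_antisymm ?_ ?_⟩
    · by_contra hc
      exact h3 ⟨h1, not_le.1 hc⟩
    · have h4 : closure (O ∩ {x : E3 | 1 < aa e x}) ⊆ {x : E3 | 1 ≤ aa e x} := by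
        refine closure_minimal ?_ hcl
        rintro z ⟨-, hz⟩
        have hz' : 1 < aa e z := hz
        exact hz'.le
      exact h4 h2
  · rintro ⟨h1, h2⟩
    refine ⟨h1, ?_, fun h => ?_⟩
    · have hc : ContinuousAt (fun t : ℝ => x + t • e) 0 := by fun_prop
      have ht : Tendsto (fun t : ℝ => x + t • e) (𝓝[>] 0) (𝓝 x) := by
        have := hc.tendsto
        simp only [zero_smul, add_zero] at this
        exact this.mono_left nhdsWithin_le_nhds
      refine mem_closure_of_tendsto ht ?_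
      have h3 : ∀ᶠ t in 𝓝[>] (0 : ℝ), x + t • e ∈ O := ht.eventually (hO.mem_nhds h1)
      filter_upwards [h3, self_mem_nhdsWithin] with t ht1 ht2
      refine ⟨ht1, ?_⟩
      have := uus_aa_lt he (by rw [h2]; exact one_pos) (show 0 < t from ht2)
      rw [h2] at this
      exact this
    · have : (1 : ℝ) < aa e x := h.2
      rw [h2] at this
      exact lt_irrefl _ this

theorem uus_gg_contDiffAt {e x : E3} (he : ‖e‖ = 1) (hx : x ∈ reg e) :
    ContDiffAt ℝ ∞ (gg e) x := FB75.harmonic_contDiffAt (gg_harmonic he hx)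

theorem uus_continuousAt {e x : E3} (he : ‖e‖ = 1) (hx : inner ℝ x e < 5 / 8) :
    ContinuousAt (uu e) x := by
  have hac := (uus_aa_continuous e).continuousAt (x := x)
  rcases lt_trichotomy (aa e x) 1 with h | h | h
  · have h1 : ∀ᶠ y in 𝓝 x, aa e y < 1 := hac.eventually_lt_const h
    have h2 : uu e =ᶠ[𝓝 x] fun _ => (0 : ℝ) := by
      filter_upwards [h1] with y hy
      rw [uu, if_neg (not_lt.2 hy.le)]
    exact continuousAt_const.congr h2.symm
  · have hg : ContinuousAt (gg e) x := (uus_gg_contDiffAt he (mem_reg he hx h.ge)).continuousAt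
    have h0 : gg e x = 0 := gg_zero h
    have hu : uu e x = 0 := by rw [uu, if_neg (by rw [h]; exact lt_irrefl _)]
    unfold ContinuousAt at *
    rw [hu]
    rw [h0] at hg
    refine squeeze_zero_norm (fun y => ?_) (by simpa using hg.norm)
    show ‖uu e y‖ ≤ ‖gg e y‖
    by_cases hy : 1 < aa e y
    · rw [uu, if_pos hy]
    · rw [uu, if_neg hy]
      simp
  · have hg : ContinuousAt (gg e) x := (uus_gg_contDiffAt he (mem_reg he hx h.le)).continuousAt
    have h1 : ∀ᶠ y in 𝓝 x, 1 < aa e y := hac.eventually_const_lt h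
    have h2 : uu e =ᶠ[𝓝 x] gg e := by
      filter_upwards [h1] with y hy
      rw [uu, if_pos hy]
    exact hg.congr h2.symm

theorem uus_phi_contDiffAt {e x : E3} (hx : x ≠ 0) :
    ContDiffAt ℝ ∞ (fun z => aa e z - 1) x := (aa_contDiffAt hx).sub contDiffAt_const

theorem uus_phi_fderiv (e : E3) :
    fderiv ℝ (fun z => aa e z - 1) = fderiv ℝ (aa e) := by
  ext1 x
  exact fderiv_sub_const _

theorem uus_ne_zero {e x : E3} (he : ‖e‖ = 1) (ha : 0 < aa e x) : x ≠ 0 :=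
  norm_pos_iff.1 (norm_pos_of_aa he ha)

theorem uus_fderiv_ne {e x : E3} (he : ‖e‖ = 1) (ha : 0 < aa e x) :
    fderiv ℝ (aa e) x ≠ 0 := by
  intro h
  have h1 := aa_fderiv_norm he (uus_ne_zero he ha)
  rw [h, norm_zero] at h1
  have h2 := norm_pos_of_aa he ha
  have h3 : 0 < 2 * aa e x / ‖x‖ := by positivity
  rw [← h1] at h3
  norm_num at h3

theorem uu_solution {e : E3} (he : ‖e‖ = 1) {O : Set E3} (hO : IsOpen O)
    (hOe : ∀ x ∈ O, inner ℝ x e < 5 / 8) : IsSolutionOn O (uu e) := by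
  refine ⟨fun x hx => (uus_continuousAt he (hOe x hx)).continuousWithinAt, fun x hx => ?_,
    fun x hx => ?_, fun y hy hyf => ?_⟩
  · by_cases h : 1 < aa e x
    · exact ((uu_pos_iff he (hOe x hx)).2 h).le
    · rw [uu, if_neg h]
  · obtain ⟨h1, h2⟩ := hx
    have h3 := (uu_pos_iff he (hOe x h1)).1 h2
    have h4 : ∀ᶠ y in 𝓝 x, 1 < aa e y :=
      ((uus_aa_continuous e).continuousAt (x := x)).eventually_const_lt h3
    have h5 : uu e =ᶠ[𝓝 x] gg e := by
      filter_upwards [h4] with y hy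
      rw [uu, if_pos hy]
    exact (harmonicAt_congr_nhds h5).2 (gg_harmonic he (mem_reg he (hOe x h1) h3.le))
  · have hmem : y ∈ {x | x ∈ O ∧ aa e x = 1} := by
      rw [← frontier_uu he hO hOe]
      exact ⟨hy, hyf⟩
    have ha : aa e y = 1 := hmem.2
    refine ⟨O ∩ reg e, hO.inter (isOpen_reg e), ⟨hy, mem_reg he (hOe y hy) ha.ge⟩,
      inter_subset_left, fun z => aa e z - 1, gg e, ?_, ?_, ?_, ?_, ?_, ?_, ?_, ?_⟩
    · exact fun x hx => (uus_phi_contDiffAt (uus_ne_zero he hx.2.1)).contDiffWithinAt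
    · exact fun x hx => (uus_gg_contDiffAt he hx.2).contDiffWithinAt
    · intro x hx
      rw [uus_phi_fderiv]
      exact uus_fderiv_ne he hx.2.1
    · ext x
      constructor
      · rintro ⟨h1, h2⟩
        have h3 : x ∈ {x | x ∈ O ∧ aa e x = 1} := by
          rw [← frontier_uu he hO hOe]
          exact ⟨h2.1, h1⟩
        exact ⟨by simpa [sub_eq_zero] using h3.2, h2⟩
      · rintro ⟨h1, h2⟩
        have h3 : x ∈ O ∩ frontier {x | x ∈ O ∧ 0 < uu e x} := by
          rw [frontier_uu he hO hOe]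
          exact ⟨h2.1, by simpa [sub_eq_zero] using h1⟩
        exact ⟨h3.2, h2⟩
    · intro x hx h
      exact (uu_zero_iff he (hOe x hx.1)).2 (by linarith)
    · intro x hx h
      exact (uu_pos_iff he (hOe x hx.1)).2 (by linarith)
    · intro x hx h
      rcases eq_or_lt_of_le h with h1 | h1
      · have h2 : aa e x = 1 := by linarith
        rw [(uu_zero_iff he (hOe x hx.1)).2 h2.le, gg_zero h2]
      · rw [uu, if_pos (by linarith)]
    · intro x hx h
      exact gg_grad he (by linarith)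

theorem uus_exists_tau (e y : E3) :
    ∃ τ : E3, ‖τ‖ = 1 ∧ inner ℝ y τ = (0 : ℝ) ∧ inner ℝ e τ = (0 : ℝ) := by
  classical
  set K : Submodule ℝ E3 := Submodule.span ℝ {y, e} with hK
  have h1 : Module.finrank ℝ K ≤ 2 := by
    have := finrank_span_finset_le_card (R := ℝ) ({y, e} : Finset E3)
    have h2 : (({y, e} : Finset E3) : Set E3) = {y, e} := by simp
    rw [h2] at this
    exact this.trans Finset.card_le_two
  have h3 : Module.finrank ℝ K + Module.finrank ℝ Kᗮ = 3 := by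
    rw [K.finrank_add_finrank_orthogonal]
    simp
  have h4 : 0 < Module.finrank ℝ Kᗮ := by omega
  have h5 : Nontrivial Kᗮ := Module.nontrivial_of_finrank_pos h4
  obtain ⟨w, hw⟩ := exists_ne (0 : Kᗮ)
  have hw0 : (w : E3) ≠ 0 := by simpa using hw
  have hwn : 0 < ‖(w : E3)‖ := norm_pos_iff.2 hw0
  have hy : y ∈ K := Submodule.subset_span (by simp)
  have hee : e ∈ K := Submodule.subset_span (by simp)
  have i1 : inner ℝ y (w : E3) = (0 : ℝ) := Submodule.inner_right_of_mem_orthogonal hy w.2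
  have i2 : inner ℝ e (w : E3) = (0 : ℝ) := Submodule.inner_right_of_mem_orthogonal hee w.2
  refine ⟨(‖(w : E3)‖)⁻¹ • (w : E3), ?_, ?_, ?_⟩
  · rw [norm_smul, norm_inv, norm_norm, inv_mul_cancel₀ hwn.ne']
  · rw [inner_smul_right, i1, mul_zero]
  · rw [inner_smul_right, i2, mul_zero]

/-- The curvature of the free boundary of `uu`. -/
theorem uu_curv {e : E3} (he : ‖e‖ = 1) {O : Set E3} (hO : IsOpen O)
    (hOe : ∀ x ∈ O, inner ℝ x e < 5 / 8) {y : E3} (hy : y ∈ O) (ha : aa e y = 1) {M : ℝ}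
    (hM : M < 1 / √(2 * ‖y‖)) :
    HasNormalCurvatureGT (frontier {x | x ∈ O ∧ 0 < uu e x}) y M := by
  obtain ⟨τ, h1, h2, h3⟩ := uus_exists_tau e y
  have ha0 : 0 < aa e y := by rw [ha]; exact one_pos
  have hy0 : y ≠ 0 := uus_ne_zero he ha0
  have hyn : 0 < ‖y‖ := norm_pos_iff.2 hy0
  refine ⟨O ∩ reg e, hO.inter (isOpen_reg e), ⟨hy, mem_reg he (hOe y hy) ha.ge⟩,
    fun z => aa e z - 1, ?_, ?_, ?_, τ, h1, ?_, ?_⟩
  · exact fun x hx => (uus_phi_contDiffAt (uus_ne_zero he hx.2.1)).contDiffWithinAt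
  · intro x hx
    rw [uus_phi_fderiv]
    exact uus_fderiv_ne he hx.2.1
  · ext x
    constructor
    · rintro ⟨h1, h2⟩
      have h3 : x ∈ {x | x ∈ O ∧ aa e x = 1} := by
        rw [← frontier_uu he hO hOe]
        exact ⟨h2.1, h1⟩
      exact ⟨by simpa [sub_eq_zero] using h3.2, h2⟩
    · rintro ⟨h1, h2⟩
      have h3 : x ∈ O ∩ frontier {x | x ∈ O ∧ 0 < uu e x} := by
        rw [frontier_uu he hO hOe]
        exact ⟨h2.1, by simpa [sub_eq_zero] using h1⟩
      exact ⟨h3.2, h2⟩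
  · rw [uus_phi_fderiv, aa_fderiv hy0, h2, h3]
    simp
  · rw [uus_phi_fderiv, aa_fderiv_two hy0, h2, real_inner_self_eq_norm_sq, h1]
    have h4 : ‖fderiv ℝ (aa e) y‖ = √(2 / ‖y‖) := by
      rw [← Real.sqrt_sq (norm_nonneg (fderiv ℝ (aa e) y)), aa_fderiv_norm he hy0, ha]
      norm_num
    rw [h4]
    have h5 : (1 : ℝ) / √(2 * ‖y‖) * √(2 / ‖y‖) = 1 / ‖y‖ := by
      have e1 : 0 < √(2 * ‖y‖) := Real.sqrt_pos.2 (by positivity)
      rw [div_mul_eq_mul_div, one_mul, ← Real.sqrt_div' _ (by positivity)]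
      have e2 : 2 / ‖y‖ / (2 * ‖y‖) = (1 / ‖y‖) ^ 2 := by
        field_simp
      rw [e2, Real.sqrt_sq (by positivity)]
    have h6 : M * √(2 / ‖y‖) < 1 / √(2 * ‖y‖) * √(2 / ‖y‖) := by
      have e1 : 0 < √(2 / ‖y‖) := Real.sqrt_pos.2 (by positivity)
      exact mul_lt_mul_of_pos_right hM e1
    rw [h5] at h6
    have h7 : |(1 : ℝ) ^ 2 / ‖y‖ - 0 * 0 / ‖y‖ ^ 3| = 1 / ‖y‖ := by
      have : (1 : ℝ) ^ 2 / ‖y‖ - 0 * 0 / ‖y‖ ^ 3 = 1 / ‖y‖ := by ring
      rw [this, abs_of_pos (by positivity)]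
    rw [h7]
    exact h6

end FBQ
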